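import Pool.Agent.TH255.HC.Main
import Mathlib.Computability.Reduce

/-!
# Undecidability, with a gap
-/

set_option autoImplicit false

namespace Pool.Agent.TH255.HC

open MvPolynomial

/-- the form with a gap between the two kinds of solutions -/
theorem gap_form (C : ℕ) (A δ : ℝ) (hδ : δ < 1 / 2) {W : ℕ → Prop} (hW : REPred W) :
    ∃ (n : ℕ) (F : MvPolynomial (Fin (n + 1)) ℤ) (S : Finset (Fin (n + 1) × Fin (n + 1))),
      ∀ c : ℕ,
        (W c → ∃ y : Fin (n + 1) → ℚ, y 0 = c ∧ aeval y F = 0 ∧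
          ∀ s ∈ S, C * H (y s.1) ≤ H (y s.2)) ∧
        ((∃ y : Fin (n + 1) → ℚ, y 0 = c ∧ aeval y F = 0 ∧ ∀ s ∈ S,
          Real.log (H (y s.1)) ≤ Real.log (H (y s.2)) + A * (1 + Real.log (H (y s.2))) ^ δ) →
          W c) := by
  let τ : Tol := ⟨C + 1, |A|, δ, hδ⟩
  obtain ⟨n, F, S, h⟩ := DH.final (Q := fun x => ∃ a : ℕ, x = a ∧ W a) (dh_re (C := τ) hW)
  have hpos : ∀ y : ℚ, 0 ≤ (1 + Real.log (H y)) ^ δ := fun y =>
    Real.rpow_nonneg (by have := log_H_nonneg y; linarith) _
  have hlog : ∀ x y : ℚ, (C + 1) * H x ≤ H y → Real.log (H x) ≤ Real.log (H y) := by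
    intro x y hxy
    apply Real.log_le_log
    · exact_mod_cast H_pos x
    · have : H x ≤ H y := by nlinarith [Nat.zero_le (C * H x)]
      exact_mod_cast this
  have hmin : Btw τ (fun x y => (C + 1) * H x ≤ H y) := by
    refine ⟨fun x y h => h, fun x y hxy => ?_⟩
    have h1 := hlog x y hxy
    have h2 : 0 ≤ |A| * (1 + Real.log (H y)) ^ δ := mul_nonneg (abs_nonneg _) (hpos y)
    change Real.log (H x) ≤ Real.log (H y) + |A| * (1 + Real.log (H y)) ^ δ
    linarith
  have hmax : Btw τ (fun x y => Real.log (H x) ≤ Real.log (H y) +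
      |A| * (1 + Real.log (H y)) ^ δ) := by
    refine ⟨fun x y hxy => ?_, fun x y h => h⟩
    have h1 := hlog x y hxy
    have h2 : 0 ≤ |A| * (1 + Real.log (H y)) ^ δ := mul_nonneg (abs_nonneg _) (hpos y)
    linarith
  refine ⟨n, F, S, fun c => ⟨fun hc => ?_, ?_⟩⟩
  · obtain ⟨y, hy, hF, hS⟩ := (h _ hmin c).mp ⟨c, rfl, hc⟩
    refine ⟨y, hy, hF, fun s hs => ?_⟩
    have := hS s hs
    nlinarith [Nat.zero_le (H (y s.1))]
  · rintro ⟨y, hy, hF, hS⟩
    obtain ⟨c', hc', hW'⟩ := (h _ hmax c).mpr ⟨y, hy, hF, fun s hs => by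
      have h1 := hS s hs
      have h2 : A * (1 + Real.log (H (y s.2))) ^ δ ≤ |A| * (1 + Real.log (H (y s.2))) ^ δ :=
        mul_le_mul_of_nonneg_right (le_abs_self A) (hpos _)
      linarith⟩
    have : c = c' := by exact_mod_cast hc'
    rw [this]
    exact hW'

/-! ### a universal recursively enumerable set -/

/-- the universal set: the program `n.unpair.1` halts on the input `n.unpair.2` -/
def Uni (n : ℕ) : Prop :=
  (Nat.Partrec.Code.eval (Denumerable.ofNat Nat.Partrec.Code n.unpair.1) n.unpair.2).Dom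

theorem uni_re : REPred Uni := by
  have h : Partrec (fun n : ℕ =>
      Nat.Partrec.Code.eval (Denumerable.ofNat Nat.Partrec.Code n.unpair.1) n.unpair.2) := by
    have h1 : Computable (fun n : ℕ => Denumerable.ofNat Nat.Partrec.Code n.unpair.1) :=
      (Computable.ofNat _).comp (Computable.fst.comp Computable.unpair)
    exact Nat.Partrec.Code.eval_part.comp h1 (Computable.snd.comp Computable.unpair)
  exact h.dom_re

theorem uni_univ {W : ℕ → Prop} (hW : REPred W) : ∃ g : ℕ → ℕ, Computable g ∧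
    ∀ a, W a ↔ Uni (g a) := by
  have h1 : Nat.Partrec (fun n => (Part.assert (W n) fun _ => Part.some ()).map (fun _ => 0)) := by
    have := hW
    unfold REPred at this
    have h2 := Partrec.map this ((Computable.const (0 : ℕ)).to₂ (α := ℕ) (β := Unit))
    exact Partrec.nat_iff.1 h2
  obtain ⟨c, hc⟩ := Nat.Partrec.Code.exists_code.1 h1
  refine ⟨fun a => Nat.pair (Encodable.encode c) a, ?_, fun a => ?_⟩
  · exact (Primrec₂.natPair.comp (Primrec.const _) Primrec.id).to_comp
  · unfold Uni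
    rw [Nat.unpair_pair]
    simp only [Denumerable.ofNat_encode]
    rw [hc]
    simp [Part.assert]

theorem uni_not : ¬ ComputablePred Uni := by
  intro h
  apply ComputablePred.halting_problem 0
  refine ComputablePred.computable_of_manyOneReducible
    ⟨fun c => Nat.pair (Encodable.encode c) 0, ?_, fun c => ?_⟩ h
  · exact (Primrec₂.natPair.comp Primrec.encode (Primrec.const 0)).to_comp
  · unfold Uni
    simp only [Nat.unpair_pair, Denumerable.ofNat_encode]

end Pool.Agent.TH255.HC
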