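import Pool.Agent.TH255.HC.Main

/-!
# Comparisons of heights on an interval
-/

set_option autoImplicit false

namespace Pool.Agent.TH255.HC

open MvPolynomial

lemma H_ge_one (x : ℚ) : 1 ≤ H x := H_pos x

/-- the height of `1 / (x² + 1)` -/
lemma den_inv_sq (x : ℚ) : (1 / (x ^ 2 + 1)).den = x.num.natAbs ^ 2 + x.den ^ 2 := by
  have hd : (x.den : ℚ) ≠ 0 := by exact_mod_cast x.den_nz
  have hpos : (0 : ℤ) < x.num ^ 2 + (x.den : ℤ) ^ 2 := by
    have : (0 : ℤ) < x.den := by exact_mod_cast x.den_pos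
    positivity
  have h1 : 1 / (x ^ 2 + 1) = (((x.den : ℤ) ^ 2 : ℤ) : ℚ) /
      ((x.num ^ 2 + (x.den : ℤ) ^ 2 : ℤ) : ℚ) := by
    have h0 : (0 : ℚ) < x ^ 2 + 1 := by positivity
    have hposq : (0 : ℚ) < ((x.num ^ 2 + (x.den : ℤ) ^ 2 : ℤ) : ℚ) := by exact_mod_cast hpos
    rw [div_eq_div_iff h0.ne' hposq.ne']
    have hx : (x.num : ℚ) = x * x.den := (Rat.mul_den_eq_num x).symm
    push_cast
    rw [hx]
    ring
  have hcop : Nat.Coprime ((x.den : ℤ) ^ 2).natAbs (x.num ^ 2 + (x.den : ℤ) ^ 2).natAbs := by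
    have e1 : (x.num ^ 2 + (x.den : ℤ) ^ 2).natAbs = x.num.natAbs ^ 2 + x.den ^ 2 := by
      zify
      rw [abs_of_nonneg hpos.le, sq_abs]
    have e2 : ((x.den : ℤ) ^ 2).natAbs = x.den ^ 2 := by
      rw [Int.natAbs_pow, Int.natAbs_natCast]
    rw [e1, e2, Nat.coprime_add_self_right]
    exact (x.reduced.pow 2 2).symm
  rw [h1]
  have := Rat.den_div_eq_of_coprime hpos hcop
  have e1 : ((x.num.natAbs ^ 2 + x.den ^ 2 : ℕ) : ℤ) = x.num ^ 2 + (x.den : ℤ) ^ 2 := by
    push_cast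
    rw [sq_abs]
  exact Int.natCast_inj.mp (this.trans e1.symm)

lemma sq_bounds (x : ℚ) : H x ^ 2 ≤ x.num.natAbs ^ 2 + x.den ^ 2 ∧
    x.num.natAbs ^ 2 + x.den ^ 2 ≤ 2 * H x ^ 2 := by
  have h1 : x.num.natAbs ≤ H x := le_max_left _ _
  have h2 : x.den ≤ H x := le_max_right _ _
  have h3 := Nat.pow_le_pow_left h1 2
  have h4 := Nat.pow_le_pow_left h2 2
  refine ⟨?_, by linarith⟩
  rcases max_choice x.num.natAbs x.den with h | h
  · unfold H; rw [h]; exact Nat.le_add_right _ _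
  · unfold H; rw [h]; exact Nat.le_add_left _ _

/-- the map into the interval -/
def fI (a s x : ℚ) : ℚ := a + s * (1 / (x ^ 2 + 1))

lemma fI_mem {a s : ℚ} (hs : 0 < s) (x : ℚ) : a < fI a s x ∧ fI a s x ≤ a + s := by
  have h0 : (0 : ℚ) < x ^ 2 + 1 := by positivity
  have h1 : (0 : ℚ) < 1 / (x ^ 2 + 1) := by positivity
  have h2 : 1 / (x ^ 2 + 1) ≤ 1 := by
    rw [div_le_one h0]
    nlinarith [sq_nonneg x]
  unfold fI
  constructor
  · have := mul_pos hs h1; linarith
  · have := mul_le_mul_of_nonneg_left h2 hs.le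
    linarith

lemma den_add_le (x y : ℚ) : (x + y).den ≤ x.den * y.den :=
  Nat.le_of_dvd (Nat.mul_pos x.den_pos y.den_pos) (Rat.add_den_dvd x y)

lemma den_mul_le (x y : ℚ) : (x * y).den ≤ x.den * y.den :=
  Nat.le_of_dvd (Nat.mul_pos x.den_pos y.den_pos) (Rat.mul_den_dvd x y)

lemma H_le_of_abs {x : ℚ} {M : ℕ} (hM : 1 ≤ M) (h : |x| ≤ M) : H x ≤ M * x.den := by
  unfold H
  apply max_le
  · have h1 : (x.num.natAbs : ℚ) = |x| * x.den := by
      have hx : (x.num : ℚ) = x * x.den := (Rat.mul_den_eq_num x).symm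
      rw [Nat.cast_natAbs, Int.cast_abs, hx, abs_mul]
      congr 1
      exact abs_of_nonneg (Nat.cast_nonneg _)
    have h2 : (x.num.natAbs : ℚ) ≤ M * x.den := by
      rw [h1]
      exact mul_le_mul_of_nonneg_right h (Nat.cast_nonneg _)
    exact_mod_cast h2
  · exact Nat.le_mul_of_pos_left _ hM

/-- the heights of the values of `fI` -/
lemma H_fI {a s : ℚ} (hs : 0 < s) : ∃ K : ℕ, 1 ≤ K ∧ ∀ x : ℚ,
    H (fI a s x) ≤ K * H x ^ 2 ∧ H x ^ 2 ≤ K * H (fI a s x) := by
  obtain ⟨M, hM⟩ := exists_nat_gt (|a| + |s| + 1)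
  have hM1 : 1 ≤ M := by
    have : (1 : ℚ) < M := by
      have := abs_nonneg a
      have := abs_nonneg s
      linarith
    exact_mod_cast this.le
  have hsi : s ≠ 0 := hs.ne'
  set D : ℕ := a.den * s.den * s⁻¹.den with hD
  have hD1 : 1 ≤ D := Nat.mul_pos (Nat.mul_pos a.den_pos s.den_pos) (Rat.den_pos _)
  refine ⟨2 * M * D, by nlinarith, fun x => ?_⟩
  set w : ℚ := 1 / (x ^ 2 + 1) with hw
  obtain ⟨b1, b2⟩ := sq_bounds x
  have hwd : w.den = x.num.natAbs ^ 2 + x.den ^ 2 := den_inv_sq x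
  have hz : fI a s x = a + s * w := rfl
  constructor
  · have h1 : (fI a s x).den ≤ D * w.den := by
      rw [hz]
      calc (a + s * w).den ≤ a.den * (s * w).den := den_add_le _ _
        _ ≤ a.den * (s.den * w.den) := Nat.mul_le_mul_left _ (den_mul_le _ _)
        _ = a.den * s.den * 1 * w.den := by ring
        _ ≤ D * w.den := by
            apply Nat.mul_le_mul_right
            rw [hD]
            exact Nat.mul_le_mul_left _ (Rat.den_pos _)
    have h2 : |fI a s x| ≤ M := by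
      obtain ⟨c1, c2⟩ := fI_mem (a := a) hs x
      have d1 := neg_abs_le a
      have d2 := le_abs_self a
      have d3 := le_abs_self s
      exact abs_le.mpr ⟨by linarith [abs_nonneg s], by linarith⟩
    calc H (fI a s x) ≤ M * (fI a s x).den := H_le_of_abs hM1 h2
      _ ≤ M * (D * (2 * H x ^ 2)) :=
          Nat.mul_le_mul_left _ (h1.trans (Nat.mul_le_mul_left _ (hwd ▸ b2)))
      _ = 2 * M * D * H x ^ 2 := by ring
  · have h1 : w = (fI a s x + -a) * s⁻¹ := by
      rw [hz]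
      field_simp
      ring
    have h2 : w.den ≤ D * (fI a s x).den := by
      calc w.den = ((fI a s x + -a) * s⁻¹).den := congrArg Rat.den h1
        _ ≤ (fI a s x + -a).den * s⁻¹.den := den_mul_le _ _
        _ ≤ ((fI a s x).den * (-a).den) * s⁻¹.den := Nat.mul_le_mul_right _ (den_add_le _ _)
        _ = (a.den * 1 * s⁻¹.den) * (fI a s x).den := by rw [Rat.den_neg_eq_den]; ring
        _ ≤ D * (fI a s x).den := by
            apply Nat.mul_le_mul_right
            rw [hD]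
            exact Nat.mul_le_mul_right _ (Nat.mul_le_mul_left _ s.den_pos)
    have h3 : (fI a s x).den ≤ H (fI a s x) := le_max_right _ _
    calc H x ^ 2 ≤ w.den := hwd ▸ b1
      _ ≤ D * H (fI a s x) := h2.trans (Nat.mul_le_mul_left _ h3)
      _ ≤ 2 * M * D * H (fI a s x) := by
          apply Nat.mul_le_mul_right
          nlinarith

/-- comparisons on an interval give comparisons everywhere -/
lemma btw_loc (C : ℕ) (A δ : ℝ) (hδ : δ < 1 / 2) {a s : ℚ} (hs : 0 < s) : ∃ τ : Tol,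
    ∀ R : ℚ → ℚ → Prop,
      (∀ x y, (a < x ∧ x ≤ a + s) → (a < y ∧ y ≤ a + s) → C * H x ≤ H y → R x y) →
      (∀ x y, (a < x ∧ x ≤ a + s) → (a < y ∧ y ≤ a + s) → R x y →
        Real.log (H x) ≤ Real.log (H y) + A * (1 + Real.log (H y)) ^ δ) →
      Btw τ (fun x y => R (fI a s x) (fI a s y)) := by
  obtain ⟨K, hK, hKH⟩ := H_fI (a := a) hs
  have he : max δ 0 < 1 / 2 := max_lt hδ (by norm_num)
  refine ⟨⟨C * K ^ 2 + 1, Real.log K + |A| * (2 + Real.log K), max δ 0, he⟩, fun R h1 h2 => ?_⟩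
  have hKr : (1 : ℝ) ≤ K := by exact_mod_cast hK
  have hlK : 0 ≤ Real.log K := Real.log_nonneg hKr
  constructor
  · intro x y hxy
    apply h1 _ _ (fI_mem hs x) (fI_mem hs y)
    have e1 := (hKH x).1
    have e2 := (hKH y).2
    have e3 : C * K ^ 2 * H x ^ 2 ≤ H y ^ 2 := by
      calc C * K ^ 2 * H x ^ 2 ≤ (C * K ^ 2 + 1) ^ 2 * H x ^ 2 := by
            apply Nat.mul_le_mul_right
            nlinarith
        _ = ((C * K ^ 2 + 1) * H x) ^ 2 := by ring
        _ ≤ H y ^ 2 := Nat.pow_le_pow_left hxy 2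
    have e4 : K * (C * H (fI a s x)) ≤ K * H (fI a s y) := by
      calc K * (C * H (fI a s x)) ≤ K * (C * (K * H x ^ 2)) :=
            Nat.mul_le_mul_left _ (Nat.mul_le_mul_left _ e1)
        _ = C * K ^ 2 * H x ^ 2 := by ring
        _ ≤ _ := e3.trans e2
    exact Nat.le_of_mul_le_mul_left e4 hK
  · intro x y hxy
    have h3 := h2 _ _ (fI_mem hs x) (fI_mem hs y) hxy
    have hx1 : (1 : ℝ) ≤ H x := by exact_mod_cast H_ge_one x
    have hy1 : (1 : ℝ) ≤ H y := by exact_mod_cast H_ge_one y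
    have hfx1 : (1 : ℝ) ≤ H (fI a s x) := by exact_mod_cast H_ge_one _
    have hfy1 : (1 : ℝ) ≤ H (fI a s y) := by exact_mod_cast H_ge_one _
    have e1 : 2 * Real.log (H x) ≤ Real.log K + Real.log (H (fI a s x)) := by
      rw [← Real.log_mul (by positivity) (by positivity)]
      have : (2 : ℝ) * Real.log (H x) = Real.log ((H x : ℝ) ^ 2) := by
        rw [Real.log_pow]; norm_num
      rw [this]
      apply Real.log_le_log (by positivity)
      exact_mod_cast (hKH x).2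
    have e2 : Real.log (H (fI a s y)) ≤ Real.log K + 2 * Real.log (H y) := by
      have : (2 : ℝ) * Real.log (H y) = Real.log ((H y : ℝ) ^ 2) := by
        rw [Real.log_pow]; norm_num
      rw [this, ← Real.log_mul (by positivity) (by positivity)]
      apply Real.log_le_log (by positivity)
      exact_mod_cast (hKH y).1
    set t := Real.log (H y) with ht
    set t' := Real.log (H (fI a s y)) with ht'
    have ht0 : 0 ≤ t := Real.log_nonneg hy1
    have ht'0 : 0 ≤ t' := Real.log_nonneg hfy1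
    set ε := max δ 0 with hε
    have hε0 : 0 ≤ ε := le_max_right _ _
    have e3 : (1 + t') ^ δ ≤ (2 + Real.log K) * (1 + t) ^ ε := by
      calc (1 + t') ^ δ ≤ (1 + t') ^ ε :=
            Real.rpow_le_rpow_of_exponent_le (by linarith) (le_max_left _ _)
        _ ≤ ((2 + Real.log K) * (1 + t)) ^ ε := by
            apply Real.rpow_le_rpow (by linarith) _ hε0
            nlinarith [mul_nonneg hlK ht0]
        _ = (2 + Real.log K) ^ ε * (1 + t) ^ ε := Real.mul_rpow (by linarith) (by linarith)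
        _ ≤ (2 + Real.log K) * (1 + t) ^ ε := by
            apply mul_le_mul_of_nonneg_right _ (Real.rpow_nonneg (by linarith) _)
            have := Real.rpow_le_rpow_of_exponent_le (show (1 : ℝ) ≤ 2 + Real.log K by linarith)
              (show ε ≤ 1 by linarith)
            rwa [Real.rpow_one] at this
    have e4 : A * (1 + t') ^ δ ≤ |A| * ((2 + Real.log K) * (1 + t) ^ ε) :=
      (mul_le_mul_of_nonneg_right (le_abs_self A) (Real.rpow_nonneg (by linarith) _)).trans
        (mul_le_mul_of_nonneg_left e3 (abs_nonneg _))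
    have e5 : (1 : ℝ) ≤ (1 + t) ^ ε := Real.one_le_rpow (by linarith) hε0
    have e6 : Real.log K ≤ Real.log K * (1 + t) ^ ε := by nlinarith
    have e7 : 0 ≤ |A| * ((2 + Real.log K) * (1 + t) ^ ε) := by
      have : 0 ≤ 2 + Real.log K := by linarith
      positivity
    change Real.log (H x) ≤ t + (Real.log K + |A| * (2 + Real.log K)) * (1 + t) ^ ε
    have e8 : (Real.log K + |A| * (2 + Real.log K)) * (1 + t) ^ ε =
        Real.log K * (1 + t) ^ ε + |A| * ((2 + Real.log K) * (1 + t) ^ ε) := by ring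
    rw [e8]
    linarith

/-- the equation of the graph of `fI`, with integer coefficients -/
lemma fI_iff {a s x z : ℚ} : z = fI a s x ↔
    ((a.den * s.den : ℤ) : ℚ) * (z * (x ^ 2 + 1)) - ((a.num * s.den : ℤ) : ℚ) * (x ^ 2 + 1) -
      ((s.num * a.den : ℤ) : ℚ) = 0 := by
  have h0 : (x ^ 2 + 1 : ℚ) ≠ 0 := by positivity
  have ha : (a.den : ℚ) ≠ 0 := by exact_mod_cast a.den_nz
  have hs : (s.den : ℚ) ≠ 0 := by exact_mod_cast s.den_nz
  have ea : (a.num : ℚ) = a * a.den := (Rat.mul_den_eq_num a).symm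
  have es : (s.num : ℚ) = s * s.den := (Rat.mul_den_eq_num s).symm
  have key : ((a.den * s.den : ℤ) : ℚ) * (z * (x ^ 2 + 1)) -
      ((a.num * s.den : ℤ) : ℚ) * (x ^ 2 + 1) - ((s.num * a.den : ℤ) : ℚ) =
      (a.den * s.den * (x ^ 2 + 1)) * (z - fI a s x) := by
    unfold fI
    push_cast
    rw [ea, es]
    field_simp
    ring
  rw [key, mul_eq_zero, or_iff_right (by positivity), sub_eq_zero]

/-- the final form for comparisons on an interval -/
theorem final_loc {Q : ℚ → Prop} (hQ : ∀ τ : Tol, DH τ (fun _ v => Q (v 0))) (a b : ℚ)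
    (hab : a < b) (C : ℕ) (A δ : ℝ) (hδ : δ < 1 / 2) :
    ∃ (n : ℕ) (p : MvPolynomial (Fin (n + 1)) ℤ) (S : Finset (Fin (n + 1) × Fin (n + 1))),
      ∀ R : ℚ → ℚ → Prop,
        (∀ x y, x ∈ Set.Ioo a b → y ∈ Set.Ioo a b → C * H x ≤ H y → R x y) →
        (∀ x y, x ∈ Set.Ioo a b → y ∈ Set.Ioo a b → R x y →
          Real.log (H x) ≤ Real.log (H y) + A * (1 + Real.log (H y)) ^ δ) →
        ∀ x : ℚ, Q x ↔ ∃ y : Fin (n + 1) → ℚ, y 0 = x ∧ aeval y p = 0 ∧
          ∀ s ∈ S, R (y s.1) (y s.2) := by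
  classical
  set s : ℚ := (b - a) / 2 with hs'
  have hs : 0 < s := by rw [hs']; linarith
  have hmem : ∀ x : ℚ, a < x ∧ x ≤ a + s → x ∈ Set.Ioo a b := by
    rintro x ⟨h1, h2⟩
    exact ⟨h1, by rw [hs'] at h2; linarith⟩
  obtain ⟨τ, hτ⟩ := btw_loc C A δ hδ (a := a) hs
  obtain ⟨n, p, S, hp⟩ := (hQ τ).final
  let e₁ : Fin (n + 1) → Fin (2 * n + 1 + 1) := fun i => ⟨i, by omega⟩
  let e₂ : Fin (n + 1) → Fin (2 * n + 1 + 1) := fun i => ⟨n + 1 + i, by omega⟩
  let E : Fin (n + 1) → MvPolynomial (Fin (2 * n + 1 + 1)) ℤ := fun i =>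
    MvPolynomial.C (a.den * s.den : ℤ) * (X (e₂ i) * (X (e₁ i) ^ 2 + 1)) -
      MvPolynomial.C (a.num * s.den : ℤ) * (X (e₁ i) ^ 2 + 1) - MvPolynomial.C (s.num * a.den : ℤ)
  have hE : ∀ (y : Fin (2 * n + 1 + 1) → ℚ) (i : Fin (n + 1)),
      aeval y (E i) = 0 ↔ y (e₂ i) = fI a s (y (e₁ i)) := by
    intro y i
    rw [fI_iff]
    simp only [E, map_sub, map_mul, map_add, map_pow, aeval_X, map_one, eq_intCast, map_intCast,
      map_natCast, Int.cast_mul, Int.cast_natCast]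
  refine ⟨2 * n + 1, rename e₁ p ^ 2 + ∑ i, E i ^ 2,
    S.image (fun t => (e₂ t.1, e₂ t.2)), fun R h1 h2 x => ?_⟩
  have hR := hτ R (fun x y hx hy => h1 x y (hmem x hx) (hmem y hy))
    (fun x y hx hy => h2 x y (hmem x hx) (hmem y hy))
  rw [hp _ hR x]
  constructor
  · rintro ⟨y, hy, hp0, hS⟩
    let y' : Fin (2 * n + 1 + 1) → ℚ := fun k =>
      if h : (k : ℕ) < n + 1 then y ⟨k, h⟩ else fI a s (y ⟨k - (n + 1), by omega⟩)
    have g1 : ∀ i, y' (e₁ i) = y i := by
      intro i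
      simp only [y', e₁]
      rw [dif_pos i.2]
    have g2 : ∀ i, y' (e₂ i) = fI a s (y i) := by
      intro i
      simp only [y', e₂]
      rw [dif_neg (by omega)]
      congr 2
      ext
      simp
    refine ⟨y', ?_, ?_, ?_⟩
    · have : (0 : Fin (2 * n + 1 + 1)) = e₁ 0 := rfl
      rw [this, g1, hy]
    · have hc : y' ∘ e₁ = y := funext g1
      rw [map_add, map_pow, aeval_rename, hc, hp0, map_sum]
      have : ∀ i ∈ (Finset.univ : Finset (Fin (n + 1))), aeval y' (E i ^ 2) = 0 := by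
        intro i _
        rw [map_pow, (hE y' i).mpr (by rw [g1, g2])]
        norm_num
      rw [Finset.sum_eq_zero this]
      norm_num
    · intro t ht
      rw [Finset.mem_image] at ht
      obtain ⟨t, ht, rfl⟩ := ht
      simp only [g2]
      exact hS t ht
  · rintro ⟨y', hy, hp0, hS⟩
    have hsum : (aeval y' (rename e₁ p)) ^ 2 + ∑ i, (aeval y' (E i)) ^ 2 = 0 := by
      rw [map_add, map_pow, map_sum] at hp0
      simpa only [map_pow] using hp0
    have hnn : 0 ≤ ∑ i, (aeval y' (E i)) ^ 2 := Finset.sum_nonneg fun i _ => sq_nonneg _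
    obtain ⟨k1, k2⟩ := (add_eq_zero_iff_of_nonneg (sq_nonneg _) hnn).mp hsum
    rw [Finset.sum_eq_zero_iff_of_nonneg (fun i _ => sq_nonneg _)] at k2
    have k3 : ∀ i, y' (e₂ i) = fI a s (y' (e₁ i)) := by
      intro i
      rw [← hE]
      exact pow_eq_zero_iff (two_ne_zero) |>.mp (k2 i (Finset.mem_univ _))
    refine ⟨y' ∘ e₁, hy, ?_, ?_⟩
    · have := pow_eq_zero_iff (two_ne_zero) |>.mp k1
      rwa [aeval_rename] at this
    · intro t ht
      have := hS _ (Finset.mem_image.mpr ⟨t, ht, rfl⟩)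
      simp only [k3] at this
      exact this

end Pool.Agent.TH255.HC
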