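import Pool.Agent.TH942.Par

/-!
# The curve `y² = x³ - 2 x` over `ℚ`: the group law in coordinates
-/

set_option autoImplicit false

open WeierstrassCurve

namespace Pool.Agent.TH255.HC

open Pool.Agent.TH942

/-- the rational points of `y² = x³ - 2 x` -/
abbrev Pt : Type := SPt (-2 : ℚ) 0

/-- first coordinate (`0` for the point at infinity) -/
def ptX : Pt → ℚ
  | .zero => 0
  | .some x _ _ => x

/-- second coordinate (`0` for the point at infinity) -/
def ptY : Pt → ℚ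
  | .zero => 0
  | .some _ y _ => y

lemma no_sqrt_two (x : ℚ) : x ^ 2 ≠ 2 := by
  intro h
  have h1 : Irrational √2 := irrational_sqrt_two
  apply h1
  refine ⟨|x|, ?_⟩
  have h2 : ((|x| : ℚ) : ℝ) ^ 2 = 2 := by
    rw [← Rat.cast_pow, sq_abs, h]; norm_num
  have h3 : (0 : ℝ) ≤ ((|x| : ℚ) : ℝ) := by exact_mod_cast abs_nonneg x
  rw [← h2, Real.sqrt_sq h3]

lemma hD : 4 * (-2 : ℚ) ^ 3 + 27 * 0 ^ 2 ≠ 0 := by norm_num

lemma nonsingular_iff {x y : ℚ} :
    (sw (-2 : ℚ) 0).toAffine.Nonsingular x y ↔ y ^ 2 = x ^ 3 - 2 * x := by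
  constructor
  · intro h
    have := sw_eqn.mp h.1
    linarith
  · intro h
    exact sw_nonsing hD (by linarith)

@[simp] lemma ptX_some {x y : ℚ} (h : (sw (-2 : ℚ) 0).toAffine.Nonsingular x y) :
    ptX (Affine.Point.some x y h) = x := rfl
@[simp] lemma ptY_some {x y : ℚ} (h : (sw (-2 : ℚ) 0).toAffine.Nonsingular x y) :
    ptY (Affine.Point.some x y h) = y := rfl
@[simp] lemma ptX_zero : ptX 0 = 0 := rfl
@[simp] lemma ptY_zero : ptY 0 = 0 := rfl

lemma W_negY (x y : ℚ) : (sw (-2 : ℚ) 0).toAffine.negY x y = -y := by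
  simp [Affine.negY, sw]

lemma W_addX (x₁ x₂ l : ℚ) : (sw (-2 : ℚ) 0).toAffine.addX x₁ x₂ l = l ^ 2 - x₁ - x₂ := by
  simp [Affine.addX, sw]

lemma W_addY (x₁ x₂ y₁ l : ℚ) :
    (sw (-2 : ℚ) 0).toAffine.addY x₁ x₂ y₁ l = -(l * ((l ^ 2 - x₁ - x₂) - x₁) + y₁) := by
  rw [Affine.addY, W_negY, Affine.negAddY, W_addX]

/-- case analysis on nonzero points -/
lemma exists_some {P : Pt} (hP : P ≠ 0) :
    ∃ (x y : ℚ) (h : (sw (-2 : ℚ) 0).toAffine.Nonsingular x y), P = Affine.Point.some x y h := by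
  cases P with
  | zero => exact absurd rfl hP
  | some x y h => exact ⟨x, y, h, rfl⟩

theorem ptX_neg (P : Pt) : ptX (-P) = ptX P := by
  cases P with
  | zero => rfl
  | some x y h => rw [Affine.Point.neg_some]; rfl

theorem ptY_neg (P : Pt) : ptY (-P) = - ptY P := by
  cases P with
  | zero => change (0 : ℚ) = - 0; simp
  | some x y h => rw [Affine.Point.neg_some, ptY_some, ptY_some, W_negY]

theorem pt_eq {P : Pt} (h : P ≠ 0) : ptY P ^ 2 = ptX P ^ 3 - 2 * ptX P := by
  obtain ⟨x, y, hxy, rfl⟩ := exists_some h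
  exact nonsingular_iff.mp hxy

theorem ptX_eq_iff {P Q : Pt} (hP : P ≠ 0) (hQ : Q ≠ 0) : ptX P = ptX Q ↔ P = Q ∨ P = -Q := by
  constructor
  · intro h
    obtain ⟨x, y, hxy, rfl⟩ := exists_some hP
    obtain ⟨x', y', hxy', rfl⟩ := exists_some hQ
    simp only [ptX_some] at h
    subst h
    have h1 := nonsingular_iff.mp hxy
    have h2 := nonsingular_iff.mp hxy'
    have h3 : y ^ 2 = y' ^ 2 := by rw [h1, h2]
    rcases sq_eq_sq_iff_eq_or_eq_neg.mp h3 with h4 | h4
    · left; subst h4; rfl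
    · right
      rw [Affine.Point.neg_some]
      subst h4
      simp only [W_negY]
  · rintro (h | h)
    · rw [h]
    · rw [h, ptX_neg]

theorem pt_ext {P Q : Pt} (hP : P ≠ 0) (hQ : Q ≠ 0) (h : ptX P = ptX Q) (h' : ptY P = ptY Q) :
    P = Q := by
  obtain ⟨x, y, hxy, rfl⟩ := exists_some hP
  obtain ⟨x', y', hxy', rfl⟩ := exists_some hQ
  simp only [ptX_some, ptY_some] at h h'
  subst h h'
  rfl

/-- every affine rational solution is a point -/
theorem exists_pt {x y : ℚ} (h : y ^ 2 = x ^ 3 - 2 * x) :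
    ∃ P : Pt, P ≠ 0 ∧ ptX P = x ∧ ptY P = y :=
  ⟨Affine.Point.some x y (nonsingular_iff.mpr h), Affine.Point.some_ne_zero _, rfl, rfl⟩

theorem pt_add {P Q : Pt} (hP : P ≠ 0) (hQ : Q ≠ 0) (h : ptX P ≠ ptX Q) :
    let l := (ptY P - ptY Q) / (ptX P - ptX Q)
    P + Q ≠ 0 ∧ ptX (P + Q) = l ^ 2 - ptX P - ptX Q ∧
      ptY (P + Q) = - (l * (ptX (P + Q) - ptX P) + ptY P) := by
  obtain ⟨x, y, hxy, rfl⟩ := exists_some hP
  obtain ⟨x', y', hxy', rfl⟩ := exists_some hQ
  simp only [ptX_some, ptY_some] at h ⊢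
  rw [Affine.Point.add_of_X_ne h]
  refine ⟨Affine.Point.some_ne_zero _, ?_, ?_⟩
  · rw [ptX_some, W_addX, Affine.slope_of_X_ne h]
  · rw [ptX_some, ptY_some, W_addX, W_addY, Affine.slope_of_X_ne h]

theorem pt_dbl {P : Pt} (hP : P ≠ 0) (h : ptY P ≠ 0) :
    let l := (3 * ptX P ^ 2 - 2) / (2 * ptY P)
    P + P ≠ 0 ∧ ptX (P + P) = l ^ 2 - 2 * ptX P ∧
      ptX (P + P) = ((ptX P ^ 2 + 2) / (2 * ptY P)) ^ 2 ∧
      ptY (P + P) = - (l * (ptX (P + P) - ptX P) + ptY P) := by
  obtain ⟨x, y, hxy, rfl⟩ := exists_some hP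
  simp only [ptX_some, ptY_some] at h ⊢
  have hy : y ≠ (sw (-2 : ℚ) 0).toAffine.negY x y := by
    rw [W_negY]
    intro h1
    exact h (by linarith)
  have hsl : (sw (-2 : ℚ) 0).toAffine.slope x x y y = (3 * x ^ 2 - 2) / (2 * y) := by
    rw [Affine.slope_of_Y_ne rfl hy, W_negY]
    simp only [sw]
    congr 1 <;> ring
  rw [Affine.Point.add_self_of_Y_ne hy]
  have h1 : ptX (Affine.Point.some ((sw (-2 : ℚ) 0).toAffine.addX x x
      ((sw (-2 : ℚ) 0).toAffine.slope x x y y))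
      ((sw (-2 : ℚ) 0).toAffine.addY x x y ((sw (-2 : ℚ) 0).toAffine.slope x x y y))
      (Affine.nonsingular_add hxy hxy
        fun hxy => hy hxy.right)) = ((3 * x ^ 2 - 2) / (2 * y)) ^ 2 - 2 * x := by
    rw [ptX_some, W_addX, hsl]; ring
  refine ⟨Affine.Point.some_ne_zero _, h1, ?_, ?_⟩
  · rw [h1]
    have h2 := nonsingular_iff.mp hxy
    field_simp
    linear_combination (-8 * x) * h2
  · rw [h1, ptY_some, W_addY, hsl]; ring

/-- product formula -/
theorem pt_prod {P Q : Pt} (hP : P ≠ 0) (hQ : Q ≠ 0) (h : ptX P ≠ ptX Q) :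
    ptX (P + Q) * ptX (P - Q) = ((ptX P * ptX Q + 2) / (ptX P - ptX Q)) ^ 2 := by
  have hQ' : -Q ≠ 0 := neg_ne_zero.mpr hQ
  have h' : ptX P ≠ ptX (-Q) := by rwa [ptX_neg]
  have h1 := (pt_add hP hQ h).2.1
  have h2 := (pt_add hP hQ' h').2.1
  rw [ptX_neg, ptY_neg] at h2
  rw [sub_eq_add_neg, h1, h2]
  have e1 := pt_eq hP
  have e2 := pt_eq hQ
  generalize ptX P = x at *
  generalize ptX Q = x' at *
  generalize ptY P = y at *
  generalize ptY Q = y' at *
  have hd : x - x' ≠ 0 := sub_ne_zero.mpr h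
  field_simp
  linear_combination
    ((y ^ 2 - y' ^ 2 + (x ^ 3 - 2 * x) - (x' ^ 3 - 2 * x'))
      + 2 * (x - x') ^ 2 * (- x - x')) * e1
    + (-(y ^ 2 - y' ^ 2 + (x ^ 3 - 2 * x) - (x' ^ 3 - 2 * x'))
      + 2 * (x - x') ^ 2 * (- x - x')) * e2

/-- sum formula -/
theorem pt_sum {P Q : Pt} (hP : P ≠ 0) (hQ : Q ≠ 0) (h : ptX P ≠ ptX Q) :
    ptX (P + Q) + ptX (P - Q) =
      2 * (ptX P + ptX Q) * (ptX P * ptX Q - 2) / (ptX P - ptX Q) ^ 2 := by
  have hQ' : -Q ≠ 0 := neg_ne_zero.mpr hQ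
  have h' : ptX P ≠ ptX (-Q) := by rwa [ptX_neg]
  have h1 := (pt_add hP hQ h).2.1
  have h2 := (pt_add hP hQ' h').2.1
  rw [ptX_neg, ptY_neg] at h2
  rw [sub_eq_add_neg, h1, h2]
  have e1 := pt_eq hP
  have e2 := pt_eq hQ
  generalize ptX P = x at *
  generalize ptX Q = x' at *
  generalize ptY P = y at *
  generalize ptY Q = y' at *
  have hd : x - x' ≠ 0 := sub_ne_zero.mpr h
  field_simp
  linear_combination 2 * e1 + 2 * e2

/-- the points with `Y = 0` -/
theorem ptY_eq_zero_iff {P : Pt} (hP : P ≠ 0) : ptY P = 0 ↔ ptX P = 0 := by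
  have h := pt_eq hP
  constructor
  · intro h0
    rw [h0] at h
    have h1 : ptX P * (ptX P ^ 2 - 2) = 0 := by linarith
    rcases mul_eq_zero.mp h1 with hx | hx
    · exact hx
    · exact absurd (by linarith) (no_sqrt_two (ptX P))
  · intro h0
    rw [h0] at h
    have : ptY P ^ 2 = 0 := by linarith
    exact pow_eq_zero_iff (two_ne_zero) |>.mp this

/-- the point of order `2` -/
def T : Pt := Affine.Point.some 0 0 (nonsingular_iff.mpr (by norm_num))

lemma T_ne : T ≠ 0 := Affine.Point.some_ne_zero _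
@[simp] lemma ptX_T : ptX T = 0 := rfl
@[simp] lemma ptY_T : ptY T = 0 := rfl

lemma eq_T_iff {P : Pt} (hP : P ≠ 0) : P = T ↔ ptX P = 0 := by
  constructor
  · rintro rfl; rfl
  · intro h
    exact pt_ext hP T_ne h ((ptY_eq_zero_iff hP).mpr h)

lemma neg_T : -T = T := by
  rw [eq_T_iff (neg_ne_zero.mpr T_ne), ptX_neg, ptX_T]

lemma T_add_T : T + T = 0 := by
  have h := neg_T
  calc T + T = T + -T := by rw [h]
    _ = 0 := add_neg_cancel T

/-- points of order dividing two -/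
lemma two_tors {P : Pt} (h : P + P = 0) : P = 0 ∨ P = T := by
  by_cases hP : P = 0
  · exact Or.inl hP
  · right
    have h1 : P = -P := by rwa [← add_eq_zero_iff_eq_neg]
    have h2 : ptY P = 0 := by
      have : ptY P = - ptY P := by rw [← ptY_neg, ← h1]
      linarith
    rw [eq_T_iff hP]
    exact (ptY_eq_zero_iff hP).mp h2

/-- translation by `T` -/
lemma ptX_add_T {P : Pt} (hP : P ≠ 0) (h : P ≠ T) :
    P + T ≠ 0 ∧ ptX (P + T) = -2 / ptX P ∧ ptY (P + T) = 2 * ptY P / ptX P ^ 2 := by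
  have hx : ptX P ≠ 0 := fun h0 => h ((eq_T_iff hP).mpr h0)
  obtain ⟨h1, h2, h3⟩ := pt_add hP T_ne (by rwa [ptX_T])
  have e := pt_eq hP
  simp only [ptX_T, ptY_T, sub_zero] at h2 h3
  have h2' : ptX (P + T) = -2 / ptX P := by
    rw [h2]
    field_simp
    linear_combination e
  refine ⟨h1, h2', ?_⟩
  rw [h3, h2']
  field_simp
  ring

/-! ### collinear triples -/

/-- the points `(xᵢ, yᵢ)` are the intersection of the curve with a line (with multiplicities) -/
def Col (x1 y1 x2 y2 x3 y3 : ℚ) : Prop :=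
  ∃ l m : ℚ, y1 = l * x1 + m ∧ y2 = l * x2 + m ∧ y3 = l * x3 + m ∧ x1 + x2 + x3 = l ^ 2 ∧
    x1 * x2 + x1 * x3 + x2 * x3 = -2 - 2 * l * m ∧ x1 * x2 * x3 = m ^ 2

theorem col_iff {P Q R : Pt} (hP : P ≠ 0) (hQ : Q ≠ 0) (hR : R ≠ 0) :
    Col (ptX P) (ptY P) (ptX Q) (ptY Q) (ptX R) (ptY R) ↔ P + Q + R = 0 := by
  constructor
  · rintro ⟨l, m, h1, h2, h3, e1, e2, e3⟩
    by_cases hx : ptX P = ptX Q
    · -- a tangent
      have hy : ptY P = ptY Q := by rw [h1, h2, hx]
      have hPQ : P = Q := pt_ext hP hQ hx hy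
      subst hPQ
      have hl : 2 * l * ptY P = 3 * ptX P ^ 2 - 2 := by
        have e1' : ptX R = l ^ 2 - 2 * ptX P := by linarith
        rw [e1'] at e2
        rw [h1]
        linear_combination e2
      have hY : ptY P ≠ 0 := by
        intro h0
        rw [h0, mul_zero, (ptY_eq_zero_iff hP).mp h0] at hl
        norm_num at hl
      obtain ⟨k1, k2, -, k3⟩ := pt_dbl hP hY
      have hl' : (3 * ptX P ^ 2 - 2) / (2 * ptY P) = l := by
        rw [div_eq_iff (by positivity)]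
        linarith
      rw [hl'] at k2 k3
      have : P + P = -R := by
        apply pt_ext k1 (neg_ne_zero.mpr hR)
        · rw [ptX_neg, k2]; linarith
        · rw [ptY_neg, k3, k2, h3, h1]
          have e1' : ptX R = l ^ 2 - 2 * ptX P := by linarith
          rw [e1']
          ring
      rw [this, neg_add_cancel]
    · obtain ⟨k1, k2, k3⟩ := pt_add hP hQ hx
      have hsub : ptX P - ptX Q ≠ 0 := sub_ne_zero.mpr hx
      have hl' : (ptY P - ptY Q) / (ptX P - ptX Q) = l := by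
        rw [div_eq_iff hsub, h1, h2]
        ring
      rw [hl'] at k2 k3
      have e1' : ptX R = l ^ 2 - ptX P - ptX Q := by linarith
      have : P + Q = -R := by
        apply pt_ext k1 (neg_ne_zero.mpr hR)
        · rw [ptX_neg, k2]; linarith
        · rw [ptY_neg, k3, k2, h3, h1, e1']
          ring
      rw [this, neg_add_cancel]
  · intro h
    have hPQ : P + Q = -R := by rwa [add_eq_zero_iff_eq_neg] at h
    have hPQ0 : P + Q ≠ 0 := by rw [hPQ]; exact neg_ne_zero.mpr hR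
    have hXR : ptX R = ptX (P + Q) := by rw [hPQ, ptX_neg]
    have hYR : ptY R = - ptY (P + Q) := by rw [hPQ, ptY_neg, neg_neg]
    have eP := pt_eq hP
    have eQ := pt_eq hQ
    by_cases hx : ptX P = ptX Q
    · have hPQ' : P = Q := by
        rcases (ptX_eq_iff hP hQ).mp hx with h1 | h1
        · exact h1
        · exfalso; apply hPQ0; rw [h1]; exact neg_add_cancel _
      subst hPQ'
      have hY : ptY P ≠ 0 := by
        intro h0
        apply hPQ0
        have : P = T := (eq_T_iff hP).mpr ((ptY_eq_zero_iff hP).mp h0)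
        rw [this]; exact T_add_T
      obtain ⟨-, k2, -, k3⟩ := pt_dbl hP hY
      refine ⟨(3 * ptX P ^ 2 - 2) / (2 * ptY P),
        ptY P - (3 * ptX P ^ 2 - 2) / (2 * ptY P) * ptX P, by ring, by ring, ?_, ?_, ?_, ?_⟩
      · rw [hXR, hYR, k3]; ring
      · rw [hXR, k2]; ring
      · rw [hXR, k2]
        field_simp
        ring
      · rw [hXR, k2]
        field_simp
        linear_combination (-4 * ptY P ^ 2) * eP + 0 * eQ
    · obtain ⟨-, k2, k3⟩ := pt_add hP hQ hx
      have hsub : ptX P - ptX Q ≠ 0 := sub_ne_zero.mpr hx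
      set l := (ptY P - ptY Q) / (ptX P - ptX Q) with hl
      have hl' : l * (ptX P - ptX Q) = ptY P - ptY Q := by rw [hl]; field_simp
      refine ⟨l, ptY P - l * ptX P, by ring, by linear_combination hl', ?_, ?_, ?_, ?_⟩
      · rw [hXR, hYR, k3]; ring
      · rw [hXR, k2]; ring
      · have h3 : (ptX P - ptX Q) * (ptX P * ptX Q + ptX P * ptX R + ptX Q * ptX R
            - (-2 - 2 * l * (ptY P - l * ptX P))) = 0 := by
          have hQl : ptY Q = ptY P - l * (ptX P - ptX Q) := by rw [hl']; ring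
          have hR' : ptX R = l ^ 2 - ptX P - ptX Q := by rw [hXR, k2]
          rw [hQl] at eQ
          rw [hR']
          linear_combination eP - eQ
        have h4 := (mul_eq_zero.mp h3).resolve_left hsub
        linarith
      · have h3 : (ptX P - ptX Q) * (ptX P * ptX Q * ptX R
            - (ptY P - l * ptX P) ^ 2) = 0 := by
          have hQl : ptY Q = ptY P - l * (ptX P - ptX Q) := by rw [hl']; ring
          have hR' : ptX R = l ^ 2 - ptX P - ptX Q := by rw [hXR, k2]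
          rw [hQl] at eQ
          rw [hR']
          linear_combination ptX Q * eP - ptX P * eQ
        have h4 := (mul_eq_zero.mp h3).resolve_left hsub
        linarith

end Pool.Agent.TH255.HC
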