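import Pool.Agent.TH255.HC.Formal

/-!
# The descent on `y² = x³ - 2 x`
-/

set_option autoImplicit false

open WeierstrassCurve

namespace Pool.Agent.TH255.HC

open Pool.Agent.TH942
open Pool.Agent.H528R2 (Vge vge_int vge_nat vge_ofNat vge_one val_add val_sub val_mul val_div
  val_inv val_pow ne_zero_of_val)

lemma sq_or_two_sq_nat {n : ℕ} (hn : 0 < n)
    (h : ∀ p : ℕ, p.Prime → p ≠ 2 → Even (padicValNat p n)) :
    ∃ k : ℕ, 0 < k ∧ (n = k ^ 2 ∨ n = 2 * k ^ 2) := by
  obtain ⟨a, b, ha, hb, hab, hsq⟩ := Nat.sq_mul_squarefree_of_pos hn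
  have ha2 : ∀ p : ℕ, p.Prime → p ∣ a → p = 2 := by
    intro p hp hpa
    by_contra h2
    have h3 := h p hp h2
    have := Fact.mk hp
    have h5 : padicValNat p a ≤ 1 := by
      rw [← Nat.factorization_def a hp]
      exact hsq.natFactorization_le_one p
    have h6 : 1 ≤ padicValNat p a := one_le_padicValNat_of_dvd ha.ne' hpa
    rw [← hab, padicValNat.mul (by positivity) ha.ne', padicValNat.pow] at h3
    rw [Nat.even_iff] at h3
    omega
  have ha3 : a = 1 ∨ a = 2 := by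
    have h1 : a.primeFactors ⊆ {2} := by
      intro p hp
      rw [Finset.mem_singleton]
      exact ha2 p (Nat.prime_of_mem_primeFactors hp) (Nat.dvd_of_mem_primeFactors hp)
    have h2 := Nat.prod_primeFactors_of_squarefree hsq
    rcases Finset.subset_singleton_iff.mp h1 with h3 | h3
    · left; rw [← h2, h3, Finset.prod_empty]
    · right; rw [← h2, h3, Finset.prod_singleton]
  refine ⟨b, hb, ?_⟩
  rcases ha3 with rfl | rfl
  · left; rw [← hab, mul_one]
  · right; rw [← hab, mul_comm]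

lemma sqcls {x : ℚ} (hx : 0 < x) (h : ∀ p : ℕ, p.Prime → p ≠ 2 → Even (padicValRat p x)) :
    ∃ r : ℚ, 0 < r ∧ (x = r ^ 2 ∨ x = 2 * r ^ 2) := by
  have hnum : 0 < x.num := Rat.num_pos.mpr hx
  have hN : 0 < x.num.natAbs := Int.natAbs_pos.mpr hnum.ne'
  have hd : 0 < x.den := x.den_pos
  obtain ⟨k, hk, hk2⟩ := sq_or_two_sq_nat (n := x.num.natAbs * x.den) (by positivity) (by
    intro p hp h2
    have := Fact.mk hp
    have h3 := h p hp h2
    rw [padicValRat_def, padicValInt] at h3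
    rw [padicValNat.mul hN.ne' hd.ne']
    rw [Int.even_iff] at h3
    rw [Nat.even_iff]
    omega)
  have hd0 : (x.den : ℚ) ≠ 0 := by exact_mod_cast hd.ne'
  have hx2 : x * (x.den : ℚ) ^ 2 = ((x.num.natAbs * x.den : ℕ) : ℚ) := by
    have h1 : ((x.num.natAbs : ℕ) : ℚ) = x.num := by
      rw [Nat.cast_natAbs, abs_of_pos hnum]
    push_cast
    rw [h1, pow_two, ← mul_assoc, Rat.mul_den_eq_num]
  refine ⟨k / x.den, by positivity, ?_⟩
  rcases hk2 with hk2 | hk2
  · left
    rw [div_pow, eq_div_iff (pow_ne_zero 2 hd0), hx2, hk2]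
    push_cast
    ring
  · right
    rw [div_pow, mul_div_assoc', eq_div_iff (pow_ne_zero 2 hd0), hx2, hk2]
    push_cast
    ring

lemma val_two {p : ℕ} (hp : p.Prime) (h2 : p ≠ 2) : padicValRat p (2 : ℚ) = 0 := by
  have := Fact.mk hp
  have h : padicValRat p ((2 : ℕ) : ℚ) = (padicValNat p 2 : ℤ) := padicValRat.of_nat
  have h3 : padicValNat p 2 = 0 := by
    apply padicValNat.eq_zero_of_not_dvd
    intro hd
    exact h2 ((Nat.prime_dvd_prime_iff_eq hp Nat.prime_two).mp hd)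
  rw [h3] at h
  exact_mod_cast h

lemma even_val {P : Pt} (hP : P ≠ 0) (hX : ptX P ≠ 0) {p : ℕ} (hp : p.Prime) (h2 : p ≠ 2) :
    Even (padicValRat p (ptX P)) := by
  rcases lt_trichotomy (padicValRat p (ptX P)) 0 with h | h | h
  · obtain ⟨d, -, hd, -⟩ := pole_val hp h
    rw [hd]
    exact ⟨-d, by ring⟩
  · rw [h]; exact ⟨0, rfl⟩
  · have hv2 := val_two hp h2
    obtain ⟨h3, h4⟩ := val_sub hp (x := 2) (y := ptX P ^ 2) two_ne_zero (by
      rw [hv2]
      right
      rw [val_pow hp]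
      push_cast
      omega)
    have e := pt_eq hP
    have hY : ptY P ≠ 0 := fun h0 => hX ((ptY_eq_zero_iff hP).mp h0)
    have h5 : ptY P ^ 2 = -(ptX P * (2 - ptX P ^ 2)) := by rw [e]; ring
    have h6 : 2 * padicValRat p (ptY P) = padicValRat p (ptX P) := by
      have := congrArg (padicValRat p) h5
      rw [padicValRat.neg, val_mul hp hX h3, h4, hv2, val_pow hp] at this
      push_cast at this
      omega
    rw [← h6]
    exact ⟨padicValRat p (ptY P), by ring⟩

/-- the four classes of `x(P)` -/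
lemma four_cls {P : Pt} (hP : P ≠ 0) (hX : ptX P ≠ 0) :
    ∃ r : ℚ, r ≠ 0 ∧ (ptX P = r ^ 2 ∨ ptX P = 2 * r ^ 2 ∨ ptX P = -r ^ 2 ∨
      ptX P = -(2 * r ^ 2)) := by
  rcases lt_or_gt_of_ne hX with h | h
  · obtain ⟨r, hr, h1⟩ := sqcls (x := -ptX P) (by linarith) (by
      intro p hp h2
      rw [padicValRat.neg]
      exact even_val hP hX hp h2)
    refine ⟨r, hr.ne', ?_⟩
    rcases h1 with h1 | h1
    · right; right; left; linarith
    · right; right; right; linarith
  · obtain ⟨r, hr, h1⟩ := sqcls h (fun p hp h2 => even_val hP hX hp h2)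
    refine ⟨r, hr.ne', ?_⟩
    rcases h1 with h1 | h1
    · left; exact h1
    · right; left; exact h1

/-- the points whose first coordinate is a square are doubles -/
lemma half {P : Pt} (hP : P ≠ 0) {r : ℚ} (hr : r ≠ 0) (h : ptX P = r ^ 2) :
    ∃ R : Pt, P = R + R := by
  have e := pt_eq hP
  set t := ptY P / r with ht
  have hY : ptY P = r * t := by rw [ht]; field_simp
  have ht2 : t ^ 2 = r ^ 4 - 2 := by
    rw [hY, h] at e
    have h1 : r ^ 2 * (t ^ 2 - (r ^ 4 - 2)) = 0 := by linear_combination e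
    rcases mul_eq_zero.mp h1 with h2 | h2
    · exact absurd h2 (pow_ne_zero 2 hr)
    · linarith
  -- one of `2 (r² ± t)` is a square
  obtain ⟨w, hw, hw2⟩ : ∃ w : ℚ, w ≠ 0 ∧ w ^ 4 - 4 * w ^ 2 * r ^ 2 + 8 = 0 := by
    set X := 2 * (r ^ 2 + t) with hX
    have hX2 : X ^ 2 - 4 * r ^ 2 * X + 8 = 0 := by
      rw [hX]; linear_combination 4 * ht2
    have hX0 : 0 < X := by
      have h1 : 0 < 4 * r ^ 2 * X := by nlinarith [sq_nonneg X]
      have h2 : 0 < 4 * r ^ 2 := by positivity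
      exact (mul_pos_iff_of_pos_left h2).mp h1
    obtain ⟨w, hw, h3⟩ := sqcls hX0 (by
      intro p hp h2
      have hv2 := val_two hp h2
      have hv8 : padicValRat p (8 : ℚ) = 0 := by
        have : (8 : ℚ) = 2 ^ 3 := by norm_num
        rw [this, val_pow hp, hv2, mul_zero]
      have hv4 : padicValRat p (4 : ℚ) = 0 := by
        have : (4 : ℚ) = 2 ^ 2 := by norm_num
        rw [this, val_pow hp, hv2, mul_zero]
      have e1 : 4 * r ^ 2 * X = X ^ 2 + 8 := by linarith
      have e2 := congrArg (padicValRat p) e1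
      rw [val_mul hp (by positivity) hX0.ne', val_mul hp (by norm_num) (by positivity), hv4,
        val_pow hp] at e2
      push_cast at e2
      rcases lt_trichotomy (padicValRat p X) 0 with h4 | h4 | h4
      · obtain ⟨-, h5⟩ := val_add hp (x := X ^ 2) (y := 8) (by positivity) (by
          right; rw [hv8, val_pow hp]; push_cast; omega)
        rw [h5, val_pow hp] at e2
        push_cast at e2
        exact ⟨padicValRat p r, by omega⟩
      · rw [h4]; exact ⟨0, rfl⟩
      · obtain ⟨-, h5⟩ := val_add hp (x := 8) (y := X ^ 2) (by norm_num) (by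
          right; rw [hv8, val_pow hp]; push_cast; omega)
        rw [add_comm] at h5
        rw [h5, hv8] at e2
        exact ⟨-padicValRat p r, by omega⟩)
    rcases h3 with h3 | h3
    · refine ⟨w, hw.ne', ?_⟩
      rw [h3] at hX2
      linear_combination hX2
    · refine ⟨2 / w, by positivity, ?_⟩
      rw [h3] at hX2
      have hw0 := hw.ne'
      field_simp
      linear_combination 2 * hX2
  set x0 := w * (w + 2 * r) / 2 with hx0
  have k1 : x0 * (x0 - w ^ 2) = 2 := by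
    rw [hx0]; linear_combination (-1 / 4) * hw2
  have hx00 : x0 ≠ 0 := by
    intro h0; rw [h0, zero_mul] at k1; norm_num at k1
  obtain ⟨R, hR, hRX, hRY⟩ := exists_pt (x := x0) (y := w * x0) (by linear_combination (-x0) * k1)
  have hRY0 : ptY R ≠ 0 := by rw [hRY]; exact mul_ne_zero hw hx00
  obtain ⟨l1, -, l2, -⟩ := pt_dbl hR hRY0
  have l3 : ptX (R + R) = ptX P := by
    rw [l2, hRX, hRY, h]
    have l4 : x0 ^ 2 + 2 = x0 * (2 * w * r) := by
      have : 2 * x0 - w ^ 2 = 2 * w * r := by rw [hx0]; ring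
      rw [← this]; linear_combination (-1) * k1
    rw [l4]
    field_simp
  rcases (ptX_eq_iff l1 hP).mp l3 with l5 | l5
  · exact ⟨R, l5.symm⟩
  · refine ⟨-R, ?_⟩
    rw [← neg_add, l5, neg_neg]

/-- product of the first coordinates of a collinear triple -/
lemma col_prod {P Q R : Pt} (hP : P ≠ 0) (hQ : Q ≠ 0) (hR : R ≠ 0) (h : P + Q + R = 0) :
    ∃ m : ℚ, ptX P * ptX Q * ptX R = m ^ 2 := by
  obtain ⟨l, m, -, -, -, -, -, h3⟩ := (col_iff hP hQ hR).mpr h
  exact ⟨m, h3⟩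

/-- doubles -/
def IsE (Q : Pt) : Prop := ∃ R : Pt, Q = R + R

/-- the points whose first coordinate is minus a nonzero square -/
def IsO (Q : Pt) : Prop := Q ≠ 0 ∧ ∃ r : ℚ, r ≠ 0 ∧ ptX Q = -r ^ 2

lemma isE_iff (Q : Pt) : IsE Q ↔ Q = 0 ∨ ∃ r : ℚ, r ≠ 0 ∧ ptX Q = r ^ 2 := by
  constructor
  · rintro ⟨R, rfl⟩
    by_cases hR : R = 0
    · left; rw [hR, add_zero]
    by_cases hT : R = T
    · left; rw [hT, T_add_T]
    right
    have hY : ptY R ≠ 0 := fun h0 => hT ((eq_T_iff hR).mpr ((ptY_eq_zero_iff hR).mp h0))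
    obtain ⟨-, -, h, -⟩ := pt_dbl hR hY
    exact ⟨_, div_ne_zero (by positivity) (by positivity), h⟩
  · rintro (rfl | ⟨r, hr, h⟩)
    · exact ⟨0, by rw [add_zero]⟩
    · have hQ : Q ≠ 0 := by
        rintro rfl
        rw [ptX_zero] at h
        exact hr (pow_eq_zero_iff two_ne_zero |>.mp h.symm)
      exact half hQ hr h

/-- the point `(-1, 1)` -/
def PP : Pt := Affine.Point.some (-1) 1 (nonsingular_iff.mpr (by norm_num))

lemma PP_ne : PP ≠ 0 := Affine.Point.some_ne_zero _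
@[simp] lemma ptX_PP : ptX PP = -1 := rfl
@[simp] lemma ptY_PP : ptY PP = 1 := rfl

lemma isO_PP : IsO PP := ⟨PP_ne, 1, one_ne_zero, by simp⟩

/-- `T - PP` is not a double -/
lemma not_E_T_sub : ¬ IsE (-PP + T) := by
  intro h
  have h1 : -PP ≠ 0 := neg_ne_zero.mpr PP_ne
  have h2 : -PP ≠ T := by
    intro h0
    have := congrArg ptX h0
    rw [ptX_neg] at this
    norm_num at this
  obtain ⟨h3, h4, -⟩ := ptX_add_T h1 h2
  rcases (isE_iff _).mp h with h5 | ⟨r, -, h5⟩
  · exact h3 h5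
  · rw [h4, ptX_neg, ptX_PP] at h5
    apply no_sqrt_two r
    rw [← h5]; norm_num

lemma isO_iff (Q : Pt) : IsO Q ↔ ∃ R : Pt, Q = PP + (R + R) := by
  constructor
  · rintro ⟨hQ, r, hr, h⟩
    by_cases hQP : Q = PP
    · exact ⟨0, by rw [hQP, add_zero, add_zero]⟩
    have hR : Q - PP ≠ 0 := sub_ne_zero.mpr hQP
    have hnR : -(Q - PP) ≠ 0 := neg_ne_zero.mpr hR
    obtain ⟨m, hm⟩ := col_prod hQ (neg_ne_zero.mpr PP_ne) hnR (by abel)
    rw [ptX_neg, ptX_neg, ptX_PP, h] at hm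
    have hm0 : m ≠ 0 := by
      rintro rfl
      have h1 : ptX (Q - PP) = 0 := by
        have : r ^ 2 * ptX (Q - PP) = 0 := by linear_combination hm
        rcases mul_eq_zero.mp this with h2 | h2
        · exact absurd h2 (pow_ne_zero 2 hr)
        · exact h2
      have h2 : Q - PP = T := (eq_T_iff hR).mpr h1
      have h3 : Q = PP + T := by rw [← h2]; abel
      have hPT : PP ≠ T := by
        intro h0
        have := congrArg ptX h0
        norm_num at this
      obtain ⟨-, h4, -⟩ := ptX_add_T PP_ne hPT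
      rw [← h3, h, ptX_PP] at h4
      have : 0 < r ^ 2 := by positivity
      norm_num at h4
      linarith
    have hE : IsE (Q - PP) := by
      rw [isE_iff]
      right
      refine ⟨m / r, div_ne_zero hm0 hr, ?_⟩
      field_simp
      linear_combination hm
    obtain ⟨R, hR'⟩ := hE
    exact ⟨R, by rw [← hR']; abel⟩
  · rintro ⟨R, rfl⟩
    by_cases hR0 : R + R = 0
    · rw [hR0, add_zero]; exact isO_PP
    have hE : IsE (R + R) := ⟨R, rfl⟩
    obtain ⟨ρ, hρ, h1⟩ := ((isE_iff _).mp hE).resolve_left hR0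
    have hQ : PP + (R + R) ≠ 0 := by
      intro h0
      have h2 : PP = -(R + R) := by rwa [add_eq_zero_iff_eq_neg] at h0
      have h3 := congrArg ptX h2
      rw [ptX_neg, h1, ptX_PP] at h3
      have : 0 < ρ ^ 2 := by positivity
      linarith
    refine ⟨hQ, ?_⟩
    obtain ⟨m, hm⟩ := col_prod PP_ne hR0 (neg_ne_zero.mpr hQ) (by abel)
    rw [ptX_neg, ptX_PP, h1] at hm
    have hm0 : m ≠ 0 := by
      rintro rfl
      have h2 : ptX (PP + (R + R)) = 0 := by
        have : ρ ^ 2 * ptX (PP + (R + R)) = 0 := by linear_combination -hm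
        rcases mul_eq_zero.mp this with h2 | h2
        · exact absurd h2 (pow_ne_zero 2 hρ)
        · exact h2
      have h3 : PP + (R + R) = T := (eq_T_iff hQ).mpr h2
      apply not_E_T_sub
      exact ⟨R, by rw [← h3]; abel⟩
    refine ⟨m / ρ, div_ne_zero hm0 hρ, ?_⟩
    field_simp
    linear_combination -hm

/-- every point is, up to translation by `T`, a double or in the odd class -/
lemma cls (Q : Pt) : (IsE Q ∨ IsO Q) ∨ (IsE (Q + T) ∨ IsO (Q + T)) := by
  by_cases hQ : Q = 0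
  · left; left; exact ⟨0, by rw [hQ, add_zero]⟩
  by_cases hT : Q = T
  · right; left; exact ⟨0, by rw [hT, T_add_T, add_zero]⟩
  have hX : ptX Q ≠ 0 := fun h0 => hT ((eq_T_iff hQ).mpr h0)
  obtain ⟨h1, h2, -⟩ := ptX_add_T hQ hT
  obtain ⟨r, hr, h | h | h | h⟩ := four_cls hQ hX
  · left; left; exact (isE_iff Q).mpr (Or.inr ⟨r, hr, h⟩)
  · right; right
    refine ⟨h1, 1 / r, one_div_ne_zero hr, ?_⟩
    rw [h2, h]
    field_simp
  · left; right
    exact ⟨hQ, r, hr, h⟩
  · right; left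
    refine (isE_iff _).mpr (Or.inr ⟨1 / r, one_div_ne_zero hr, ?_⟩)
    rw [h2, h]
    field_simp

lemma not_E_of_O {Q : Pt} (h : IsO Q) : ¬ IsE Q := by
  obtain ⟨hQ, r, hr, h1⟩ := h
  intro h2
  obtain ⟨s, hs, h3⟩ := ((isE_iff Q).mp h2).resolve_left hQ
  have : 0 < r ^ 2 := by positivity
  have : 0 < s ^ 2 := by positivity
  linarith

lemma not_E_T : ¬ IsE T := by
  intro h
  obtain ⟨r, hr, h1⟩ := ((isE_iff T).mp h).resolve_left T_ne
  rw [ptX_T] at h1
  exact hr (pow_eq_zero_iff two_ne_zero |>.mp h1.symm)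

lemma not_O_T : ¬ IsO T := by
  rintro ⟨-, r, hr, h1⟩
  rw [ptX_T] at h1
  exact hr (pow_eq_zero_iff two_ne_zero |>.mp (by linarith))

/-- doubles have a pole at `2` -/
lemma pole_two {Q : Pt} (h : Q + Q ≠ 0) : padicValRat 2 (ptX (Q + Q)) < 0 := by
  have h2 : Nat.Prime 2 := Nat.prime_two
  have hQ : Q ≠ 0 := by rintro rfl; exact h (add_zero 0)
  have hT : Q ≠ T := by rintro rfl; exact h T_add_T
  have hX : ptX Q ≠ 0 := fun h0 => hT ((eq_T_iff hQ).mpr h0)
  have hY : ptY Q ≠ 0 := fun h0 => hX ((ptY_eq_zero_iff hQ).mp h0)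
  obtain ⟨-, -, h3, -⟩ := pt_dbl hQ hY
  have e := pt_eq hQ
  have hv2 : padicValRat 2 (2 : ℚ) = 1 := by
    have := padicValRat.self (p := 2) (by norm_num)
    exact_mod_cast this
  have e1 : ptY Q ^ 2 = ptX Q * (ptX Q ^ 2 - 2) := by rw [e]; ring
  have hX2 : ptX Q ^ 2 - 2 ≠ 0 := fun h0 => no_sqrt_two (ptX Q) (by linarith)
  have e2 := congrArg (padicValRat 2) e1
  rw [val_mul h2 hX hX2, val_pow h2] at e2
  have hpos : ptX Q ^ 2 + 2 ≠ 0 := by positivity
  rw [h3, val_pow h2, val_div h2 hpos (by positivity), val_mul h2 two_ne_zero hY, hv2]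
  push_cast at e2 ⊢
  rcases lt_or_ge 0 (padicValRat 2 (ptX Q)) with h4 | h4
  · -- `v > 0`
    obtain ⟨-, h5⟩ := val_add h2 (x := 2) (y := ptX Q ^ 2) two_ne_zero (by
      rw [hv2]; right; rw [val_pow h2]; push_cast; omega)
    obtain ⟨-, h6⟩ := val_sub h2 (x := 2) (y := ptX Q ^ 2) two_ne_zero (by
      rw [hv2]; right; rw [val_pow h2]; push_cast; omega)
    have h7 : padicValRat 2 (ptX Q ^ 2 - 2) = 1 := by
      rw [← padicValRat.neg, neg_sub, h6, hv2]
    rw [add_comm] at h5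
    rw [h5, hv2]
    omega
  · obtain ⟨-, h5⟩ := val_add h2 (x := ptX Q ^ 2) (y := 2) (pow_ne_zero 2 hX) (by
      right; rw [hv2, val_pow h2]; push_cast; omega)
    obtain ⟨-, h6⟩ := val_sub h2 (x := ptX Q ^ 2) (y := 2) (pow_ne_zero 2 hX) (by
      right; rw [hv2, val_pow h2]; push_cast; omega)
    rw [h5, val_pow h2]
    rw [h6, val_pow h2] at e2
    push_cast at e2 ⊢
    omega

/-- torsion -/
lemma tors {Q : Pt} {n : ℕ} (hn : n ≠ 0) (h : n • Q = 0) : Q = 0 ∨ Q = T := by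
  apply two_tors
  by_contra h0
  have h1 := (pole_smul Nat.prime_two (pole_two h0) (k := (n : ℤ)) (by exact_mod_cast hn)).1
  apply h1
  rw [natCast_zsmul, nsmul_add, h, add_zero]

/-- the subgroup generated by the doubles and `PP` -/
def A0 : AddSubgroup Pt where
  carrier := {Q | IsE Q ∨ IsO Q}
  zero_mem' := Or.inl ⟨0, by rw [add_zero]⟩
  add_mem' := by
    rintro P Q (⟨R, rfl⟩ | hP) (⟨S, rfl⟩ | hQ)
    · left; exact ⟨R + S, by abel⟩
    · right
      obtain ⟨S, rfl⟩ := (isO_iff Q).mp hQ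
      rw [isO_iff]
      exact ⟨R + S, by abel⟩
    · right
      obtain ⟨R, rfl⟩ := (isO_iff P).mp hP
      rw [isO_iff]
      exact ⟨R + S, by abel⟩
    · left
      obtain ⟨R, rfl⟩ := (isO_iff P).mp hP
      obtain ⟨S, rfl⟩ := (isO_iff Q).mp hQ
      exact ⟨PP + (R + S), by abel⟩
  neg_mem' := by
    rintro P (⟨R, rfl⟩ | ⟨h1, r, hr, h2⟩)
    · left; exact ⟨-R, by abel⟩
    · right; exact ⟨neg_ne_zero.mpr h1, r, hr, by rw [ptX_neg, h2]⟩

lemma mem_A0 (Q : Pt) : Q ∈ A0 ↔ IsE Q ∨ IsO Q := Iff.rfl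

lemma T_notMem : T ∉ A0 := by
  rintro (h | h)
  · exact not_E_T h
  · exact not_O_T h

/-- doubles are doubles of elements of `A0` -/
lemma E_A0 {Q : Pt} (h : IsE Q) : ∃ R ∈ A0, Q = R + R := by
  obtain ⟨R, rfl⟩ := h
  rcases cls R with h1 | h1
  · exact ⟨R, h1, rfl⟩
  · refine ⟨R + T, h1, ?_⟩
    have := T_add_T
    calc R + R = R + R + 0 := by rw [add_zero]
      _ = R + R + (T + T) := by rw [this]
      _ = _ := by abel

lemma A0_tors {Q : Pt} (hQ : Q ∈ A0) {n : ℕ} (hn : n ≠ 0) (h : n • Q = 0) : Q = 0 := by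
  rcases tors hn h with h1 | h1
  · exact h1
  · rw [h1] at hQ; exact absurd hQ T_notMem

end Pool.Agent.TH255.HC
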