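import Pool.Agent.TH255.HC.Gadget

/-!
# Exact multiplication from approximate comparisons
-/

set_option autoImplicit false

namespace Pool.Agent.TH255.HC

variable {e : ℝ} {ρ : ℤ → ℤ → ℤ → ℤ → Prop}

/-- approximate product -/
def Pr (ρ : ℤ → ℤ → ℤ → ℤ → Prop) (x y z : ℤ) : Prop :=
  ρ (x + y) (2 * z + x - 1) (x - y - 1) (2 * z + x) ∧
    ρ (x - y - 1) (2 * z + x) (x + y) (2 * z + x - 1)

lemma S2_diff (x y z : ℤ) :
    S2 (x + y) (2 * z + x - 1) - S2 (x - y - 1) (2 * z + x) = 16 * (x * y - z) := by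
  simp only [S2]; ring

lemma Pr.exact (h : Cmp e ρ) {x y z : ℤ} (hz : x * y = z) : Pr ρ x y z := by
  have h1 := S2_diff x y z
  rw [hz, sub_self, mul_zero] at h1
  exact ⟨h.compl _ _ _ _ (by linarith), h.compl _ _ _ _ (by linarith)⟩

/-- size of the arguments -/
noncomputable def nrm (x y z : ℤ) : ℝ := |(x : ℝ)| + |(y : ℝ)| + |(z : ℝ)| + 1

lemma nrm_ge (x y z : ℤ) : 1 ≤ nrm x y z := by
  unfold nrm
  have h1 := abs_nonneg (x : ℝ)
  have h2 := abs_nonneg (y : ℝ)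
  have h3 := abs_nonneg (z : ℝ)
  linarith

lemma sq_add_sq_le {a b N : ℝ} (h : |a| + |b| ≤ N) : a ^ 2 + b ^ 2 ≤ N ^ 2 := by
  have h1 := abs_nonneg a
  have h2 := abs_nonneg b
  have h3 : a ^ 2 = |a| ^ 2 := (sq_abs a).symm
  have h4 : b ^ 2 = |b| ^ 2 := (sq_abs b).symm
  rw [h3, h4]
  nlinarith [mul_nonneg h1 h2]

lemma Pr.sound (he0 : 0 ≤ e) (he : e < 1 / 2) (h : Cmp e ρ) {x y z : ℤ} (hp : Pr ρ x y z) :
    |(x : ℝ) * y - z| ≤ (1 / 4) * nrm x y z ^ (2 * e) := by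
  set N := nrm x y z with hN
  have hN1 : 1 ≤ N := nrm_ge x y z
  have hx := abs_nonneg (x : ℝ)
  have hy := abs_nonneg (y : ℝ)
  have hz := abs_nonneg (z : ℝ)
  have hx1 := neg_abs_le (x : ℝ)
  have hx2 := le_abs_self (x : ℝ)
  have hy1 := neg_abs_le (y : ℝ)
  have hy2 := le_abs_self (y : ℝ)
  have hz1 := neg_abs_le (z : ℝ)
  have hz2 := le_abs_self (z : ℝ)
  have hNe : N = |(x : ℝ)| + |(y : ℝ)| + |(z : ℝ)| + 1 := rfl
  have b1 : ((S2 (x + y) (2 * z + x - 1) : ℤ) : ℝ) ≤ (4 * N) ^ 2 := by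
    have : ((S2 (x + y) (2 * z + x - 1) : ℤ) : ℝ) =
        (2 * ((x : ℝ) + y) + 1) ^ 2 + (2 * (2 * z + x - 1) + 1) ^ 2 := by
      simp only [S2]; push_cast; ring
    rw [this]
    apply sq_add_sq_le
    have h1 : |2 * ((x : ℝ) + y) + 1| ≤ 2 * |(x : ℝ)| + 2 * |(y : ℝ)| + 1 :=
      abs_le.mpr ⟨by linarith, by linarith⟩
    have h2 : |2 * (2 * (z : ℝ) + x - 1) + 1| ≤ 4 * |(z : ℝ)| + 2 * |(x : ℝ)| + 1 :=
      abs_le.mpr ⟨by linarith, by linarith⟩
    linarith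
  have b2 : ((S2 (x - y - 1) (2 * z + x) : ℤ) : ℝ) ≤ (4 * N) ^ 2 := by
    have : ((S2 (x - y - 1) (2 * z + x) : ℤ) : ℝ) =
        (2 * ((x : ℝ) - y - 1) + 1) ^ 2 + (2 * (2 * z + x) + 1) ^ 2 := by
      simp only [S2]; push_cast; ring
    rw [this]
    apply sq_add_sq_le
    have h1 : |2 * ((x : ℝ) - y - 1) + 1| ≤ 2 * |(x : ℝ)| + 2 * |(y : ℝ)| + 1 :=
      abs_le.mpr ⟨by linarith, by linarith⟩
    have h2 : |2 * (2 * (z : ℝ) + x) + 1| ≤ 4 * |(z : ℝ)| + 2 * |(x : ℝ)| + 1 :=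
      abs_le.mpr ⟨by linarith, by linarith⟩
    linarith
  have key : ∀ T : ℝ, 0 ≤ T → T ≤ (4 * N) ^ 2 → T ^ e ≤ 4 * N ^ (2 * e) := by
    intro T hT0 hT
    calc T ^ e ≤ ((4 * N) ^ 2) ^ e := Real.rpow_le_rpow hT0 hT he0
      _ = (4 * N) ^ (2 * e) := by
        rw [← Real.rpow_natCast (4 * N) 2, ← Real.rpow_mul (by linarith)]
        norm_num
      _ = 4 ^ (2 * e) * N ^ (2 * e) := Real.mul_rpow (by norm_num) (by linarith)
      _ ≤ 4 * N ^ (2 * e) := by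
        apply mul_le_mul_of_nonneg_right _ (Real.rpow_nonneg (by linarith) _)
        have := Real.rpow_le_rpow_of_exponent_le (show (1 : ℝ) ≤ 4 by norm_num)
          (show 2 * e ≤ 1 by linarith)
        rwa [Real.rpow_one] at this
  have s1 := h.sound _ _ _ _ hp.1
  have s2 := h.sound _ _ _ _ hp.2
  have p1 : (0 : ℝ) ≤ ((S2 (x + y) (2 * z + x - 1) : ℤ) : ℝ) := by
    have := S2_ge (x + y) (2 * z + x - 1)
    exact_mod_cast (by linarith : (0 : ℤ) ≤ S2 (x + y) (2 * z + x - 1))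
  have p2 : (0 : ℝ) ≤ ((S2 (x - y - 1) (2 * z + x) : ℤ) : ℝ) := by
    have := S2_ge (x - y - 1) (2 * z + x)
    exact_mod_cast (by linarith : (0 : ℤ) ≤ S2 (x - y - 1) (2 * z + x))
  have k1 := key _ p1 b1
  have k2 := key _ p2 b2
  have hd : ((S2 (x + y) (2 * z + x - 1) : ℤ) : ℝ) - ((S2 (x - y - 1) (2 * z + x) : ℤ) : ℝ) =
      16 * ((x : ℝ) * y - z) := by
    have := S2_diff x y z
    exact_mod_cast this
  rw [abs_le]
  constructor <;> linarith

/-- a weaker bound -/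
lemma Pr.sound1 (he0 : 0 ≤ e) (he : e < 1 / 2) (h : Cmp e ρ) {x y z : ℤ} (hp : Pr ρ x y z) :
    |(x : ℝ) * y - z| ≤ (1 / 4) * nrm x y z := by
  refine (Pr.sound he0 he h hp).trans ?_
  apply mul_le_mul_of_nonneg_left _ (by norm_num)
  have := Real.rpow_le_rpow_of_exponent_le (nrm_ge x y z) (show 2 * e ≤ 1 by linarith)
  rwa [Real.rpow_one] at this

/-- nonnegativity -/
lemma nn_iff (he0 : 0 ≤ e) (he : e < 1 / 2) (h : Cmp e ρ) (n : ℤ) : ρ (n - 1) 0 n 0 ↔ 0 ≤ n := by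
  constructor
  · intro hp
    by_contra hn
    push Not at hn
    have h1 := h.sound _ _ _ _ hp
    set m : ℝ := -(n : ℝ) with hm
    have hm1 : 1 ≤ m := by
      have : (n : ℝ) ≤ -1 := by exact_mod_cast (by omega : n ≤ -1)
      rw [hm]; linarith
    have e1 : ((S2 (n - 1) 0 : ℤ) : ℝ) = (2 * m + 1) ^ 2 + 1 := by
      simp only [S2]; push_cast; rw [hm]; ring
    have e2 : ((S2 n 0 : ℤ) : ℝ) = (2 * m - 1) ^ 2 + 1 := by
      simp only [S2]; push_cast; rw [hm]; ring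
    rw [e1, e2] at h1
    have h2 : ((2 * m - 1) ^ 2 + 1) ^ e ≤ 2 * m := by
      calc ((2 * m - 1) ^ 2 + 1) ^ e ≤ ((2 * m) ^ 2) ^ e := by
            apply Real.rpow_le_rpow (by positivity) _ he0
            nlinarith
        _ = (2 * m) ^ (2 * e) := by
            rw [← Real.rpow_natCast (2 * m) 2, ← Real.rpow_mul (by linarith)]
            norm_num
        _ ≤ 2 * m := by
            have := Real.rpow_le_rpow_of_exponent_le (show (1 : ℝ) ≤ 2 * m by linarith)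
              (show 2 * e ≤ 1 by linarith)
            rwa [Real.rpow_one] at this
    nlinarith
  · intro hn
    apply h.compl
    simp only [S2]
    nlinarith

/-- growth of a chain of approximate squares -/
lemma chain (he0 : 0 ≤ e) (he : e < 1 / 2) (h : Cmp e ρ) {k : ℕ} {V : ℕ → ℤ} (h0 : 2 ≤ V 0)
    (hV : ∀ i < k, 0 ≤ V (i + 1) ∧ Pr ρ (V i) (V i) (V (i + 1))) :
    ∀ i ≤ k, ((V 0 : ℝ) / 2) ^ (2 ^ i) ≤ (V i : ℝ) / 2 := by
  intro i
  induction i with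
  | zero => intro _; simp
  | succ i ih =>
    intro hi
    have ih' := ih (by omega)
    obtain ⟨h1, h2⟩ := hV i (by omega)
    have hV0 : (1 : ℝ) ≤ (V 0 : ℝ) / 2 := by
      have : (2 : ℝ) ≤ V 0 := by exact_mod_cast h0
      linarith
    have h3 : (1 : ℝ) ≤ (V i : ℝ) / 2 := (one_le_pow₀ hV0).trans ih'
    have h4 := Pr.sound1 he0 he h h2
    have h5 : (0 : ℝ) ≤ V (i + 1) := by exact_mod_cast h1
    have h6 : (0 : ℝ) ≤ V i := by linarith
    rw [nrm, abs_of_nonneg h6, abs_of_nonneg h5, abs_le] at h4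
    have h7 : (V i : ℝ) ^ 2 / 2 ≤ V (i + 1) := by nlinarith [h4.2]
    rw [pow_succ, pow_mul]
    calc (((V 0 : ℝ) / 2) ^ 2 ^ i) ^ 2 ≤ ((V i : ℝ) / 2) ^ 2 :=
          pow_le_pow_left₀ (by positivity) ih' 2
      _ ≤ (V (i + 1) : ℝ) / 2 := by nlinarith

/-- approximate products with a huge factor give exact products -/
theorem exact_mul (he0 : 0 ≤ e) (he : e < 1 / 2) (h : Cmp e ρ) {k : ℕ}
    (hk : 3 ≤ (2 : ℝ) ^ k * (1 - 2 * e)) {x y z : ℤ} {V : ℕ → ℤ} (h0 : 100 ≤ V 0)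
    (hx : |x| ≤ V 0) (hy : |y| ≤ V 0) (hz : |z| ≤ V 0)
    (hV : ∀ i < k, 0 ≤ V (i + 1) ∧ Pr ρ (V i) (V i) (V (i + 1))) {y' z' : ℤ}
    (h1 : Pr ρ (V k) y y') (h2 : Pr ρ (V k) z z') (h3 : Pr ρ x y' z') : x * y = z := by
  have hch := chain he0 he h (by omega) hV k le_rfl
  have hu100 : (100 : ℝ) ≤ (V 0 : ℝ) := by exact_mod_cast h0
  have hx' : |(x : ℝ)| ≤ (V 0 : ℝ) := by exact_mod_cast hx
  have hy' : |(y : ℝ)| ≤ (V 0 : ℝ) := by exact_mod_cast hy
  have hz' : |(z : ℝ)| ≤ (V 0 : ℝ) := by exact_mod_cast hz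
  set u : ℝ := (V 0 : ℝ) with hu
  set W : ℝ := (V k : ℝ) with hW
  have hu1 : (1 : ℝ) ≤ u / 2 := by linarith
  have hW1 : 1 ≤ W := by
    have := (one_le_pow₀ (n := 2 ^ k) hu1).trans hch
    linarith
  have hWu : W ≤ W * u := by nlinarith
  have huW : u ≤ W * u := by nlinarith
  have h1W : 1 ≤ W * u := by linarith
  -- one product by `W`
  have step : ∀ (t t' : ℤ), |(t : ℝ)| ≤ u → Pr ρ (V k) t t' →
      |(t' : ℝ)| ≤ 3 * (W * u) ∧ |W * t - t'| ≤ (1 / 4) * (9 * (W * u)) ^ (2 * e) := by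
    intro t t' ht hp
    have a1 := Pr.sound1 he0 he h hp
    have a2 := Pr.sound he0 he h hp
    rw [nrm, ← hW, abs_of_pos (by linarith : 0 < W)] at a1 a2
    have a3 : |W * (t : ℝ)| ≤ W * u := by
      rw [abs_mul, abs_of_pos (by linarith : 0 < W)]
      exact mul_le_mul_of_nonneg_left ht (by linarith)
    have a4 : |(t' : ℝ)| ≤ |W * (t : ℝ)| + |W * t - t'| := by
      have : (t' : ℝ) = W * t - (W * t - t') := by ring
      calc |(t' : ℝ)| = |W * t - (W * t - t')| := by rw [← this]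
        _ ≤ _ := abs_sub _ _
    have a5 : |(t' : ℝ)| ≤ 3 * (W * u) := by linarith
    refine ⟨a5, a2.trans ?_⟩
    apply mul_le_mul_of_nonneg_left _ (by norm_num)
    apply Real.rpow_le_rpow (by positivity) _ (by linarith)
    linarith
  obtain ⟨b1, c1⟩ := step y y' hy' h1
  obtain ⟨b2, c2⟩ := step z z' hz' h2
  have c3 : |(x : ℝ) * y' - z'| ≤ (1 / 4) * (9 * (W * u)) ^ (2 * e) := by
    refine (Pr.sound he0 he h h3).trans ?_
    apply mul_le_mul_of_nonneg_left _ (by norm_num)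
    apply Real.rpow_le_rpow (by have := nrm_ge x y' z'; linarith) _ (by linarith)
    rw [nrm]
    linarith
  set E : ℝ := (9 * (W * u)) ^ (2 * e) with hE
  have hE0 : 0 ≤ E := Real.rpow_nonneg (by positivity) _
  have d1 : |W * ((x : ℝ) * y - z)| ≤ u * E := by
    have : W * ((x : ℝ) * y - z) = x * (W * y - y') + (x * y' - z') - (W * z - z') := by ring
    rw [this]
    have a1 : |(x : ℝ) * (W * y - y')| ≤ u * ((1 / 4) * E) := by
      rw [abs_mul]
      exact mul_le_mul hx' c1 (abs_nonneg _) (by linarith)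
    have a2 := abs_sub (x * (W * y - y') + ((x : ℝ) * y' - z')) (W * z - z')
    have a3 := abs_add_le ((x : ℝ) * (W * y - y')) ((x : ℝ) * y' - z')
    nlinarith
  -- size of `E`
  have d2 : E ≤ 9 * u * W ^ (2 * e) := by
    have : E = (9 * u) ^ (2 * e) * W ^ (2 * e) := by
      rw [hE, show 9 * (W * u) = (9 * u) * W by ring]
      exact Real.mul_rpow (by linarith) (by linarith)
    rw [this]
    apply mul_le_mul_of_nonneg_right _ (Real.rpow_nonneg (by linarith) _)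
    have := Real.rpow_le_rpow_of_exponent_le (show (1 : ℝ) ≤ 9 * u by linarith)
      (show 2 * e ≤ 1 by linarith)
    rwa [Real.rpow_one] at this
  have d3 : u ^ 3 / 8 ≤ W ^ (1 - 2 * e) := by
    have a1 : (u / 2) ^ (2 ^ k) ≤ W := by
      have : (0 : ℝ) ≤ W := by linarith
      linarith
    calc u ^ 3 / 8 = (u / 2) ^ (3 : ℝ) := by
          rw [show (3 : ℝ) = ((3 : ℕ) : ℝ) by norm_num, Real.rpow_natCast]
          ring
      _ ≤ (u / 2) ^ ((2 : ℝ) ^ k * (1 - 2 * e)) :=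
          Real.rpow_le_rpow_of_exponent_le hu1 hk
      _ = ((u / 2) ^ (2 ^ k)) ^ (1 - 2 * e) := by
          rw [← Real.rpow_natCast (u / 2) (2 ^ k), ← Real.rpow_mul (by linarith)]
          push_cast
          rfl
      _ ≤ W ^ (1 - 2 * e) := Real.rpow_le_rpow (by positivity) a1 (by linarith)
  have d4 : W ^ (1 - 2 * e) * W ^ (2 * e) = W := by
    rw [← Real.rpow_add (by linarith)]
    simp
  have hWe : 0 < W ^ (2 * e) := Real.rpow_pos_of_pos (by linarith) _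
  have d5 : u * E < W := by
    calc u * E ≤ u * (9 * u * W ^ (2 * e)) := mul_le_mul_of_nonneg_left d2 (by linarith)
      _ = (9 * u ^ 2) * W ^ (2 * e) := by ring
      _ < (u ^ 3 / 8) * W ^ (2 * e) := by
          apply mul_lt_mul_of_pos_right _ hWe
          nlinarith [mul_pos (show (0 : ℝ) < u by linarith) (show (0 : ℝ) < u by linarith)]
      _ ≤ W ^ (1 - 2 * e) * W ^ (2 * e) := mul_le_mul_of_nonneg_right d3 hWe.le
      _ = W := d4
  have d6 : |(x : ℝ) * y - z| < 1 := by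
    rw [abs_mul, abs_of_pos (by linarith : 0 < W)] at d1
    have : W * |(x : ℝ) * y - z| < W * 1 := by linarith
    exact lt_of_mul_lt_mul_left this (by linarith)
  have d7 : |x * y - z| < 1 := by exact_mod_cast d6
  have := Int.abs_lt_one_iff.mp d7
  linarith

end Pool.Agent.TH255.HC
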