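import Mathlib

/-!
# Existential definitions over `ℚ` in the language of rings with one more binary relation
-/

set_option autoImplicit false

namespace Pool.Agent.TH255.HC

open MvPolynomial

/-- the height of a rational number -/
def H (x : ℚ) : ℕ := max x.num.natAbs x.den

/-- tolerances: a factor `C` and an error term `A (1 + log H)^δ` with `δ < 1/2` -/
structure Tol where
  C : ℕ
  A : ℝ
  δ : ℝ
  hδ : δ < 1 / 2

/-- `R` is a comparison of heights with tolerance `τ`: it contains `C H(x) ≤ H(y)` and is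
contained in `log H(x) ≤ log H(y) + A (1 + log H(y))^δ` -/
def Btw (τ : Tol) (R : ℚ → ℚ → Prop) : Prop :=
  (∀ x y, τ.C * H x ≤ H y → R x y) ∧
    ∀ x y, R x y → Real.log (H x) ≤ Real.log (H y) + τ.A * (1 + Real.log (H y)) ^ τ.δ

/-! ### polynomial functions -/

/-- polynomial functions of the environment -/
def PF (f : (ℕ → ℚ) → ℚ) : Prop := ∃ p : MvPolynomial ℕ ℤ, ∀ v, aeval v p = f v

theorem PF.var (i : ℕ) : PF (fun v => v i) := ⟨X i, fun _ => by simp⟩
theorem PF.int (n : ℤ) : PF (fun _ => (n : ℚ)) := ⟨C n, fun _ => by simp⟩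
theorem PF.zero : PF (fun _ => 0) := ⟨0, fun _ => by simp⟩
theorem PF.one : PF (fun _ => 1) := ⟨1, fun _ => by simp⟩
theorem PF.lit (n : ℕ) [n.AtLeastTwo] : PF (fun _ => (OfNat.ofNat n : ℚ)) :=
  ⟨C (OfNat.ofNat n), fun _ => by simp⟩

section
variable {f g : (ℕ → ℚ) → ℚ}

theorem PF.add (hf : PF f) (hg : PF g) : PF (fun v => f v + g v) := by
  obtain ⟨p, hp⟩ := hf
  obtain ⟨q, hq⟩ := hg
  exact ⟨p + q, fun v => by rw [map_add, hp, hq]⟩

theorem PF.mul (hf : PF f) (hg : PF g) : PF (fun v => f v * g v) := by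
  obtain ⟨p, hp⟩ := hf
  obtain ⟨q, hq⟩ := hg
  exact ⟨p * q, fun v => by rw [map_mul, hp, hq]⟩

theorem PF.sub (hf : PF f) (hg : PF g) : PF (fun v => f v - g v) := by
  obtain ⟨p, hp⟩ := hf
  obtain ⟨q, hq⟩ := hg
  exact ⟨p - q, fun v => by rw [map_sub, hp, hq]⟩

theorem PF.neg (hf : PF f) : PF (fun v => - f v) := by
  obtain ⟨p, hp⟩ := hf
  exact ⟨-p, fun v => by rw [map_neg, hp]⟩

theorem PF.pow (hf : PF f) (n : ℕ) : PF (fun v => f v ^ n) := by
  obtain ⟨p, hp⟩ := hf
  exact ⟨p ^ n, fun v => by rw [map_pow, hp]⟩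

theorem PF.ren (hf : PF f) (r : ℕ → ℕ) : PF (fun v => f (fun n => v (r n))) := by
  obtain ⟨p, hp⟩ := hf
  exact ⟨rename r p, fun v => by rw [aeval_rename]; exact hp _⟩

/-- the function on the even part of the environment -/
theorem PF.ev (hf : PF f) : PF (fun v => f (fun n => v (2 * n))) := hf.ren _

end

/-- the odd variables -/
theorem PF.od (i : ℕ) : PF (fun v => v (2 * i + 1)) := PF.var _

/-! ### environments -/

/-- `v` at the even places, `u` at the odd places -/
def mix (v u : ℕ → ℚ) (n : ℕ) : ℚ := if n % 2 = 0 then v (n / 2) else u (n / 2)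

@[simp] theorem mix_even (v u : ℕ → ℚ) (n : ℕ) : mix v u (2 * n) = v n := by
  unfold mix
  rw [if_pos (by omega)]
  congr 1
  omega

@[simp] theorem mix_odd (v u : ℕ → ℚ) (n : ℕ) : mix v u (2 * n + 1) = u n := by
  unfold mix
  rw [if_neg (by omega)]
  congr 1
  omega

theorem mix_ev_fun (v u : ℕ → ℚ) : (fun n => mix v u (2 * n)) = v := funext fun n => mix_even v u n
theorem mix_od_fun (v u : ℕ → ℚ) : (fun n => mix v u (2 * n + 1)) = u :=
  funext fun n => mix_odd v u n

/-- existentially defined relations, in the language with one more relation -/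
def DH (C : Tol) (P : (ℚ → ℚ → Prop) → (ℕ → ℚ) → Prop) : Prop :=
  ∃ (p : MvPolynomial ℕ ℤ) (S : List (ℕ × ℕ)), ∀ R, Btw C R → ∀ v, P R v ↔
    ∃ u, aeval (mix v u) p = 0 ∧ ∀ s ∈ S, R (mix v u s.1) (mix v u s.2)

variable {C : Tol} {P P' : (ℚ → ℚ → Prop) → (ℕ → ℚ) → Prop}

theorem DH.congr (h : DH C P) (h' : ∀ R, Btw C R → ∀ v, P' R v ↔ P R v) : DH C P' := by
  obtain ⟨p, S, h⟩ := h
  exact ⟨p, S, fun R hR v => (h' R hR v).trans (h R hR v)⟩

theorem DH.eq {f g : (ℕ → ℚ) → ℚ} (hf : PF f) (hg : PF g) : DH C (fun _ v => f v = g v) := by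
  obtain ⟨p, hp⟩ := hf.sub hg
  refine ⟨rename (fun n => 2 * n) p, [], fun R _ v => ?_⟩
  have key : ∀ u, aeval (mix v u) (rename (fun n => 2 * n) p) = f v - g v := by
    intro u
    rw [aeval_rename]
    have : mix v u ∘ (fun n => 2 * n) = v := funext fun n => mix_even v u n
    rw [this]
    exact hp v
  constructor
  · intro h
    exact ⟨fun _ => 0, by rw [key, h, sub_self], by simp⟩
  · rintro ⟨u, hu, -⟩
    rw [key] at hu
    linarith

theorem DH.true : DH C (fun _ _ => True) :=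
  (DH.eq PF.zero PF.zero).congr fun _ _ _ => by simp

/-- the environment of the first formula -/
def g1 (n : ℕ) : ℕ := if n % 2 = 0 then n else 2 * (2 * (n / 2)) + 1
/-- the environment of the second formula -/
def g2 (n : ℕ) : ℕ := if n % 2 = 0 then n else 2 * (2 * (n / 2) + 1) + 1

theorem mix_g1 (v u : ℕ → ℚ) (n : ℕ) :
    mix v u (g1 n) = mix v (fun m => u (2 * m)) n := by
  obtain ⟨m, rfl | rfl⟩ : ∃ m, n = 2 * m ∨ n = 2 * m + 1 := ⟨n / 2, by omega⟩
  · rw [g1, if_pos (by omega), mix_even, mix_even]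
  · have h : (2 * m + 1) / 2 = m := by omega
    rw [g1, if_neg (by omega), h, mix_odd, mix_odd]

theorem mix_g2 (v u : ℕ → ℚ) (n : ℕ) :
    mix v u (g2 n) = mix v (fun m => u (2 * m + 1)) n := by
  obtain ⟨m, rfl | rfl⟩ : ∃ m, n = 2 * m ∨ n = 2 * m + 1 := ⟨n / 2, by omega⟩
  · rw [g2, if_pos (by omega), mix_even, mix_even]
  · have h : (2 * m + 1) / 2 = m := by omega
    rw [g2, if_neg (by omega), h, mix_odd, mix_odd]

theorem aeval_g1 (v u : ℕ → ℚ) (p : MvPolynomial ℕ ℤ) :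
    aeval (mix v u) (rename g1 p) = aeval (mix v (fun m => u (2 * m))) p := by
  rw [aeval_rename]
  congr 2
  funext n
  exact mix_g1 v u n

theorem aeval_g2 (v u : ℕ → ℚ) (p : MvPolynomial ℕ ℤ) :
    aeval (mix v u) (rename g2 p) = aeval (mix v (fun m => u (2 * m + 1))) p := by
  rw [aeval_rename]
  congr 2
  funext n
  exact mix_g2 v u n

theorem DH.and (h : DH C P) (h' : DH C P') : DH C (fun R v => P R v ∧ P' R v) := by
  obtain ⟨p, S, hp⟩ := h
  obtain ⟨q, S', hq⟩ := h'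
  refine ⟨rename g1 p ^ 2 + rename g2 q ^ 2,
    S.map (fun s => (g1 s.1, g1 s.2)) ++ S'.map (fun s => (g2 s.1, g2 s.2)), fun R hR v => ?_⟩
  have key : ∀ u, aeval (mix v u) (rename g1 p ^ 2 + rename g2 q ^ 2) =
      aeval (mix v (fun m => u (2 * m))) p ^ 2 + aeval (mix v (fun m => u (2 * m + 1))) q ^ 2 := by
    intro u
    rw [map_add, map_pow, map_pow, aeval_g1, aeval_g2]
  change P R v ∧ P' R v ↔ _
  rw [hp R hR, hq R hR]
  constructor
  · rintro ⟨⟨a, ha, ha'⟩, ⟨b, hb, hb'⟩⟩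
    refine ⟨mix a b, ?_, ?_⟩
    · rw [key, mix_ev_fun, mix_od_fun, ha, hb]
      norm_num
    · intro s hs
      rw [List.mem_append, List.mem_map, List.mem_map] at hs
      rcases hs with ⟨s, hs, rfl⟩ | ⟨s, hs, rfl⟩
      · simp only [mix_g1, mix_ev_fun]
        exact ha' s hs
      · simp only [mix_g2, mix_od_fun]
        exact hb' s hs
  · rintro ⟨u, hu, hu'⟩
    rw [key] at hu
    have h1 := sq_nonneg (aeval (mix v (fun m => u (2 * m))) p)
    have h2 := sq_nonneg (aeval (mix v (fun m => u (2 * m + 1))) q)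
    refine ⟨⟨_, (pow_eq_zero_iff two_ne_zero).1 (le_antisymm (by linarith) h1), fun s hs => ?_⟩,
      ⟨_, (pow_eq_zero_iff two_ne_zero).1 (le_antisymm (by linarith) h2), fun s hs => ?_⟩⟩
    · have := hu' (g1 s.1, g1 s.2) (List.mem_append_left _ (List.mem_map_of_mem hs))
      rwa [mix_g1, mix_g1] at this
    · have := hu' (g2 s.1, g2 s.2)
        (List.mem_append_right _ (List.mem_map.2 ⟨s, hs, rfl⟩))
      rwa [mix_g2, mix_g2] at this

/-- moving a block of variables to the existential ones -/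
def g3 (n : ℕ) : ℕ :=
  if n % 2 = 0 then (if (n / 2) % 2 = 0 then n / 2 else 2 * (2 * (n / 4)) + 1)
  else 2 * (2 * (n / 2) + 1) + 1

theorem mix_g3 (v u : ℕ → ℚ) (n : ℕ) :
    mix v u (g3 n) = mix (mix v (fun m => u (2 * m))) (fun m => u (2 * m + 1)) n := by
  obtain ⟨m, rfl | rfl⟩ : ∃ m, n = 2 * m ∨ n = 2 * m + 1 := ⟨n / 2, by omega⟩
  · rw [mix_even]
    obtain ⟨k, rfl | rfl⟩ : ∃ k, m = 2 * k ∨ m = 2 * k + 1 := ⟨m / 2, by omega⟩
    · have h1 : 2 * (2 * k) / 2 = 2 * k := by omega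
      rw [g3, if_pos (by omega), if_pos (by omega), h1, mix_even, mix_even]
    · have h1 : 2 * (2 * k + 1) / 4 = k := by omega
      rw [g3, if_pos (by omega), if_neg (by omega), h1, mix_odd, mix_odd]
  · have h1 : (2 * m + 1) / 2 = m := by omega
    rw [g3, if_neg (by omega), h1, mix_odd, mix_odd]

/-- existential quantification over a block of variables -/
theorem DH.exs {P : (ℚ → ℚ → Prop) → (ℕ → ℚ) → (ℕ → ℚ) → Prop}
    (h : DH C (fun R w => P R (fun n => w (2 * n)) (fun n => w (2 * n + 1)))) :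
    DH C (fun R v => ∃ u, P R v u) := by
  obtain ⟨p, S, hp⟩ := h
  refine ⟨rename g3 p, S.map (fun s => (g3 s.1, g3 s.2)), fun R hR v => ?_⟩
  constructor
  · rintro ⟨a, ha⟩
    have h1 := (hp R hR (mix v a)).1 (by simpa only [mix_ev_fun, mix_od_fun] using ha)
    obtain ⟨b, hb, hb'⟩ := h1
    refine ⟨mix a b, ?_, ?_⟩
    · rw [aeval_rename]
      have : mix v (mix a b) ∘ g3 = mix (mix v a) b := by
        funext n
        simp only [Function.comp, mix_g3, mix_ev_fun, mix_od_fun]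
      rw [this]
      exact hb
    · intro s hs
      rw [List.mem_map] at hs
      obtain ⟨s, hs, rfl⟩ := hs
      simp only [mix_g3, mix_ev_fun, mix_od_fun]
      exact hb' s hs
  · rintro ⟨u, hu, hu'⟩
    refine ⟨fun m => u (2 * m), ?_⟩
    have h1 := (hp R hR (mix v (fun m => u (2 * m)))).2 ⟨fun m => u (2 * m + 1), ?_, ?_⟩
    · simpa only [mix_ev_fun, mix_od_fun] using h1
    · rw [aeval_rename] at hu
      have : mix v u ∘ g3 = mix (mix v (fun m => u (2 * m))) (fun m => u (2 * m + 1)) := by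
        funext n
        simp only [Function.comp, mix_g3]
      rw [this] at hu
      exact hu
    · intro s hs
      have := hu' (g3 s.1, g3 s.2) (List.mem_map.2 ⟨s, hs, rfl⟩)
      rwa [mix_g3, mix_g3] at this

/-- renaming the free variables -/
theorem DH.ren (h : DH C P) (r : ℕ → ℕ) : DH C (fun R v => P R (fun n => v (r n))) := by
  obtain ⟨p, S, hp⟩ := h
  let k : ℕ → ℕ := fun n => if n % 2 = 0 then 2 * r (n / 2) else n
  have hk : ∀ v u n, mix v u (k n) = mix (fun n => v (r n)) u n := by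
    intro v u n
    obtain ⟨m, rfl | rfl⟩ : ∃ m, n = 2 * m ∨ n = 2 * m + 1 := ⟨n / 2, by omega⟩
    · have h1 : 2 * m / 2 = m := by omega
      simp only [k]
      rw [if_pos (by omega), h1, mix_even, mix_even]
    · simp only [k]
      rw [if_neg (by omega), mix_odd, mix_odd]
  refine ⟨rename k p, S.map (fun s => (k s.1, k s.2)), fun R hR v => ?_⟩
  change P R (fun n => v (r n)) ↔ _
  rw [hp R hR]
  refine exists_congr fun u => ?_
  rw [aeval_rename]
  have : mix v u ∘ k = mix (fun n => v (r n)) u := funext fun n => hk v u n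
  rw [this]
  refine and_congr_right fun _ => ?_
  constructor
  · intro h s hs
    rw [List.mem_map] at hs
    obtain ⟨s, hs, rfl⟩ := hs
    simp only [hk]
    exact h s hs
  · intro h s hs
    have := h (k s.1, k s.2) (List.mem_map.2 ⟨s, hs, rfl⟩)
    rwa [hk, hk] at this

/-- the relation itself -/
theorem DH.rel {f g : (ℕ → ℚ) → ℚ} (hf : PF f) (hg : PF g) :
    DH C (fun R v => R (f v) (g v)) := by
  have h0 : DH C (fun R v => R (v 1) (v 3)) := by
    refine ⟨0, [(2, 6)], fun R _ v => ?_⟩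
    constructor
    · intro h
      refine ⟨fun _ => 0, by simp, ?_⟩
      intro s hs
      rw [List.mem_singleton] at hs
      subst hs
      exact (mix_even v _ 1).symm ▸ (mix_even v _ 3).symm ▸ h
    · rintro ⟨u, -, h⟩
      have := h (2, 6) (List.mem_singleton.2 rfl)
      have e1 : mix v u 2 = v 1 := mix_even v u 1
      have e2 : mix v u 6 = v 3 := mix_even v u 3
      simp only [e1, e2] at this
      exact this
  have h1 : DH C (fun R v => ∃ u : ℕ → ℚ, (u 0 = f v ∧ u 1 = g v) ∧ R (u 0) (u 1)) := by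
    refine DH.exs (((DH.eq (PF.od 0) hf.ev).and (DH.eq (PF.od 1) hg.ev)).and ?_)
    exact h0
  refine h1.congr fun R _ v => ?_
  constructor
  · intro h
    exact ⟨fun n => if n = 0 then f v else g v, ⟨by simp, by simp⟩, by simpa using h⟩
  · rintro ⟨u, ⟨h0, h1⟩, h⟩
    rwa [h0, h1] at h

theorem DH.ne {f g : (ℕ → ℚ) → ℚ} (hf : PF f) (hg : PF g) : DH C (fun _ v => f v ≠ g v) := by
  have h : DH C (fun _ v => ∃ u : ℕ → ℚ, (f v - g v) * u 0 = 1) :=
    DH.exs (DH.eq ((hf.ev.sub hg.ev).mul (PF.od 0)) PF.one)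
  refine h.congr fun _ _ v => ?_
  constructor
  · intro h
    exact ⟨fun _ => (f v - g v)⁻¹, mul_inv_cancel₀ (sub_ne_zero.2 h)⟩
  · rintro ⟨a, ha⟩ h
    rw [h, sub_self, zero_mul] at ha
    exact zero_ne_one ha

theorem DH.list {α : Type*} (L : List α) {Q : α → (ℚ → ℚ → Prop) → (ℕ → ℚ) → Prop}
    (h : ∀ a, DH C (Q a)) : DH C (fun R v => ∀ a ∈ L, Q a R v) := by
  induction L with
  | nil => exact DH.true.congr fun _ _ _ => by simp
  | cons a L ih => exact ((h a).and ih).congr fun _ _ _ => by simp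

/-- the final form: one polynomial, finitely many comparisons -/
theorem DH.final {Q : ℚ → Prop} (h : DH C (fun _ v => Q (v 0))) :
    ∃ (n : ℕ) (p : MvPolynomial (Fin (n + 1)) ℤ) (S : Finset (Fin (n + 1) × Fin (n + 1))),
      ∀ R : ℚ → ℚ → Prop, Btw C R → ∀ x : ℚ, Q x ↔ ∃ y : Fin (n + 1) → ℚ, y 0 = x ∧
        aeval y p = 0 ∧ ∀ s ∈ S, R (y s.1) (y s.2) := by
  classical
  obtain ⟨p, S, hp⟩ := h
  obtain ⟨B, hB, hS⟩ : ∃ B : ℕ, (∀ i ∈ p.vars, i < B) ∧ ∀ s ∈ S, s.1 < B ∧ s.2 < B := by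
    refine ⟨p.vars.sup id + (S.map (fun s => s.1 + s.2)).sum + 1, fun i hi => ?_, fun s hs => ?_⟩
    · have : id i ≤ p.vars.sup id := Finset.le_sup hi
      simp only [id] at this
      omega
    · have : s.1 + s.2 ≤ (S.map (fun s => s.1 + s.2)).sum :=
        List.single_le_sum (fun _ _ => Nat.zero_le _) _ (List.mem_map_of_mem hs)
      omega
  let g : ℕ → Fin (B + 1) := fun n => if h : n < B + 1 then ⟨n, h⟩ else 0
  have hg : ∀ n, n < B → ((g n : Fin (B + 1)) : ℕ) = n := by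
    intro n hn
    simp only [g]
    rw [dif_pos (by omega)]
  have key : ∀ (w : ℕ → ℚ) (y : Fin (B + 1) → ℚ), (∀ i : Fin (B + 1), y i = w i) →
      aeval y (rename g p) = aeval w p ∧ ∀ s ∈ S, y (g s.1) = w s.1 ∧ y (g s.2) = w s.2 := by
    intro w y hw
    refine ⟨?_, fun s hs => ?_⟩
    · rw [aeval_rename]
      apply MvPolynomial.eval₂Hom_congr' rfl _ rfl
      intro i hi _
      simp only [Function.comp]
      rw [hw, hg i (hB i hi)]
    · rw [hw, hw, hg _ (hS s hs).1, hg _ (hS s hs).2]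
      exact ⟨rfl, rfl⟩
  refine ⟨B, rename g p, (S.map (fun s => (g s.1, g s.2))).toFinset, fun R hR x => ?_⟩
  constructor
  · intro hx
    obtain ⟨u, hu, hu'⟩ := (hp R hR (fun _ => x)).1 hx
    obtain ⟨k1, k2⟩ := key (mix (fun _ => x) u) (fun i => mix (fun _ => x) u i) (fun _ => rfl)
    refine ⟨fun i => mix (fun _ => x) u i, mix_even _ u 0, by rw [k1]; exact hu, ?_⟩
    intro s hs
    rw [List.mem_toFinset, List.mem_map] at hs
    obtain ⟨s, hs, rfl⟩ := hs
    change R (mix (fun _ => x) u (g s.1)) (mix (fun _ => x) u (g s.2))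
    rw [(k2 s hs).1, (k2 s hs).2]
    exact hu' s hs
  · rintro ⟨y, hy, hp0, hR'⟩
    set w : ℕ → ℚ := fun n => if h : n < B + 1 then y ⟨n, h⟩ else 0 with hw
    have hyw : ∀ i : Fin (B + 1), y i = w i := by
      intro i
      simp only [w]
      rw [dif_pos i.2]
    obtain ⟨k1, k2⟩ := key w y hyw
    have hmix : mix (fun n => w (2 * n)) (fun n => w (2 * n + 1)) = w := by
      funext n
      obtain ⟨m, rfl | rfl⟩ : ∃ m, n = 2 * m ∨ n = 2 * m + 1 := ⟨n / 2, by omega⟩
      · rw [mix_even]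
      · rw [mix_odd]
    have h1 := (hp R hR (fun n => w (2 * n))).2 ⟨fun n => w (2 * n + 1), by
      rw [hmix, ← k1]; exact hp0, fun s hs => by
        rw [hmix, ← (k2 s hs).1, ← (k2 s hs).2]
        exact hR' _ (List.mem_toFinset.2 (List.mem_map_of_mem hs))⟩
    have h2 : w (2 * 0) = x := by
      rw [← hy, hyw]; rfl
    change Q (w (2 * 0)) at h1
    rwa [h2] at h1

end Pool.Agent.TH255.HC
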