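import Pool.Agent.TH255.HC.Heights

/-!
# The relations `a + b = c + d` and `(2a+1)² + (2b+1)² ≤ (2c+1)² + (2d+1)²` on coded integers
-/

set_option autoImplicit false

namespace Pool.Agent.TH255.HC

/-- the pair `(x, y)` codes the integer `n` -/
def Cd (x y : ℚ) (n : ℤ) : Prop := x = ptX (U n) ∧ y = ptY (U n)

lemma Cd.inj {x y : ℚ} {m n : ℤ} (h : Cd x y m) (h' : Cd x y n) : m = n := by
  apply U_inj
  exact pt_ext (U_ne m) (U_ne n) (h.1.symm.trans h'.1) (h.2.symm.trans h'.2)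

/-! ### collinear triples -/

lemma Col.on {x1 y1 x2 y2 x3 y3 : ℚ} (h : Col x1 y1 x2 y2 x3 y3) :
    y1 ^ 2 = x1 ^ 3 - 2 * x1 ∧ y2 ^ 2 = x2 ^ 3 - 2 * x2 ∧ y3 ^ 2 = x3 ^ 3 - 2 * x3 := by
  obtain ⟨l, m, h1, h2, h3, e1, e2, e3⟩ := h
  refine ⟨?_, ?_, ?_⟩
  · rw [h1]; linear_combination x1 ^ 2 * (-1) * e1 + x1 * e2 + (-1) * e3
  · rw [h2]; linear_combination x2 ^ 2 * (-1) * e1 + x2 * e2 + (-1) * e3
  · rw [h3]; linear_combination x3 ^ 2 * (-1) * e1 + x3 * e2 + (-1) * e3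

/-- addition of points, in coordinates: `(x₃, y₃) = (x₁, y₁) + (x₂, y₂)` -/
lemma col_add_iff {P Q : Pt} (hP : P ≠ 0) (hQ : Q ≠ 0) (x y : ℚ) :
    Col (ptX P) (ptY P) (ptX Q) (ptY Q) x (-y) ↔ P + Q ≠ 0 ∧ x = ptX (P + Q) ∧ y = ptY (P + Q) := by
  constructor
  · intro h
    obtain ⟨S, hS, hSx, hSy⟩ := exists_pt h.on.2.2
    rw [← hSx, ← hSy, col_iff hP hQ hS] at h
    have h1 : P + Q = -S := by rwa [add_eq_zero_iff_eq_neg] at h
    rw [h1, ptX_neg, ptY_neg, hSx, hSy, neg_neg]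
    exact ⟨neg_ne_zero.mpr hS, rfl, rfl⟩
  · rintro ⟨h0, rfl, rfl⟩
    have h1 : -(P + Q) ≠ 0 := neg_ne_zero.mpr h0
    have := (col_iff hP hQ h1).mpr (by abel)
    rwa [ptX_neg, ptY_neg] at this

variable {C : Tol}

lemma dh_col {x1 y1 x2 y2 x3 y3 : (ℕ → ℚ) → ℚ} (h1 : PF x1) (k1 : PF y1) (h2 : PF x2)
    (k2 : PF y2) (h3 : PF x3) (k3 : PF y3) :
    DH C (fun _ v => Col (x1 v) (y1 v) (x2 v) (y2 v) (x3 v) (y3 v)) := by
  have h : DH C (fun _ v => ∃ u : ℕ → ℚ, y1 v = u 0 * x1 v + u 1 ∧ y2 v = u 0 * x2 v + u 1 ∧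
      y3 v = u 0 * x3 v + u 1 ∧ x1 v + x2 v + x3 v = u 0 ^ 2 ∧
      x1 v * x2 v + x1 v * x3 v + x2 v * x3 v = -2 - 2 * u 0 * u 1 ∧
      x1 v * x2 v * x3 v = u 1 ^ 2) := by
    refine DH.exs ?_
    have l : PF (fun v : ℕ → ℚ => v (2 * 0 + 1)) := PF.od 0
    have m : PF (fun v : ℕ → ℚ => v (2 * 1 + 1)) := PF.od 1
    refine (DH.eq k1.ev ((l.mul h1.ev).add m)).and ?_
    refine (DH.eq k2.ev ((l.mul h2.ev).add m)).and ?_
    refine (DH.eq k3.ev ((l.mul h3.ev).add m)).and ?_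
    refine (DH.eq ((h1.ev.add h2.ev).add h3.ev) (l.pow 2)).and ?_
    refine (DH.eq (((h1.ev.mul h2.ev).add (h1.ev.mul h3.ev)).add (h2.ev.mul h3.ev))
      (((PF.lit 2).neg).sub (((PF.lit 2).mul l).mul m))).and ?_
    exact DH.eq ((h1.ev.mul h2.ev).mul h3.ev) (m.pow 2)
  refine h.congr fun _ _ v => ?_
  constructor
  · rintro ⟨l, m, h⟩
    exact ⟨fun n => if n = 0 then l else m, by simpa using h⟩
  · rintro ⟨u, h⟩
    exact ⟨u 0, u 1, h⟩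

/-! ### codes -/

/-- the points which are codes -/
def OnO (x y : ℚ) : Prop := y ^ 2 = x ^ 3 - 2 * x ∧ ∃ r : ℚ, r ≠ 0 ∧ x = -r ^ 2

lemma onO_iff (x y : ℚ) : OnO x y ↔ ∃ n : ℤ, Cd x y n := by
  constructor
  · rintro ⟨h, hr⟩
    obtain ⟨P, hP, rfl, rfl⟩ := exists_pt h
    obtain ⟨n, rfl⟩ := (isO_iff_U P).mp ⟨hP, hr⟩
    exact ⟨n, rfl, rfl⟩
  · rintro ⟨n, rfl, rfl⟩
    exact ⟨pt_eq (U_ne n), (isO_U n).2⟩

lemma dh_code {x y : (ℕ → ℚ) → ℚ} (hx : PF x) (hy : PF y) :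
    DH C (fun _ v => ∃ n : ℤ, Cd (x v) (y v) n) := by
  have h : DH C (fun _ v => (y v ^ 2 = x v ^ 3 - 2 * x v) ∧
      ∃ u : ℕ → ℚ, u 0 ≠ 0 ∧ x v = - u 0 ^ 2) := by
    refine (DH.eq (hy.pow 2) ((hx.pow 3).sub ((PF.lit 2).mul hx))).and (DH.exs ?_)
    exact (DH.ne (PF.od 0) PF.zero).and (DH.eq hx.ev ((PF.od 0).pow 2).neg)
  refine h.congr fun _ _ v => ?_
  rw [← onO_iff]
  refine and_congr_right fun _ => ?_
  constructor
  · rintro ⟨r, h⟩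
    exact ⟨fun _ => r, h⟩
  · rintro ⟨u, h⟩
    exact ⟨u 0, h⟩

lemma dh_const {x : (ℕ → ℚ) → ℚ} (hx : PF x) (q : ℚ) : DH C (fun _ v => x v = q) := by
  have h : DH C (fun _ v => ((q.den : ℤ) : ℚ) * x v = (q.num : ℚ)) :=
    DH.eq ((PF.int q.den).mul hx) (PF.int q.num)
  refine h.congr fun _ _ v => ?_
  have hd : (q.den : ℚ) ≠ 0 := by exact_mod_cast q.den_nz
  have h2 : q * q.den = q.num := Rat.mul_den_eq_num q
  push_cast
  constructor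
  · rintro rfl
    rw [← h2]; ring
  · intro h
    rw [← h2, mul_comm] at h
    exact mul_right_cancel₀ hd h

lemma dh_cd_const {x y : (ℕ → ℚ) → ℚ} (hx : PF x) (hy : PF y) (n : ℤ) :
    DH C (fun _ v => Cd (x v) (y v) n) :=
  (dh_const hx _).and (dh_const hy _)

/-! ### multiples -/

/-- `(x', y') = (k + 1) (x, y)` -/
def MulR : ℕ → ℚ → ℚ → ℚ → ℚ → Prop
  | 0, x, y, x', y' => x' = x ∧ y' = y
  | k + 1, x, y, x', y' => ∃ a b : ℚ, MulR k x y a b ∧ Col x y a b x' (-y')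

lemma mulR_iff {P : Pt} (hP : ∀ n : ℕ, n ≠ 0 → n • P ≠ 0) (k : ℕ) (x' y' : ℚ) :
    MulR k (ptX P) (ptY P) x' y' ↔ x' = ptX ((k + 1) • P) ∧ y' = ptY ((k + 1) • P) := by
  have hP1 : P ≠ 0 := by simpa using hP 1 one_ne_zero
  induction k generalizing x' y' with
  | zero => simp [MulR]
  | succ k ih =>
    have e : (k + 1 + 1) • P = P + (k + 1) • P := by rw [succ_nsmul, add_comm]
    rw [e]
    constructor
    · rintro ⟨a, b, h1, h2⟩
      obtain ⟨rfl, rfl⟩ := (ih a b).mp h1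
      exact ((col_add_iff hP1 (hP _ (Nat.succ_ne_zero k)) x' y').mp h2).2
    · intro h
      refine ⟨_, _, (ih _ _).mpr ⟨rfl, rfl⟩, ?_⟩
      rw [col_add_iff hP1 (hP _ (Nat.succ_ne_zero k))]
      refine ⟨?_, h⟩
      rw [← e]
      exact hP _ (Nat.succ_ne_zero _)

lemma smul_U_ne (a : ℤ) (n : ℕ) (hn : n ≠ 0) : n • U a ≠ 0 := by
  intro h
  rw [U, ← natCast_zsmul, ← mul_smul] at h
  have h1 := zsmul_G h
  rcases mul_eq_zero.mp h1 with h2 | h2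
  · exact hn (by exact_mod_cast h2)
  · omega

lemma dh_mulR (k : ℕ) : ∀ {x y x' y' : (ℕ → ℚ) → ℚ}, PF x → PF y → PF x' → PF y' →
    DH C (fun _ v => MulR k (x v) (y v) (x' v) (y' v)) := by
  induction k with
  | zero =>
    intro x y x' y' hx hy hx' hy'
    exact (DH.eq hx' hx).and (DH.eq hy' hy)
  | succ k ih =>
    intro x y x' y' hx hy hx' hy'
    have h : DH C (fun _ v => ∃ u : ℕ → ℚ, MulR k (x v) (y v) (u 0) (u 1) ∧
        Col (x v) (y v) (u 0) (u 1) (x' v) (- y' v)) := by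
      refine DH.exs ((ih hx.ev hy.ev (PF.od 0) (PF.od 1)).and ?_)
      exact dh_col hx.ev hy.ev (PF.od 0) (PF.od 1) hx'.ev hy'.ev.neg
    refine h.congr fun _ _ v => ?_
    constructor
    · rintro ⟨a, b, h⟩
      exact ⟨fun n => if n = 0 then a else b, by simpa using h⟩
    · rintro ⟨u, h⟩
      exact ⟨u 0, u 1, h⟩

/-! ### the comparison -/

/-- the exponent of the power of `2` in the comparison -/
noncomputable def gL (τ : Tol) : ℕ := (gadget τ).choose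
/-- the multiplier in the comparison -/
noncomputable def gK (τ : Tol) : ℕ := (gadget τ).choose_spec.choose

lemma g_spec (τ : Tol) : Odd (gK τ) ∧ ∀ a b c d : ℤ,
    (S2 a b ≤ S2 c d → τ.C * H (ptX (gK τ • U a) * ptX (gK τ • U b)) ≤
      H (ptX (gK τ • U c) * ptX (gK τ • U d) / 2 ^ gL τ)) ∧
    (Real.log (H (ptX (gK τ • U a) * ptX (gK τ • U b))) ≤
      Real.log (H (ptX (gK τ • U c) * ptX (gK τ • U d) / 2 ^ gL τ)) +
        τ.A * (1 + Real.log (H (ptX (gK τ • U c) * ptX (gK τ • U d) / 2 ^ gL τ))) ^ τ.δ →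
      (S2 a b : ℝ) ≤ S2 c d + (S2 c d : ℝ) ^ τ.e) := (gadget τ).choose_spec.choose_spec

/-- the comparison of two sums of two odd squares, by means of `R` -/
def LER (τ : Tol) (R : ℚ → ℚ → Prop) (a b c d : ℤ) : Prop :=
  R (ptX (gK τ • U a) * ptX (gK τ • U b)) (ptX (gK τ • U c) * ptX (gK τ • U d) / 2 ^ gL τ)

/-- comparisons of sums of two odd squares with an error term -/
structure Cmp (e : ℝ) (ρ : ℤ → ℤ → ℤ → ℤ → Prop) : Prop where
  compl : ∀ a b c d, S2 a b ≤ S2 c d → ρ a b c d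
  sound : ∀ a b c d, ρ a b c d → (S2 a b : ℝ) ≤ S2 c d + (S2 c d : ℝ) ^ e

lemma cmp_LER {τ : Tol} {R : ℚ → ℚ → Prop} (hR : Btw τ R) : Cmp τ.e (LER τ R) where
  compl := fun a b c d h => hR.1 _ _ (((g_spec τ).2 a b c d).1 h)
  sound := fun a b c d h => ((g_spec τ).2 a b c d).2 (hR.2 _ _ h)

/-- the comparison is existentially definable -/
theorem dh_le {x1 y1 x2 y2 x3 y3 x4 y4 : (ℕ → ℚ) → ℚ} (h1 : PF x1) (k1 : PF y1) (h2 : PF x2)
    (k2 : PF y2) (h3 : PF x3) (k3 : PF y3) (h4 : PF x4) (k4 : PF y4) :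
    DH C (fun R v => ∃ a b c d : ℤ, Cd (x1 v) (y1 v) a ∧ Cd (x2 v) (y2 v) b ∧
      Cd (x3 v) (y3 v) c ∧ Cd (x4 v) (y4 v) d ∧ LER C R a b c d) := by
  obtain ⟨k, hk⟩ : ∃ k, gK C = k + 1 := ⟨gK C - 1, by
    have : gK C ≠ 0 := by
      intro h0
      have := (g_spec C).1
      rw [h0] at this
      simp at this
    omega⟩
  have h : DH C (fun R v => (∃ n : ℤ, Cd (x1 v) (y1 v) n) ∧ (∃ n : ℤ, Cd (x2 v) (y2 v) n) ∧
      (∃ n : ℤ, Cd (x3 v) (y3 v) n) ∧ (∃ n : ℤ, Cd (x4 v) (y4 v) n) ∧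
      ∃ u : ℕ → ℚ, MulR k (x1 v) (y1 v) (u 0) (u 1) ∧ MulR k (x2 v) (y2 v) (u 2) (u 3) ∧
        MulR k (x3 v) (y3 v) (u 4) (u 5) ∧ MulR k (x4 v) (y4 v) (u 6) (u 7) ∧
        (2 ^ gL C * u 8 = u 4 * u 6) ∧ R (u 0 * u 2) (u 8)) := by
    refine (dh_code h1 k1).and ((dh_code h2 k2).and ((dh_code h3 k3).and
      ((dh_code h4 k4).and (DH.exs ?_))))
    refine (dh_mulR k h1.ev k1.ev (PF.od 0) (PF.od 1)).and ?_
    refine (dh_mulR k h2.ev k2.ev (PF.od 2) (PF.od 3)).and ?_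
    refine (dh_mulR k h3.ev k3.ev (PF.od 4) (PF.od 5)).and ?_
    refine (dh_mulR k h4.ev k4.ev (PF.od 6) (PF.od 7)).and ?_
    refine (DH.eq (((PF.lit 2).pow (gL C)).mul (PF.od 8)) ((PF.od 4).mul (PF.od 6))).and ?_
    exact DH.rel ((PF.od 0).mul (PF.od 2)) (PF.od 8)
  refine h.congr fun R hR v => ?_
  have key : ∀ a b c d : ℤ, Cd (x1 v) (y1 v) a → Cd (x2 v) (y2 v) b → Cd (x3 v) (y3 v) c →
      Cd (x4 v) (y4 v) d → (LER C R a b c d ↔
        ∃ u : ℕ → ℚ, MulR k (x1 v) (y1 v) (u 0) (u 1) ∧ MulR k (x2 v) (y2 v) (u 2) (u 3) ∧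
        MulR k (x3 v) (y3 v) (u 4) (u 5) ∧ MulR k (x4 v) (y4 v) (u 6) (u 7) ∧
        (2 ^ gL C * u 8 = u 4 * u 6) ∧ R (u 0 * u 2) (u 8)) := by
    rintro a b c d ⟨e1, f1⟩ ⟨e2, f2⟩ ⟨e3, f3⟩ ⟨e4, f4⟩
    rw [e1, f1, e2, f2, e3, f3, e4, f4]
    have hp : (2 : ℚ) ^ gL C ≠ 0 := by positivity
    unfold LER
    rw [hk]
    constructor
    · intro hS
      refine ⟨fun n => if n = 0 then ptX ((k + 1) • U a) else if n = 1 then ptY ((k + 1) • U a)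
        else if n = 2 then ptX ((k + 1) • U b) else if n = 3 then ptY ((k + 1) • U b)
        else if n = 4 then ptX ((k + 1) • U c) else if n = 5 then ptY ((k + 1) • U c)
        else if n = 6 then ptX ((k + 1) • U d) else if n = 7 then ptY ((k + 1) • U d)
        else ptX ((k + 1) • U c) * ptX ((k + 1) • U d) / 2 ^ gL C,
        (mulR_iff (smul_U_ne a) _ _ _).mpr (by simp), (mulR_iff (smul_U_ne b) _ _ _).mpr (by simp),
        (mulR_iff (smul_U_ne c) _ _ _).mpr (by simp), (mulR_iff (smul_U_ne d) _ _ _).mpr (by simp),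
        ?_, ?_⟩
      · norm_num
        field_simp
      · norm_num
        exact hS
    · rintro ⟨u, hu1, hu2, hu3, hu4, hu5, hu6⟩
      obtain ⟨e5, -⟩ := (mulR_iff (smul_U_ne a) _ _ _).mp hu1
      obtain ⟨e6, -⟩ := (mulR_iff (smul_U_ne b) _ _ _).mp hu2
      obtain ⟨e7, -⟩ := (mulR_iff (smul_U_ne c) _ _ _).mp hu3
      obtain ⟨e8, -⟩ := (mulR_iff (smul_U_ne d) _ _ _).mp hu4
      have e9 : u 8 = ptX ((k + 1) • U c) * ptX ((k + 1) • U d) / 2 ^ gL C := by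
        rw [eq_div_iff hp, ← e7, ← e8, ← hu5, mul_comm]
      rw [e5, e6, e9] at hu6
      exact hu6
  constructor
  · rintro ⟨a, b, c, d, c1, c2, c3, c4, hS⟩
    exact ⟨⟨a, c1⟩, ⟨b, c2⟩, ⟨c, c3⟩, ⟨d, c4⟩, (key a b c d c1 c2 c3 c4).mp hS⟩
  · rintro ⟨⟨a, c1⟩, ⟨b, c2⟩, ⟨c, c3⟩, ⟨d, c4⟩, hu⟩
    exact ⟨a, b, c, d, c1, c2, c3, c4, (key a b c d c1 c2 c3 c4).mpr hu⟩

/-! ### addition -/

lemma U_add_T_ne (a : ℤ) : U a + T ≠ 0 := by
  intro h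
  have h1 : U a = -T := by rwa [add_eq_zero_iff_eq_neg] at h
  rw [neg_T] at h1
  exact not_O_T (h1 ▸ isO_U a)

lemma U_add_T_add_ne (a b : ℤ) : U a + T + U b ≠ 0 := by
  intro h
  apply not_E_T
  refine ⟨-((a + b + 1) • G), ?_⟩
  have h1 : U a + U b = (a + b + 1) • G + (a + b + 1) • G := by
    rw [U, U, ← add_smul, ← add_smul]
    congr 1
    ring
  have h2 : U a + U b + T = 0 := by rw [← h]; abel
  rw [h1] at h2
  have h3 := add_eq_zero_iff_eq_neg.mp h2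
  calc T = -(-T) := by rw [neg_neg]
    _ = _ := by rw [← h3]; abel

theorem dh_sum {x1 y1 x2 y2 x3 y3 x4 y4 : (ℕ → ℚ) → ℚ} (h1 : PF x1) (k1 : PF y1) (h2 : PF x2)
    (k2 : PF y2) (h3 : PF x3) (k3 : PF y3) (h4 : PF x4) (k4 : PF y4) :
    DH C (fun _ v => ∃ a b c d : ℤ, Cd (x1 v) (y1 v) a ∧ Cd (x2 v) (y2 v) b ∧
      Cd (x3 v) (y3 v) c ∧ Cd (x4 v) (y4 v) d ∧ a + b = c + d) := by
  have h : DH C (fun R v => (∃ n : ℤ, Cd (x1 v) (y1 v) n) ∧ (∃ n : ℤ, Cd (x2 v) (y2 v) n) ∧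
      (∃ n : ℤ, Cd (x3 v) (y3 v) n) ∧ (∃ n : ℤ, Cd (x4 v) (y4 v) n) ∧
      ∃ u : ℕ → ℚ, Col (x1 v) (y1 v) 0 0 (u 0) (- u 1) ∧
        Col (u 0) (u 1) (x2 v) (y2 v) (u 2) (- u 3) ∧
        Col (x3 v) (y3 v) 0 0 (u 4) (- u 5) ∧
        Col (u 4) (u 5) (x4 v) (y4 v) (u 2) (- u 3)) := by
    refine (dh_code h1 k1).and ((dh_code h2 k2).and ((dh_code h3 k3).and
      ((dh_code h4 k4).and (DH.exs ?_))))
    refine (dh_col h1.ev k1.ev PF.zero PF.zero (PF.od 0) (PF.od 1).neg).and ?_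
    refine (dh_col (PF.od 0) (PF.od 1) h2.ev k2.ev (PF.od 2) (PF.od 3).neg).and ?_
    refine (dh_col h3.ev k3.ev PF.zero PF.zero (PF.od 4) (PF.od 5).neg).and ?_
    exact dh_col (PF.od 4) (PF.od 5) h4.ev k4.ev (PF.od 2) (PF.od 3).neg
  refine h.congr fun R hR v => ?_
  have key : ∀ a b c d : ℤ, Cd (x1 v) (y1 v) a → Cd (x2 v) (y2 v) b → Cd (x3 v) (y3 v) c →
      Cd (x4 v) (y4 v) d → (a + b = c + d ↔
      ∃ u : ℕ → ℚ, Col (x1 v) (y1 v) 0 0 (u 0) (- u 1) ∧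
        Col (u 0) (u 1) (x2 v) (y2 v) (u 2) (- u 3) ∧
        Col (x3 v) (y3 v) 0 0 (u 4) (- u 5) ∧
        Col (u 4) (u 5) (x4 v) (y4 v) (u 2) (- u 3)) := by
    rintro a b c d ⟨e1, f1⟩ ⟨e2, f2⟩ ⟨e3, f3⟩ ⟨e4, f4⟩
    rw [e1, f1, e2, f2, e3, f3, e4, f4]
    have hT : ∀ (P : Pt) (hP : P ≠ 0) (x y : ℚ), Col (ptX P) (ptY P) 0 0 x (-y) ↔
        P + T ≠ 0 ∧ x = ptX (P + T) ∧ y = ptY (P + T) := by
      intro P hP x y
      have := col_add_iff hP T_ne x y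
      rwa [ptX_T, ptY_T] at this
    constructor
    · intro hS
      have hab : U a + T + U b = U c + T + U d := by
        have : U a + U b = U c + U d := by
          rw [U, U, U, U, ← add_smul, ← add_smul]
          congr 1
          linarith
        calc U a + T + U b = U a + U b + T := by abel
          _ = U c + U d + T := by rw [this]
          _ = _ := by abel
      refine ⟨fun n => if n = 0 then ptX (U a + T) else if n = 1 then ptY (U a + T)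
        else if n = 2 then ptX (U a + T + U b) else if n = 3 then ptY (U a + T + U b)
        else if n = 4 then ptX (U c + T) else ptY (U c + T), ?_, ?_, ?_, ?_⟩
      · rw [hT _ (U_ne a)]
        exact ⟨U_add_T_ne a, by simp, by simp⟩
      · have := (col_add_iff (U_add_T_ne a) (U_ne b) (ptX (U a + T + U b))
          (ptY (U a + T + U b))).mpr ⟨U_add_T_add_ne a b, rfl, rfl⟩
        simpa using this
      · rw [hT _ (U_ne c)]
        exact ⟨U_add_T_ne c, by simp, by simp⟩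
      · have := (col_add_iff (U_add_T_ne c) (U_ne d) (ptX (U c + T + U d))
          (ptY (U c + T + U d))).mpr ⟨U_add_T_add_ne c d, rfl, rfl⟩
        rw [← hab] at this
        simpa using this
    · rintro ⟨u, hu1, hu2, hu3, hu4⟩
      rw [hT _ (U_ne a)] at hu1
      rw [hT _ (U_ne c)] at hu3
      obtain ⟨-, g1, g2⟩ := hu1
      obtain ⟨-, g3, g4⟩ := hu3
      rw [g1, g2, col_add_iff (U_add_T_ne a) (U_ne b)] at hu2
      rw [g3, g4, col_add_iff (U_add_T_ne c) (U_ne d)] at hu4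
      have h5 : U a + T + U b = U c + T + U d :=
        pt_ext hu2.1 hu4.1 (hu2.2.1.symm.trans hu4.2.1) (hu2.2.2.symm.trans hu4.2.2)
      have h6 : U a + U b = U c + U d := by
        have h7 : U a + U b + T = U c + U d + T := by
          calc U a + U b + T = U a + T + U b := by abel
            _ = _ := by rw [h5]; abel
        exact add_right_cancel h7
      rw [U, U, U, U, ← add_smul, ← add_smul] at h6
      have h8 : ((2 * a + 1 + (2 * b + 1)) - (2 * c + 1 + (2 * d + 1))) • G = 0 := by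
        rw [sub_smul, h6, sub_self]
      have := zsmul_G h8
      linarith
  constructor
  · rintro ⟨a, b, c, d, c1, c2, c3, c4, hS⟩
    exact ⟨⟨a, c1⟩, ⟨b, c2⟩, ⟨c, c3⟩, ⟨d, c4⟩, (key a b c d c1 c2 c3 c4).mp hS⟩
  · rintro ⟨⟨a, c1⟩, ⟨b, c2⟩, ⟨c, c3⟩, ⟨d, c4⟩, hu⟩
    exact ⟨a, b, c, d, c1, c2, c3, c4, (key a b c d c1 c2 c3 c4).mpr hu⟩

end Pool.Agent.TH255.HC
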