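import Pool.Agent.TH255.HC.Descent
import Pool.Agent.TH942.FG

/-!
# The points whose first coordinate is minus a square are the odd multiples of one point
-/

set_option autoImplicit false

open WeierstrassCurve

namespace Pool.Agent.TH255.HC

open Pool.Agent.TH942

theorem exists_gen : ∃ G : Pt, IsO G ∧ (∀ n : ℤ, n • G = 0 → n = 0) ∧
    ∀ Q, IsO Q ↔ ∃ n : ℤ, Q = (2 * n + 1) • G := by
  classical
  have hfg0 : AddGroup.FG Pt := sfg hD
  have hfg : AddGroup.FG A0 := fg_of_inj A0.subtype A0.subtype_injective hfg0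
  have hfin : Module.Finite ℤ A0 := by rwa [Module.Finite.iff_addGroup_fg]
  have htf : IsAddTorsionFree A0 := ⟨fun n hn a b hab => by
    have h1 : n • (a - b) = 0 := by
      have : n • a = n • b := hab
      rw [smul_sub, this, sub_self]
    have h2 : n • ((a - b : A0) : Pt) = 0 := by
      have := congrArg (fun z : A0 => (z : Pt)) h1
      simpa using this
    have h3 := A0_tors (a - b).2 hn h2
    have h4 : a - b = 0 := Subtype.ext h3
    exact sub_eq_zero.mp h4⟩
  let b := Module.Free.chooseBasis ℤ A0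
  have hndbl : ∀ (i : Module.Free.ChooseBasisIndex ℤ A0) (c : A0), b.repr c i = 1 →
      ¬ IsE (c : Pt) := by
    intro i c hc hE
    obtain ⟨R, hR, h1⟩ := E_A0 hE
    have h2 : c = (⟨R, hR⟩ : A0) + ⟨R, hR⟩ := Subtype.ext h1
    rw [h2, map_add, Finsupp.add_apply] at hc
    omega
  have hO : ∀ (i : Module.Free.ChooseBasisIndex ℤ A0) (c : A0), b.repr c i = 1 →
      IsO (c : Pt) := fun i c hc => c.2.resolve_left (hndbl i c hc)
  have hone : ∀ i j : Module.Free.ChooseBasisIndex ℤ A0, i = j := by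
    intro i j
    by_contra hij
    have h1 : IsO ((b i : A0) : Pt) := hO i (b i) (by simp)
    have h2 : IsO ((b j : A0) : Pt) := hO j (b j) (by simp)
    have h3 : IsE ((b i + b j : A0) : Pt) := by
      obtain ⟨R, hR⟩ := (isO_iff _).mp h1
      obtain ⟨S, hS⟩ := (isO_iff _).mp h2
      refine ⟨PP + (R + S), ?_⟩
      rw [AddSubgroup.coe_add, hR, hS]
      abel
    apply hndbl i (b i + b j) _ h3
    rw [map_add, Finsupp.add_apply]
    simp [Ne.symm hij]
  have hne : Nonempty (Module.Free.ChooseBasisIndex ℤ A0) := by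
    by_contra hne
    rw [not_nonempty_iff] at hne
    have h1 : ∀ c : A0, c = 0 := by
      intro c
      apply b.repr.injective
      ext i
      exact (hne.false i).elim
    have h2 := h1 ⟨PP, Or.inr isO_PP⟩
    exact PP_ne (congrArg (fun z : A0 => (z : Pt)) h2)
  obtain ⟨i0⟩ := hne
  have hgen : ∀ c : A0, c = b.repr c i0 • b i0 := by
    intro c
    apply b.repr.injective
    ext i
    rw [hone i i0]
    simp
  have hG : IsO ((b i0 : A0) : Pt) := hO i0 (b i0) (by simp)
  refine ⟨(b i0 : A0), hG, ?_, ?_⟩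
  · intro n hn
    have h1 : n • b i0 = 0 := Subtype.ext (by simpa using hn)
    have h2 := congrArg (fun z => b.repr z i0) h1
    simpa using h2
  · intro Q
    constructor
    · intro hQ
      have h1 := hgen ⟨Q, Or.inr hQ⟩
      set m := b.repr ⟨Q, Or.inr hQ⟩ i0
      have h2 : Q = m • ((b i0 : A0) : Pt) := by
        have := congrArg (fun z : A0 => (z : Pt)) h1
        simpa using this
      rcases Int.even_or_odd' m with ⟨k, hk | hk⟩
      · exfalso
        apply not_E_of_O hQ
        refine ⟨k • ((b i0 : A0) : Pt), ?_⟩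
        rw [h2, hk, ← add_smul]
        congr 1
        ring
      · exact ⟨k, by rw [h2, hk]⟩
    · rintro ⟨n, rfl⟩
      obtain ⟨R, hR⟩ := (isO_iff _).mp hG
      rw [isO_iff]
      refine ⟨R + n • ((b i0 : A0) : Pt), ?_⟩
      have h3 : (2 * n + 1) • ((b i0 : A0) : Pt) =
          ((b i0 : A0) : Pt) + (n • ((b i0 : A0) : Pt) + n • ((b i0 : A0) : Pt)) := by
        rw [add_smul, one_smul, two_mul, add_smul]
        abel
      rw [h3]
      nth_rewrite 1 [hR]
      abel

/-- a generator -/
noncomputable def G : Pt := exists_gen.choose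

lemma isO_G : IsO G := exists_gen.choose_spec.1
lemma zsmul_G {n : ℤ} (h : n • G = 0) : n = 0 := exists_gen.choose_spec.2.1 n h
lemma isO_iff_G (Q : Pt) : IsO Q ↔ ∃ n : ℤ, Q = (2 * n + 1) • G := exists_gen.choose_spec.2.2 Q

/-- the point which stands for the integer `n` -/
noncomputable def U (n : ℤ) : Pt := (2 * n + 1) • G

lemma isO_U (n : ℤ) : IsO (U n) := (isO_iff_G _).mpr ⟨n, rfl⟩
lemma U_ne (n : ℤ) : U n ≠ 0 := (isO_U n).1

lemma U_inj {m n : ℤ} (h : U m = U n) : m = n := by
  have h1 : ((2 * m + 1) - (2 * n + 1)) • G = 0 := by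
    rw [sub_smul]
    exact sub_eq_zero.mpr h
  have := zsmul_G h1
  omega

lemma U_zero : U 0 = G := by simp [U]

lemma U_neg (n : ℤ) : -U n = U (-n - 1) := by
  rw [U, U, ← neg_smul]
  congr 1
  ring

lemma isO_iff_U (Q : Pt) : IsO Q ↔ ∃ n : ℤ, Q = U n := isO_iff_G Q

end Pool.Agent.TH255.HC
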