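import Pool.Agent.TH255.HC.Gen
import Pool.Agent.TH255.HC.Frame

/-!
# Heights of the odd multiples of the generator and of their products
-/

set_option autoImplicit false

open WeierstrassCurve Height

namespace Pool.Agent.TH255.HC

open Pool.Agent.TH942
open Pool.Agent.H528R2 (Vge vge_int vge_nat vge_ofNat vge_one val_add val_sub val_mul val_div
  val_inv val_pow ne_zero_of_val)

/-! ### the height on `ℚ` -/

lemma H_cast (x : ℚ) : ((H x : ℕ) : ℝ) = mulHeight₁ x := by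
  rw [Rat.mulHeight₁_eq_max, H]

lemma H_pos (x : ℚ) : 0 < H x := lt_of_lt_of_le x.den_pos (le_max_right _ _)

lemma H_mul_le (x y : ℚ) : H (x * y) ≤ H x * H y := by
  have h := mulHeight₁_mul_le x y
  rw [← H_cast, ← H_cast, ← H_cast] at h
  exact_mod_cast h

lemma den_le_H (x : ℚ) : x.den ≤ H x := le_max_right _ _

lemma H_sq_le {x : ℚ} (h : x ^ 2 ≤ 2) : H x ^ 2 ≤ 2 * x.den ^ 2 := by
  have hd : (0 : ℚ) < x.den := by exact_mod_cast x.den_pos
  have h1 : x.num.natAbs ^ 2 ≤ 2 * x.den ^ 2 := by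
    have h2 : ((x.num.natAbs : ℕ) : ℚ) ^ 2 = (x.num : ℚ) ^ 2 := by
      rw [Nat.cast_natAbs]
      push_cast
      rw [sq_abs]
    have h3 : (x.num : ℚ) = x * x.den := (Rat.mul_den_eq_num x).symm
    have h4 : ((x.num.natAbs : ℕ) : ℚ) ^ 2 ≤ 2 * (x.den : ℚ) ^ 2 := by
      rw [h2, h3]
      nlinarith [sq_nonneg (x.den : ℚ)]
    exact_mod_cast h4
  unfold H
  rcases max_cases x.num.natAbs x.den with ⟨h5, -⟩ | ⟨h5, -⟩
  · rw [h5]; exact h1
  · rw [h5]; nlinarith [sq_nonneg x.den]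

/-! ### multiples -/

lemma sht_eq {P : Pt} (hP : P ≠ 0) : sht P = Real.log (H (ptX P)) := by
  obtain ⟨x, y, h, rfl⟩ := exists_some hP
  rw [sht, Affine.Point.xRep_some, ← logHeight₁_eq_logHeight, Rat.logHeight₁_eq_log_max, ptX_some,
    H]

theorem ht_mult : ∃ c K : ℝ, 0 < c ∧ 0 ≤ K ∧ ∀ n : ℤ, n ≠ 0 →
    |Real.log (H (ptX (n • G))) - c * (n : ℝ) ^ 2| ≤ K := by
  obtain ⟨C, hC0, hC⟩ := spar_law (K := ℚ) hD
  obtain ⟨q, K, hq1, hq2, hq3⟩ := H437R2.Man.MW.canon (fun P : Pt => sht P) C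
    (fun P => sht_nonneg P) hC
  obtain ⟨B, hB, -⟩ := H437R2.Man.MW.polar q hq3
  have hqn : ∀ n : ℤ, q (n • G) = (n : ℝ) ^ 2 * q G := by
    intro n
    rw [← hB, ← hB, map_zsmul, map_zsmul, AddMonoidHom.zsmul_apply, zsmul_eq_mul, zsmul_eq_mul]
    ring
  have hpos : 0 < q G := by
    rcases (hq2 G).eq_or_lt with h0 | h0
    · exfalso
      have hfin := sfinite_ht (K := ℚ) (a := -2) (b := 0) K
      have hmem : ∀ n : ℤ, n • G ∈ {P : Pt | sht P ≤ K} := by
        intro n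
        have h4 := hq1 (n • G)
        rw [hqn, ← h0, mul_zero, zero_sub, abs_neg] at h4
        exact (le_abs_self _).trans h4
      have hinj : Function.Injective (fun n : ℤ => n • G) := by
        intro a b hab
        have h1 : (a - b) • G = 0 := by
          rw [sub_smul]; exact sub_eq_zero.mpr hab
        have := zsmul_G h1
        omega
      have : Set.Infinite (Set.range (fun n : ℤ => n • G)) := Set.infinite_range_of_injective hinj
      exact this (hfin.subset (by rintro _ ⟨n, rfl⟩; exact hmem n))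
    · exact h0
  refine ⟨q G, K, hpos, (abs_nonneg _).trans (hq1 0), fun n hn => ?_⟩
  have hne : n • G ≠ 0 := fun h => hn (zsmul_G h)
  rw [← sht_eq hne]
  have := hq1 (n • G)
  rw [hqn, abs_sub_comm] at this
  rw [mul_comm]
  exact this

/-! ### no cancellation -/

lemma odd_smul_T (n : ℤ) : (2 * n + 1) • T = T := by
  have h : (2 : ℤ) • T = 0 := by rw [two_smul]; exact T_add_T
  rw [add_smul, one_smul, mul_comm, mul_smul, h, smul_zero, zero_add]

lemma InK_neg {p : ℕ} {P : Pt} (h : Formal.InK p P) : Formal.InK p (-P) := by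
  rcases h with h | h
  · left; rw [h, neg_zero]
  · right; rwa [ptX_neg]

lemma InK_smul {p : ℕ} (hp : p.Prime) {P : Pt} (h : padicValRat p (ptX P) < 0) {k : ℤ}
    (hk : k ≠ 0) : Formal.InK p (k • P) := by
  right
  rw [(pole_smul hp h hk).2]
  omega

lemma no_cancel {P Q : Pt} (hP : IsO P) (hQ : IsO Q) {p : ℕ} (hp : p.Prime)
    (h1 : 0 < padicValRat p (ptX P)) (h2 : padicValRat p (ptX Q) < 0) : False := by
  have := Fact.mk hp
  have hPT : P ≠ T := by rintro rfl; exact not_O_T hP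
  obtain ⟨h3, h4, -⟩ := ptX_add_T hP.1 hPT
  obtain ⟨-, r, hr, hr'⟩ := hP
  have hX : ptX P ≠ 0 := by
    intro h0; rw [h0] at h1; simp at h1
  have h5 : padicValRat p (ptX (P + T)) < 0 := by
    rw [h4, val_div hp (by norm_num) hX, padicValRat.neg]
    by_cases hp2 : p = 2
    · subst hp2
      have hv2 : padicValRat 2 (2 : ℚ) = 1 := by
        have := padicValRat.self (p := 2) (by norm_num)
        exact_mod_cast this
      have h6 : padicValRat 2 (ptX P) = 2 * padicValRat 2 r := by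
        rw [hr', padicValRat.neg, val_pow hp]; norm_num
      rw [hv2]
      omega
    · rw [val_two hp hp2]
      omega
  obtain ⟨m, hm⟩ := (isO_iff_G P).mp ⟨fun h0 => hX (by rw [h0]; rfl), r, hr, hr'⟩
  obtain ⟨n, hn⟩ := (isO_iff_G Q).mp hQ
  have k1 : Formal.InK p ((2 * n + 1) • (P + T)) := InK_smul hp h5 (by omega)
  have k2 : Formal.InK p (-((2 * m + 1) • Q)) := InK_neg (InK_smul hp h2 (by omega))
  have k3 := k1.add k2
  have k4 : (2 * n + 1) • (P + T) + -((2 * m + 1) • Q) = T := by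
    rw [smul_add, odd_smul_T, hm, hn, ← mul_smul, ← mul_smul, mul_comm (2 * n + 1) (2 * m + 1)]
    abel
  rw [k4] at k3
  rcases k3 with k3 | k3
  · exact T_ne k3
  · simp at k3

lemma coprime_O {P Q : Pt} (hP : IsO P) (hQ : IsO Q) :
    Nat.Coprime (ptX P).num.natAbs (ptX Q).den := by
  by_contra hc
  obtain ⟨p, hp, hp1, hp2⟩ := Nat.Prime.not_coprime_iff_dvd.mp hc
  have := Fact.mk hp
  obtain ⟨hP0, r, hr, hr'⟩ := hP
  have hX : ptX P ≠ 0 := by
    rw [hr']; exact neg_ne_zero.mpr (pow_ne_zero 2 hr)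
  refine no_cancel ⟨hP0, r, hr, hr'⟩ hQ hp ?_ ?_
  · rw [padicValRat_def]
    have h1 : padicValNat p (ptX P).den = 0 := by
      apply padicValNat.eq_zero_of_not_dvd
      intro h
      exact (Nat.Prime.not_coprime_iff_dvd.mpr ⟨p, hp, hp1, h⟩) (ptX P).reduced
    have h2 : 1 ≤ padicValNat p (ptX P).num.natAbs :=
      one_le_padicValNat_of_dvd (Int.natAbs_ne_zero.mpr (Rat.num_ne_zero.mpr hX)) hp1
    rw [padicValInt, h1]
    omega
  · rw [padicValRat_def]
    have h1 : padicValNat p (ptX Q).num.natAbs = 0 := by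
      apply padicValNat.eq_zero_of_not_dvd
      intro h
      exact (Nat.Prime.not_coprime_iff_dvd.mpr ⟨p, hp, h, hp2⟩) (ptX Q).reduced
    have h2 : 1 ≤ padicValNat p (ptX Q).den :=
      one_le_padicValNat_of_dvd (ptX Q).den_nz hp2
    rw [padicValInt, h1]
    omega

lemma coprime_prod {P Q : Pt} (hP : IsO P) (hQ : IsO Q) :
    Nat.Coprime ((ptX P).num * (ptX Q).num).natAbs ((ptX P).den * (ptX Q).den) := by
  rw [Int.natAbs_mul]
  apply Nat.Coprime.mul_left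
  · exact Nat.Coprime.mul_right (ptX P).reduced (coprime_O hP hQ)
  · exact Nat.Coprime.mul_right (coprime_O hQ hP) (ptX Q).reduced

lemma den_prod {P Q : Pt} (hP : IsO P) (hQ : IsO Q) :
    (ptX P * ptX Q).den = (ptX P).den * (ptX Q).den := by
  rw [Rat.mul_den, coprime_prod hP hQ, Nat.div_one]

lemma num_prod {P Q : Pt} (hP : IsO P) (hQ : IsO Q) :
    (ptX P * ptX Q).num = (ptX P).num * (ptX Q).num := by
  rw [Rat.mul_num, coprime_prod hP hQ]
  simp

lemma sq_le_two {P : Pt} (hP : IsO P) : ptX P ^ 2 ≤ 2 := by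
  obtain ⟨h0, r, hr, h⟩ := hP
  have e := pt_eq h0
  have h1 : 0 ≤ ptX P * (ptX P ^ 2 - 2) := by
    have := sq_nonneg (ptY P)
    rw [e] at this
    linarith
  have h2 : ptX P < 0 := by
    have : 0 < r ^ 2 := by positivity
    linarith
  by_contra h3
  push Not at h3
  have : ptX P * (ptX P ^ 2 - 2) < 0 := mul_neg_of_neg_of_pos h2 (by linarith)
  linarith

lemma H_prod_ge {P Q : Pt} (hP : IsO P) (hQ : IsO Q) :
    H (ptX P) * H (ptX Q) ≤ 2 * (ptX P * ptX Q).den := by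
  rw [den_prod hP hQ]
  have h1 := H_sq_le (sq_le_two hP)
  have h2 := H_sq_le (sq_le_two hQ)
  have h3 : (H (ptX P) * H (ptX Q)) ^ 2 ≤ (2 * ((ptX P).den * (ptX Q).den)) ^ 2 := by
    calc (H (ptX P) * H (ptX Q)) ^ 2 = H (ptX P) ^ 2 * H (ptX Q) ^ 2 := by ring
      _ ≤ (2 * (ptX P).den ^ 2) * (2 * (ptX Q).den ^ 2) := Nat.mul_le_mul h1 h2
      _ = _ := by ring
  exact (Nat.pow_le_pow_iff_left two_ne_zero).mp h3

lemma val2_O {P : Pt} (hP : IsO P) : ¬ 0 < padicValRat 2 (ptX P) := by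
  intro h
  obtain ⟨h0, r, hr, h1⟩ := hP
  have h2 : Nat.Prime 2 := Nat.prime_two
  have hX : ptX P ≠ 0 := by
    rw [h1]; exact neg_ne_zero.mpr (pow_ne_zero 2 hr)
  have hv2 : padicValRat 2 (2 : ℚ) = 1 := by
    have := padicValRat.self (p := 2) (by norm_num)
    exact_mod_cast this
  have h3 : padicValRat 2 (ptX P) = 2 * padicValRat 2 r := by
    rw [h1, padicValRat.neg, val_pow h2]; norm_num
  obtain ⟨h5, h6⟩ := val_sub h2 (x := 2) (y := ptX P ^ 2) two_ne_zero (by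
    rw [hv2]; right; rw [val_pow h2]; push_cast; omega)
  have e := pt_eq h0
  have e1 : ptY P ^ 2 = -(ptX P * (2 - ptX P ^ 2)) := by rw [e]; ring
  have e2 := congrArg (padicValRat 2) e1
  rw [padicValRat.neg, val_mul h2 hX h5, h6, hv2, val_pow h2] at e2
  push_cast at e2
  omega

lemma odd_num {P : Pt} (hP : IsO P) : ¬ 2 ∣ (ptX P).num.natAbs := by
  intro hd
  apply val2_O hP
  have hX : ptX P ≠ 0 := by
    obtain ⟨-, r, hr, h1⟩ := hP
    rw [h1]; exact neg_ne_zero.mpr (pow_ne_zero 2 hr)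
  have := Fact.mk Nat.prime_two
  rw [padicValRat_def]
  have h1 : padicValNat 2 (ptX P).den = 0 := by
    apply padicValNat.eq_zero_of_not_dvd
    intro h
    exact (Nat.Prime.not_coprime_iff_dvd.mpr ⟨2, Nat.prime_two, hd, h⟩) (ptX P).reduced
  have h2 : 1 ≤ padicValNat 2 (ptX P).num.natAbs :=
    one_le_padicValNat_of_dvd (Int.natAbs_ne_zero.mpr (Rat.num_ne_zero.mpr hX)) hd
  rw [padicValInt, h1]
  omega

/-- dividing the product by a power of `2` -/
lemma div_pow_two {P Q : Pt} (hP : IsO P) (hQ : IsO Q) (L : ℕ) :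
    2 ^ L * (ptX P * ptX Q).den ≤ H (ptX P * ptX Q / 2 ^ L) ∧
      H (ptX P * ptX Q / 2 ^ L) ≤ 2 ^ L * H (ptX P * ptX Q) := by
  set x := ptX P * ptX Q with hx
  have hodd : ¬ 2 ∣ x.num.natAbs := by
    rw [hx, num_prod hP hQ, Int.natAbs_mul]
    intro h
    rcases (Nat.Prime.dvd_mul Nat.prime_two).mp h with h | h
    · exact odd_num hP h
    · exact odd_num hQ h
  have h1 : x / 2 ^ L = ((x.num : ℤ) : ℚ) / (((x.den : ℤ) * 2 ^ L : ℤ) : ℚ) := by
    have hd : (x.den : ℚ) ≠ 0 := by exact_mod_cast x.den_nz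
    push_cast
    rw [← div_div]
    congr 1
    exact (Rat.num_div_den x).symm
  have hpos : (0 : ℤ) < (x.den : ℤ) * 2 ^ L := by
    have : (0 : ℤ) < x.den := by exact_mod_cast x.den_pos
    positivity
  have hcop : Nat.Coprime x.num.natAbs ((x.den : ℤ) * 2 ^ L).natAbs := by
    rw [Int.natAbs_mul, Int.natAbs_pow, Int.natAbs_natCast]
    apply Nat.Coprime.mul_right x.reduced
    apply Nat.Coprime.pow_right
    have h2 : ((2 : ℤ).natAbs) = 2 := rfl
    rw [h2, Nat.coprime_comm, Nat.Prime.coprime_iff_not_dvd Nat.prime_two]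
    exact hodd
  have hnum : (x / 2 ^ L).num = x.num := by
    rw [h1]; exact Rat.num_div_eq_of_coprime hpos hcop
  have hden : (x / 2 ^ L).den = x.den * 2 ^ L := by
    have := Rat.den_div_eq_of_coprime hpos hcop
    rw [← h1] at this
    exact_mod_cast this
  constructor
  · refine le_trans (le_of_eq ?_) (den_le_H _)
    rw [hden, mul_comm]
  · unfold H
    rw [hnum, hden]
    apply max_le
    · calc x.num.natAbs ≤ max x.num.natAbs x.den := le_max_left _ _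
        _ ≤ 2 ^ L * max x.num.natAbs x.den := Nat.le_mul_of_pos_left _ (by positivity)
    · rw [mul_comm]
      exact Nat.mul_le_mul_left _ (le_max_right _ _)

/-- the quadratic form compared by the gadget -/
def S2 (a b : ℤ) : ℤ := (2 * a + 1) ^ 2 + (2 * b + 1) ^ 2

lemma isO_smul (κ : ℕ) (hκ : Odd κ) (a : ℤ) : IsO (κ • U a) := by
  obtain ⟨k, rfl⟩ := hκ
  rw [isO_iff_G]
  refine ⟨2 * k * a + k + a, ?_⟩
  rw [U, ← natCast_zsmul, ← mul_smul]
  congr 1
  push_cast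
  ring

/-- the exponent of the error term, made nonnegative -/
noncomputable def Tol.e (τ : Tol) : ℝ := max τ.δ 0

lemma Tol.e_nonneg (τ : Tol) : 0 ≤ τ.e := le_max_right _ _
lemma Tol.e_lt (τ : Tol) : τ.e < 1 / 2 := max_lt τ.hδ (by norm_num)

lemma S2_ge (a b : ℤ) : 2 ≤ S2 a b := by
  unfold S2
  have h1 : 1 ≤ (2 * a + 1) ^ 2 := by
    have : (2 * a + 1) ≠ 0 := by omega
    have := Int.one_le_abs this
    nlinarith [sq_abs (2 * a + 1), abs_nonneg (2 * a + 1)]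
  have h2 : 1 ≤ (2 * b + 1) ^ 2 := by
    have : (2 * b + 1) ≠ 0 := by omega
    have := Int.one_le_abs this
    nlinarith [sq_abs (2 * b + 1), abs_nonneg (2 * b + 1)]
  linarith

lemma log_H_nonneg (x : ℚ) : 0 ≤ Real.log (H x) := Real.log_natCast_nonneg _

/-- bound for the error term -/
lemma err_le (τ : Tol) {t B κ S : ℝ} (ht : 0 ≤ t) (hB : 1 ≤ B) (hκ : 1 ≤ κ) (hS : 1 ≤ S)
    (h : 1 + t ≤ B * κ ^ 2 * S) :
    τ.A * (1 + t) ^ τ.δ ≤ |τ.A| * B * κ * S ^ τ.e := by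
  have h1 : (1 : ℝ) ≤ 1 + t := by linarith
  have h2 : (1 + t) ^ τ.δ ≤ (1 + t) ^ τ.e := Real.rpow_le_rpow_of_exponent_le h1 (le_max_left _ _)
  have h3 : (0 : ℝ) ≤ (1 + t) ^ τ.δ := Real.rpow_nonneg (by linarith) _
  have h4 : (1 + t) ^ τ.e ≤ (B * κ ^ 2 * S) ^ τ.e :=
    Real.rpow_le_rpow (by linarith) h τ.e_nonneg
  have h5 : (B * κ ^ 2 * S) ^ τ.e = B ^ τ.e * (κ ^ 2) ^ τ.e * S ^ τ.e := by
    rw [Real.mul_rpow (by positivity) (by positivity), Real.mul_rpow (by positivity)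
      (by positivity)]
  have h6 : B ^ τ.e ≤ B := by
    have := Real.rpow_le_rpow_of_exponent_le hB (show τ.e ≤ 1 by linarith [τ.e_lt])
    rwa [Real.rpow_one] at this
  have h7 : (κ ^ 2) ^ τ.e ≤ κ := by
    have e1 : (κ ^ 2) ^ τ.e = κ ^ (2 * τ.e) := by
      rw [← Real.rpow_natCast κ 2, ← Real.rpow_mul (by linarith)]
      norm_num
    rw [e1]
    have := Real.rpow_le_rpow_of_exponent_le hκ (show 2 * τ.e ≤ 1 by linarith [τ.e_lt])
    rwa [Real.rpow_one] at this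
  have h8 : (0 : ℝ) ≤ S ^ τ.e := Real.rpow_nonneg (by linarith) _
  calc τ.A * (1 + t) ^ τ.δ ≤ |τ.A| * (1 + t) ^ τ.δ :=
        mul_le_mul_of_nonneg_right (le_abs_self _) h3
    _ ≤ |τ.A| * (B ^ τ.e * (κ ^ 2) ^ τ.e * S ^ τ.e) := by
        rw [← h5]
        exact mul_le_mul_of_nonneg_left (h2.trans h4) (abs_nonneg _)
    _ ≤ |τ.A| * (B * κ * S ^ τ.e) := by
        apply mul_le_mul_of_nonneg_left _ (abs_nonneg _)
        apply mul_le_mul_of_nonneg_right _ h8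
        exact mul_le_mul h6 h7 (Real.rpow_nonneg (by positivity) _) (by linarith)
    _ = _ := by ring

/-- the numerical form of the gadget -/
theorem gadget (τ : Tol) : ∃ L κ : ℕ, Odd κ ∧ ∀ a b c d : ℤ,
    (S2 a b ≤ S2 c d → τ.C * H (ptX (κ • U a) * ptX (κ • U b)) ≤
      H (ptX (κ • U c) * ptX (κ • U d) / 2 ^ L)) ∧
    (Real.log (H (ptX (κ • U a) * ptX (κ • U b))) ≤
      Real.log (H (ptX (κ • U c) * ptX (κ • U d) / 2 ^ L)) +
        τ.A * (1 + Real.log (H (ptX (κ • U c) * ptX (κ • U d) / 2 ^ L))) ^ τ.δ →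
      (S2 a b : ℝ) ≤ S2 c d + (S2 c d : ℝ) ^ τ.e) := by
  obtain ⟨c₀, K, hc, hK, hht⟩ := ht_mult
  obtain ⟨L, hL⟩ := pow_unbounded_of_one_lt (τ.C * (2 * Real.exp (4 * K))) (one_lt_two (α := ℝ))
  set B : ℝ := 1 + L + 2 * K + c₀ with hB
  have hB1 : 1 ≤ B := by
    have : (0 : ℝ) ≤ L := Nat.cast_nonneg _
    rw [hB]; linarith
  set M0 : ℝ := 4 * K + (L + 1) + |τ.A| * B with hM0
  obtain ⟨N, hN⟩ := exists_nat_gt (M0 / c₀)
  have hκ : Odd (2 * N + 1) := ⟨N, rfl⟩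
  refine ⟨L, 2 * N + 1, hκ, ?_⟩
  set κ := 2 * N + 1 with hκd
  have hκ1 : (1 : ℝ) ≤ κ := by
    rw [hκd]; push_cast
    have : (0 : ℝ) ≤ N := Nat.cast_nonneg _
    linarith
  have hbig : M0 * κ ≤ c₀ * (κ : ℝ) ^ 2 := by
    rw [div_lt_iff₀ hc] at hN
    have h1 : (N : ℝ) ≤ κ := by
      rw [hκd]; push_cast
      have : (0 : ℝ) ≤ N := Nat.cast_nonneg _
      linarith
    have h2 : M0 ≤ c₀ * κ := by nlinarith
    nlinarith
  -- bounds for one point
  have key : ∀ a : ℤ, Real.exp (c₀ * (κ : ℝ) ^ 2 * (2 * a + 1) ^ 2 - K) ≤ H (ptX (κ • U a)) ∧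
      (H (ptX (κ • U a)) : ℝ) ≤ Real.exp (c₀ * (κ : ℝ) ^ 2 * (2 * a + 1) ^ 2 + K) := by
    intro a
    have h1 : κ • U a = ((κ : ℤ) * (2 * a + 1)) • G := by
      rw [U, ← natCast_zsmul, ← mul_smul]
    have h2 := hht ((κ : ℤ) * (2 * a + 1)) (by
      apply mul_ne_zero
      · rw [hκd]; push_cast; omega
      · omega)
    rw [← h1, abs_le] at h2
    have h3 : (0 : ℝ) < H (ptX (κ • U a)) := by exact_mod_cast H_pos _
    have h4 : Real.exp (Real.log (H (ptX (κ • U a)))) = H (ptX (κ • U a)) := Real.exp_log h3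
    have h5 : c₀ * (((κ : ℤ) * (2 * a + 1) : ℤ) : ℝ) ^ 2 = c₀ * (κ : ℝ) ^ 2 * (2 * a + 1) ^ 2 := by
      push_cast; ring
    rw [h5] at h2
    rw [← h4]
    constructor
    · apply Real.exp_le_exp.mpr; linarith [h2.1]
    · apply Real.exp_le_exp.mpr; linarith [h2.2]
  have hup : ∀ a b : ℤ, (H (ptX (κ • U a)) : ℝ) * H (ptX (κ • U b)) ≤
      Real.exp (c₀ * (κ : ℝ) ^ 2 * S2 a b + 2 * K) := by
    intro a b
    calc (H (ptX (κ • U a)) : ℝ) * H (ptX (κ • U b)) ≤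
        Real.exp (c₀ * (κ : ℝ) ^ 2 * (2 * a + 1) ^ 2 + K) *
          Real.exp (c₀ * (κ : ℝ) ^ 2 * (2 * b + 1) ^ 2 + K) :=
          mul_le_mul (key a).2 (key b).2 (by positivity) (by positivity)
      _ = _ := by
        rw [← Real.exp_add]
        congr 1
        simp only [S2]
        push_cast
        ring
  have hlo : ∀ a b : ℤ, Real.exp (c₀ * (κ : ℝ) ^ 2 * S2 a b - 2 * K) ≤
      (H (ptX (κ • U a)) : ℝ) * H (ptX (κ • U b)) := by
    intro a b
    have h1 : Real.exp (c₀ * (κ : ℝ) ^ 2 * S2 a b - 2 * K) =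
        Real.exp (c₀ * (κ : ℝ) ^ 2 * (2 * a + 1) ^ 2 - K) *
          Real.exp (c₀ * (κ : ℝ) ^ 2 * (2 * b + 1) ^ 2 - K) := by
      rw [← Real.exp_add]
      congr 1
      simp only [S2]
      push_cast
      ring
    rw [h1]
    exact mul_le_mul (key a).1 (key b).1 (by positivity) (by positivity)
  intro a b c d
  have hOa := isO_smul κ hκ a
  have hOb := isO_smul κ hκ b
  have hOc := isO_smul κ hκ c
  have hOd := isO_smul κ hκ d
  constructor
  · intro hS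
    have h1 : ((H (ptX (κ • U a) * ptX (κ • U b)) : ℕ) : ℝ) ≤
        (H (ptX (κ • U a)) : ℝ) * H (ptX (κ • U b)) := by exact_mod_cast H_mul_le _ _
    have h2 := hup a b
    have h3 := hlo c d
    have h4 : (H (ptX (κ • U c)) : ℝ) * H (ptX (κ • U d)) ≤
        2 * ((ptX (κ • U c) * ptX (κ • U d)).den : ℝ) := by exact_mod_cast H_prod_ge hOc hOd
    have h5 : (2 : ℝ) ^ L * ((ptX (κ • U c) * ptX (κ • U d)).den : ℝ) ≤
        H (ptX (κ • U c) * ptX (κ • U d) / 2 ^ L) := by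
      exact_mod_cast (div_pow_two hOc hOd L).1
    have h6 : Real.exp (c₀ * (κ : ℝ) ^ 2 * S2 a b + 2 * K) ≤
        Real.exp (4 * K) * Real.exp (c₀ * (κ : ℝ) ^ 2 * S2 c d - 2 * K) := by
      rw [← Real.exp_add]
      apply Real.exp_le_exp.mpr
      have : (S2 a b : ℝ) ≤ S2 c d := by exact_mod_cast hS
      have h7 : c₀ * (κ : ℝ) ^ 2 * S2 a b ≤ c₀ * (κ : ℝ) ^ 2 * S2 c d :=
        mul_le_mul_of_nonneg_left this (by positivity)
      linarith
    have hCn : (0 : ℝ) ≤ τ.C := Nat.cast_nonneg _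
    have h8 : (τ.C : ℝ) * ((H (ptX (κ • U a) * ptX (κ • U b)) : ℕ) : ℝ) ≤
        H (ptX (κ • U c) * ptX (κ • U d) / 2 ^ L) := by
      have hE := Real.exp_pos (4 * K)
      have h9 : Real.exp (4 * K) * Real.exp (c₀ * (κ : ℝ) ^ 2 * S2 c d - 2 * K) ≤
          Real.exp (4 * K) * (2 * ((ptX (κ • U c) * ptX (κ • U d)).den : ℝ)) :=
        mul_le_mul_of_nonneg_left (h3.trans h4) hE.le
      have h10 : (τ.C : ℝ) * (Real.exp (4 * K) *
          (2 * ((ptX (κ • U c) * ptX (κ • U d)).den : ℝ))) ≤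
          (2 : ℝ) ^ L * ((ptX (κ • U c) * ptX (κ • U d)).den : ℝ) := by
        have h11 : (0 : ℝ) ≤ ((ptX (κ • U c) * ptX (κ • U d)).den : ℝ) := Nat.cast_nonneg _
        calc (τ.C : ℝ) * (Real.exp (4 * K) * (2 * ((ptX (κ • U c) * ptX (κ • U d)).den : ℝ))) =
              (τ.C * (2 * Real.exp (4 * K))) * ((ptX (κ • U c) * ptX (κ • U d)).den : ℝ) := by ring
          _ ≤ _ := mul_le_mul_of_nonneg_right hL.le h11
      have h12 : (τ.C : ℝ) * ((H (ptX (κ • U a) * ptX (κ • U b)) : ℕ) : ℝ) ≤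
          τ.C * (Real.exp (4 * K) * (2 * ((ptX (κ • U c) * ptX (κ • U d)).den : ℝ))) :=
        mul_le_mul_of_nonneg_left (h1.trans (h2.trans (h6.trans h9))) hCn
      linarith
    exact_mod_cast h8
  · intro hH
    have hS1 : (1 : ℝ) ≤ S2 c d := by
      have := S2_ge c d
      have h : (2 : ℝ) ≤ S2 c d := by exact_mod_cast this
      linarith
    have hL2 : (L : ℝ) * Real.log 2 ≤ L := by
      have := Real.log_two_lt_d9
      have h0 : (0 : ℝ) ≤ L := Nat.cast_nonneg _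
      nlinarith
    -- lower bound
    have h1 : (H (ptX (κ • U a)) : ℝ) * H (ptX (κ • U b)) ≤
        2 * ((ptX (κ • U a) * ptX (κ • U b)).den : ℝ) := by exact_mod_cast H_prod_ge hOa hOb
    have h2 : ((ptX (κ • U a) * ptX (κ • U b)).den : ℝ) ≤ H (ptX (κ • U a) * ptX (κ • U b)) := by
      exact_mod_cast den_le_H _
    have h7 := hlo a b
    have h8 : c₀ * (κ : ℝ) ^ 2 * S2 a b - 2 * K ≤
        Real.log 2 + Real.log (H (ptX (κ • U a) * ptX (κ • U b))) := by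
      have hHp : (0 : ℝ) < H (ptX (κ • U a) * ptX (κ • U b)) := by exact_mod_cast H_pos _
      rw [← Real.log_mul two_ne_zero hHp.ne', Real.le_log_iff_exp_le (by positivity)]
      linarith
    -- upper bound
    have h4 : ((H (ptX (κ • U c) * ptX (κ • U d) / 2 ^ L) : ℕ) : ℝ) ≤
        2 ^ L * H (ptX (κ • U c) * ptX (κ • U d)) := by
      exact_mod_cast (div_pow_two hOc hOd L).2
    have h5 : ((H (ptX (κ • U c) * ptX (κ • U d)) : ℕ) : ℝ) ≤
        (H (ptX (κ • U c)) : ℝ) * H (ptX (κ • U d)) := by exact_mod_cast H_mul_le _ _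
    have h6 := hup c d
    set t := Real.log (H (ptX (κ • U c) * ptX (κ • U d) / 2 ^ L)) with ht
    have ht0 : 0 ≤ t := log_H_nonneg _
    have h9 : t ≤ L * Real.log 2 + (c₀ * (κ : ℝ) ^ 2 * S2 c d + 2 * K) := by
      have hHp : (0 : ℝ) < H (ptX (κ • U c) * ptX (κ • U d) / 2 ^ L) := by exact_mod_cast H_pos _
      have e1 : (L : ℝ) * Real.log 2 + (c₀ * (κ : ℝ) ^ 2 * S2 c d + 2 * K) =
          Real.log (2 ^ L * Real.exp (c₀ * (κ : ℝ) ^ 2 * S2 c d + 2 * K)) := by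
        rw [Real.log_mul (by positivity) (Real.exp_pos _).ne', Real.log_pow, Real.log_exp]
      rw [e1, ht]
      apply Real.log_le_log hHp
      exact h4.trans (mul_le_mul_of_nonneg_left (h5.trans h6) (by positivity))
    have hκS : (1 : ℝ) ≤ (κ : ℝ) ^ 2 * S2 c d := by
      have : (1 : ℝ) ≤ (κ : ℝ) ^ 2 := one_le_pow₀ hκ1
      nlinarith
    have h10 : 1 + t ≤ B * (κ : ℝ) ^ 2 * S2 c d := by
      have : 1 + t ≤ 1 + L + 2 * K + c₀ * ((κ : ℝ) ^ 2 * S2 c d) := by linarith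
      refine this.trans ?_
      have hnn : (0 : ℝ) ≤ 1 + L + 2 * K := by
        have : (0 : ℝ) ≤ L := Nat.cast_nonneg _
        linarith
      calc 1 + L + 2 * K + c₀ * ((κ : ℝ) ^ 2 * S2 c d) ≤
            (1 + L + 2 * K) * ((κ : ℝ) ^ 2 * S2 c d) + c₀ * ((κ : ℝ) ^ 2 * S2 c d) := by
              have := mul_le_mul_of_nonneg_left hκS hnn
              linarith
        _ = B * (κ : ℝ) ^ 2 * S2 c d := by rw [hB]; ring
    have h11 := err_le τ ht0 hB1 hκ1 hS1 h10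
    have hSe : (1 : ℝ) ≤ (S2 c d : ℝ) ^ τ.e := Real.one_le_rpow hS1 τ.e_nonneg
    have hlog2 : Real.log 2 ≤ 1 := by
      have := Real.log_two_lt_d9
      linarith
    have h12 : c₀ * (κ : ℝ) ^ 2 * S2 a b ≤ c₀ * (κ : ℝ) ^ 2 * S2 c d +
        (4 * K + (L + 1) + |τ.A| * B * κ * (S2 c d : ℝ) ^ τ.e) := by linarith
    have h13 : 4 * K + (L + 1) + |τ.A| * B * κ * (S2 c d : ℝ) ^ τ.e ≤
        M0 * κ * (S2 c d : ℝ) ^ τ.e := by
      have hnn : (0 : ℝ) ≤ 4 * K + (L + 1) := by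
        have : (0 : ℝ) ≤ L := Nat.cast_nonneg _
        linarith
      have h14 : (1 : ℝ) ≤ κ * (S2 c d : ℝ) ^ τ.e := one_le_mul_of_one_le_of_one_le hκ1 hSe
      have h17 := mul_le_mul_of_nonneg_left h14 hnn
      have e1 : M0 * κ * (S2 c d : ℝ) ^ τ.e = (4 * K + (L + 1)) * (κ * (S2 c d : ℝ) ^ τ.e) +
          |τ.A| * B * κ * (S2 c d : ℝ) ^ τ.e := by rw [hM0]; ring
      rw [e1]
      linarith
    have h15 : M0 * κ * (S2 c d : ℝ) ^ τ.e ≤ c₀ * (κ : ℝ) ^ 2 * (S2 c d : ℝ) ^ τ.e :=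
      mul_le_mul_of_nonneg_right hbig (by linarith)
    have h16 : c₀ * (κ : ℝ) ^ 2 * S2 a b ≤ c₀ * (κ : ℝ) ^ 2 * (S2 c d + (S2 c d : ℝ) ^ τ.e) := by
      rw [mul_add]
      linarith
    exact le_of_mul_le_mul_left h16 (by positivity)

end Pool.Agent.TH255.HC
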