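import Pool.Agent.TH255.HC.Frame
import Pool.Agent.H528R2.Val
import Pool.Agent.H141R2.FS.Three
import Pool.Agent.H565R2.NS.Tsq

/-!
# Integrality at `2` is existentially definable over `ℚ`
-/

set_option autoImplicit false

namespace Pool.Agent.TH255.HC

open Pool.Agent.H528R2 (Vge vge_int vge_nat vge_ofNat vge_one val_add val_sub val_mul val_div
  val_inv val_pow ne_zero_of_val)

lemma sq_mod8 (a : ℤ) : (a % 2 = 0 ∧ (a ^ 2 % 8 = 0 ∨ a ^ 2 % 8 = 4)) ∨
    (a % 2 = 1 ∧ a ^ 2 % 8 = 1) := by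
  have h : a % 8 = 0 ∨ a % 8 = 1 ∨ a % 8 = 2 ∨ a % 8 = 3 ∨ a % 8 = 4 ∨ a % 8 = 5 ∨ a % 8 = 6 ∨
    a % 8 = 7 := by omega
  rcases h with h | h | h | h | h | h | h | h <;>
    simp [pow_two, Int.mul_emod, h] <;> omega

lemma seven_descent {N : ℤ} (hN : N % 8 = 7) (n : ℕ) : ∀ E A B C : ℤ, E.natAbs ≤ n →
    N * E ^ 2 = A ^ 2 + B ^ 2 + C ^ 2 → E = 0 := by
  induction n with
  | zero => intro E A B C hE _; omega
  | succ n ih =>
    intro E A B C hE h
    have hmod : (N * E ^ 2) % 8 = (7 * (E ^ 2 % 8)) % 8 := by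
      rw [Int.mul_emod, hN]
    have e := congrArg (· % 8) h
    simp only [hmod] at e
    have hall : E % 2 = 0 ∧ A % 2 = 0 ∧ B % 2 = 0 ∧ C % 2 = 0 := by
      rcases sq_mod8 E with ⟨h1, h2⟩ | ⟨h1, h2⟩ <;>
      rcases sq_mod8 A with ⟨h3, h4⟩ | ⟨h3, h4⟩ <;>
      rcases sq_mod8 B with ⟨h5, h6⟩ | ⟨h5, h6⟩ <;>
      rcases sq_mod8 C with ⟨h7, h8⟩ | ⟨h7, h8⟩ <;> omega
    obtain ⟨h1, h2, h3, h4⟩ := hall
    obtain ⟨E', rfl⟩ : ∃ E', E = 2 * E' := ⟨E / 2, by omega⟩
    obtain ⟨A', rfl⟩ : ∃ A', A = 2 * A' := ⟨A / 2, by omega⟩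
    obtain ⟨B', rfl⟩ : ∃ B', B = 2 * B' := ⟨B / 2, by omega⟩
    obtain ⟨C', rfl⟩ : ∃ C', C = 2 * C' := ⟨C / 2, by omega⟩
    by_cases h0 : E' = 0
    · rw [h0, mul_zero]
    · exfalso
      apply h0
      apply ih E' A' B' C'
      · omega
      · have : 4 * (N * E' ^ 2) = 4 * (A' ^ 2 + B' ^ 2 + C' ^ 2) := by linear_combination h
        linarith

/-- integrality at `2` by sums of three squares -/
theorem z2_iff (q : ℚ) : Vge 2 0 q ↔ ∃ a b c : ℚ, 7 * q ^ 2 + 2 = a ^ 2 + b ^ 2 + c ^ 2 := by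
  have h2 : Nat.Prime 2 := Nat.prime_two
  have hd : (q.den : ℚ) ≠ 0 := by exact_mod_cast q.den_nz
  have hq : q = q.num / q.den := (Rat.num_div_den q).symm
  constructor
  · intro h
    have hodd : q.den % 2 = 1 := by
      by_contra hc
      have hdvd : 2 ∣ q.den := by omega
      rcases h with h | h
      · rw [h] at hdvd; simp at hdvd
      · have := Fact.mk h2
        rw [padicValRat_def, padicValInt] at h
        have h3 : padicValNat 2 q.num.natAbs = 0 := by
          apply padicValNat.eq_zero_of_not_dvd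
          intro h4
          exact (Nat.Prime.not_coprime_iff_dvd.mpr ⟨2, h2, h4, hdvd⟩) q.reduced
        have h4 : 1 ≤ padicValNat 2 q.den := one_le_padicValNat_of_dvd q.den_nz hdvd
        omega
    set m : ℕ := 7 * q.num.natAbs ^ 2 + 2 * q.den ^ 2 with hm
    have hm4 : m % 4 = 1 ∨ m % 4 = 2 := by
      have h5 : q.den ^ 2 % 4 = 1 := by
        rw [Nat.pow_mod]
        have : q.den % 4 = 1 ∨ q.den % 4 = 3 := by omega
        rcases this with h | h <;> rw [h]
      have h6 : q.num.natAbs ^ 2 % 4 = 0 ∨ q.num.natAbs ^ 2 % 4 = 1 := by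
        rw [Nat.pow_mod]
        have : q.num.natAbs % 4 = 0 ∨ q.num.natAbs % 4 = 1 ∨ q.num.natAbs % 4 = 2 ∨
          q.num.natAbs % 4 = 3 := by omega
        rcases this with h | h | h | h <;> rw [h] <;> norm_num
      omega
    obtain ⟨x, y, z, hxyz⟩ : ∃ x y z : ℤ, x ^ 2 + y ^ 2 + z ^ 2 = m := by
      rcases hm4 with h7 | h7
      · exact Pool.Agent.H141R2.FS.three_squares_one h7
      · exact Pool.Agent.H565R2.NS.three_squares_two h7
    refine ⟨x / q.den, y / q.den, z / q.den, ?_⟩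
    have h8 : (x : ℚ) ^ 2 + y ^ 2 + z ^ 2 = 7 * (q.num : ℚ) ^ 2 + 2 * (q.den : ℚ) ^ 2 := by
      have h11 : ((x ^ 2 + y ^ 2 + z ^ 2 : ℤ) : ℚ) = ((m : ℤ) : ℚ) := by rw [hxyz]
      push_cast [hm] at h11
      rw [sq_abs] at h11
      exact h11
    have h10 : 7 * q ^ 2 + 2 = (7 * (q.num : ℚ) ^ 2 + 2 * (q.den : ℚ) ^ 2) / (q.den : ℚ) ^ 2 := by
      conv_lhs => rw [hq]
      field_simp
    rw [h10, ← h8]
    field_simp
  · rintro ⟨a, b, c, h⟩
    by_contra hc
    unfold Vge at hc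
    push Not at hc
    obtain ⟨hq0, hv⟩ := hc
    have := Fact.mk h2
    have hden : 2 ∣ q.den := by
      by_contra h3
      rw [padicValRat_def, padicValNat.eq_zero_of_not_dvd h3] at hv
      simp at hv
      omega
    have hnum : ¬ 2 ∣ q.num.natAbs := by
      intro h3
      exact (Nat.Prime.not_coprime_iff_dvd.mpr ⟨2, h2, h3, hden⟩) q.reduced
    set N : ℤ := 7 * q.num ^ 2 + 2 * (q.den : ℤ) ^ 2 with hN
    have hN8 : N % 8 = 7 := by
      obtain ⟨d, hd'⟩ := hden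
      have h4 : q.num % 2 = 1 := by omega
      have h5 : q.num ^ 2 % 8 = 1 := by
        rcases sq_mod8 q.num with ⟨h6, -⟩ | ⟨-, h6⟩
        · omega
        · exact h6
      have h6 : (2 * (q.den : ℤ) ^ 2) = 8 * (d : ℤ) ^ 2 := by
        rw [hd']; push_cast; ring
      rw [hN, h6]
      omega
    -- common denominator
    set D : ℤ := (a.den : ℤ) * b.den * c.den with hD
    have hD0 : D ≠ 0 := by
      have h1 : (a.den : ℤ) ≠ 0 := by exact_mod_cast a.den_nz
      have h2 : (b.den : ℤ) ≠ 0 := by exact_mod_cast b.den_nz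
      have h3 : (c.den : ℤ) ≠ 0 := by exact_mod_cast c.den_nz
      positivity
    have ha : a * a.den = a.num := Rat.mul_den_eq_num a
    have hb : b * b.den = b.num := Rat.mul_den_eq_num b
    have hc' : c * c.den = c.num := Rat.mul_den_eq_num c
    have hqn : q * q.den = q.num := Rat.mul_den_eq_num q
    have key : N * D ^ 2 = (a.num * b.den * c.den * q.den) ^ 2 +
        (b.num * a.den * c.den * q.den) ^ 2 + (c.num * a.den * b.den * q.den) ^ 2 := by
      have : ((N * D ^ 2 : ℤ) : ℚ) = (((a.num * b.den * c.den * q.den) ^ 2 +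
        (b.num * a.den * c.den * q.den) ^ 2 + (c.num * a.den * b.den * q.den) ^ 2 : ℤ) : ℚ) := by
        rw [hN, hD]
        push_cast
        rw [← ha, ← hb, ← hc', ← hqn]
        linear_combination ((q.den : ℚ) * a.den * b.den * c.den) ^ 2 * h
      exact_mod_cast this
    exact hD0 (seven_descent hN8 D.natAbs D _ _ _ le_rfl key)

lemma vge_norm (q : ℚ) : Vge 2 0 q ↔ padicNorm 2 q ≤ 1 := by
  have := Fact.mk Nat.prime_two
  by_cases hq : q = 0
  · rw [hq, padicNorm.zero]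
    exact ⟨fun _ => zero_le_one, fun _ => Or.inl rfl⟩
  · rw [padicNorm.eq_zpow_of_nonzero hq]
    constructor
    · intro h
      have h1 := h.resolve_left hq
      apply zpow_le_one_of_nonpos₀ (by norm_num)
      omega
    · intro h
      right
      by_contra h1
      push Not at h1
      have h2 : (1 : ℚ) < (2 : ℕ) ^ (-padicValRat 2 q) := by
        apply one_lt_zpow₀ (by norm_num)
        omega
      exact absurd h (not_le.mpr h2)

theorem dh_z2 {C : Tol} {f : (ℕ → ℚ) → ℚ} (hf : PF f) : DH C (fun _ v => padicNorm 2 (f v) ≤ 1) := by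
  have h : DH C (fun _ v => ∃ u : ℕ → ℚ, 7 * f v ^ 2 + 2 = u 0 ^ 2 + u 1 ^ 2 + u 2 ^ 2) := by
    refine DH.exs ?_
    exact DH.eq (((PF.lit 7).mul (hf.ev.pow 2)).add (PF.lit 2))
      ((((PF.od 0).pow 2).add ((PF.od 1).pow 2)).add ((PF.od 2).pow 2))
  refine h.congr fun _ _ v => ?_
  rw [← vge_norm, z2_iff]
  constructor
  · rintro ⟨a, b, c, h⟩
    exact ⟨fun n => if n = 0 then a else if n = 1 then b else c, by simpa using h⟩
  · rintro ⟨u, h⟩
    exact ⟨u 0, u 1, u 2, h⟩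

end Pool.Agent.TH255.HC
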