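import Pool.Agent.TH255.HC.Sys
import Pool.Agent.TH255.HC.Two

/-!
# The link between a natural number and its code
-/

set_option autoImplicit false

namespace Pool.Agent.TH255.HC

open Pool.Agent.H528R2 (Vge vge_int vge_nat vge_ofNat vge_one val_add val_sub val_mul val_div
  val_inv val_pow ne_zero_of_val)

/-! ### heights of the codes -/

lemma U_nat (j : ℕ) : U j = (2 * (j : ℤ) + 1) • G := rfl

lemma height_bound (τ : Tol) : ∃ c₁ : ℕ, ∀ (j : ℕ) (x : ℚ),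
    Real.log (H x) ≤ Real.log (H (ptX (U j))) + τ.A * (1 + Real.log (H (ptX (U j)))) ^ τ.δ →
    H x ≤ 2 ^ (c₁ * (j + 1) ^ 2) := by
  obtain ⟨c₀, K, hc, hK, hht⟩ := ht_mult
  set B : ℝ := (1 + |τ.A|) * (1 + 4 * c₀ + K) with hB
  obtain ⟨c₁, hc₁⟩ := pow_unbounded_of_one_lt (Real.exp B) (one_lt_two (α := ℝ))
  refine ⟨c₁, fun j x hx => ?_⟩
  have h1 := hht (2 * (j : ℤ) + 1) (by omega)
  rw [← U_nat, abs_le] at h1
  have hH1 : (1 : ℝ) ≤ H (ptX (U j)) := by exact_mod_cast H_pos _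
  set t : ℝ := Real.log (H (ptX (U j))) with ht
  have ht0 : 0 ≤ t := Real.log_nonneg hH1
  have hj : (0 : ℝ) ≤ j := Nat.cast_nonneg _
  have ht1 : 1 + t ≤ (1 + 4 * c₀ + K) * (j + 1) ^ 2 := by
    have := h1.2
    push_cast at this
    have k1 : c₀ * (2 * j + 1) ^ 2 ≤ c₀ * (4 * (j + 1) ^ 2) :=
      mul_le_mul_of_nonneg_left (by nlinarith) hc.le
    have k2 : (1 + K) * 1 ≤ (1 + K) * ((j : ℝ) + 1) ^ 2 :=
      mul_le_mul_of_nonneg_left (by nlinarith) (by linarith)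
    linarith
  have h2 : (1 + t) ^ τ.δ ≤ 1 + t := by
    calc (1 + t) ^ τ.δ ≤ (1 + t) ^ (1 : ℝ) :=
          Real.rpow_le_rpow_of_exponent_le (by linarith) (by linarith [τ.hδ])
      _ = 1 + t := Real.rpow_one _
  have h2' : 0 ≤ (1 + t) ^ τ.δ := Real.rpow_nonneg (by linarith) _
  have h3 : τ.A * (1 + t) ^ τ.δ ≤ |τ.A| * (1 + t) :=
    (mul_le_mul_of_nonneg_right (le_abs_self _) h2').trans
      (mul_le_mul_of_nonneg_left h2 (abs_nonneg _))
  have h4 : Real.log (H x) ≤ B * (j + 1) ^ 2 := by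
    calc Real.log (H x) ≤ t + |τ.A| * (1 + t) := by linarith
      _ ≤ (1 + |τ.A|) * (1 + t) := by linarith
      _ ≤ (1 + |τ.A|) * ((1 + 4 * c₀ + K) * (j + 1) ^ 2) :=
          mul_le_mul_of_nonneg_left ht1 (by positivity)
      _ = B * (j + 1) ^ 2 := by rw [hB]; ring
  have hHx : (0 : ℝ) < H x := by exact_mod_cast H_pos _
  have h5 : (H x : ℝ) ≤ 2 ^ (c₁ * (j + 1) ^ 2) := by
    calc (H x : ℝ) = Real.exp (Real.log (H x)) := (Real.exp_log hHx).symm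
      _ ≤ Real.exp (B * (j + 1) ^ 2) := Real.exp_le_exp.mpr h4
      _ = Real.exp B ^ ((j + 1) ^ 2) := by
          rw [← Real.exp_nat_mul]
          congr 1
          push_cast
          ring
      _ ≤ (2 ^ c₁) ^ ((j + 1) ^ 2) := pow_le_pow_left₀ (Real.exp_pos _).le hc₁.le _
      _ = 2 ^ (c₁ * (j + 1) ^ 2) := by rw [← pow_mul]
  exact_mod_cast h5

lemma height_unbdd (B : ℕ) : ∃ j : ℕ, B ≤ H (ptX (U j)) := by
  obtain ⟨c₀, K, hc, hK, hht⟩ := ht_mult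
  obtain ⟨j, hj⟩ := exists_nat_gt ((B + K) / c₀)
  refine ⟨j, ?_⟩
  rw [div_lt_iff₀ hc] at hj
  have h1 := hht (2 * (j : ℤ) + 1) (by omega)
  rw [← U_nat, abs_le] at h1
  have h2 : (0 : ℝ) < H (ptX (U j)) := by exact_mod_cast H_pos _
  have h3 : (B : ℝ) ≤ H (ptX (U j)) := by
    have h4 := Real.add_one_le_exp (Real.log (H (ptX (U j))))
    rw [Real.exp_log h2] at h4
    have h5 := h1.1
    push_cast at h5
    have hj0 : (0 : ℝ) ≤ j := Nat.cast_nonneg _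
    nlinarith
  exact_mod_cast h3

/-! ### the formal group at `2` -/

lemma GG_ne : G + G ≠ 0 := by
  intro h
  have h1 : (2 : ℤ) • G = 0 := by rw [two_smul]; exact h
  have := zsmul_G h1
  omega

lemma GG_pole : padicValRat 2 (ptX (G + G)) < 0 := pole_two GG_ne

lemma U_sub_G (m : ℕ) : U m + -G = m • (G + G) := by
  rw [U_nat, add_smul, one_smul, mul_comm, mul_smul, two_smul, natCast_zsmul]
  abel

lemma zf_small (k : ℕ) : padicNorm 2 (Formal.zf ((2 ^ k) • (G + G))) ≤ (2 : ℚ) ^ (-(k : ℤ)) := by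
  have hf : Fact (Nat.Prime 2) := ⟨Nat.prime_two⟩
  obtain ⟨h1, h2⟩ := Formal.nat_smul (s := 2) GG_pole (n := 2 ^ k) (by positivity)
  obtain ⟨-, -, h3, -, h4, -⟩ := Formal.pole_facts h1
  obtain ⟨-, -, -, h5, h6, -⟩ := Formal.pole_facts GG_pole
  rw [padicValNat.prime_pow] at h2
  rw [padicNorm.eq_zpow_of_nonzero h3]
  push_cast
  apply zpow_le_zpow_right₀ (by norm_num)
  omega

/-- the quotient of the coordinates -/
def zq (P : Pt) : ℚ := ptX P / ptY P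

lemma zq_eq (P : Pt) : zq P = -Formal.zf P := by unfold zq Formal.zf; rw [neg_neg]

lemma link_core {n k : ℕ} (x : ℚ) :
    zq ((2 ^ k) • (G + G)) ≠ 0 ∧
    padicNorm 2 ((n * zq ((2 ^ k) • (G + G)) - zq ((n * 2 ^ k) • (G + G))) /
      zq ((2 ^ k) • (G + G)) ^ 2) ≤ 1 ∧
    (padicNorm 2 ((x * zq ((2 ^ k) • (G + G)) - zq ((n * 2 ^ k) • (G + G))) /
      zq ((2 ^ k) • (G + G)) ^ 2) ≤ 1 → padicNorm 2 (x - n) ≤ (2 : ℚ) ^ (-(k : ℤ))) := by
  have hf : Fact (Nat.Prime 2) := ⟨Nat.prime_two⟩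
  obtain ⟨h1, -⟩ := Formal.nat_smul (s := 2) GG_pole (n := 2 ^ k) (by positivity)
  obtain ⟨-, -, h3, -, -, -⟩ := Formal.pole_facts h1
  have hsm := zf_small k
  have hN : (n * 2 ^ k) • (G + G) = n • ((2 ^ k) • (G + G)) := mul_nsmul' _ _ _
  obtain ⟨-, h4⟩ := Formal.nsmul_aux h1 n
  rw [hN]
  set M : Pt := (2 ^ k) • (G + G) with hM
  rw [zq_eq M, zq_eq (n • M)]
  set D := padicNorm 2 (Formal.zf M) with hD
  have hD0 : 0 < D := lt_of_le_of_ne (padicNorm.nonneg _) (Ne.symm (padicNorm.nonzero h3))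
  have hk1 : (2 : ℚ) ^ (-(k : ℤ)) ≤ 1 := by
    apply zpow_le_one_of_nonpos₀ (by norm_num)
    omega
  have hD1 : D ≤ 1 := hsm.trans hk1
  have hz : -Formal.zf M ≠ 0 := neg_ne_zero.mpr h3
  have e1 : padicNorm 2 (n * -Formal.zf M - -Formal.zf (n • M)) ≤ D ^ 3 := by
    have : (n : ℚ) * -Formal.zf M - -Formal.zf (n • M) = Formal.zf (n • M) - n * Formal.zf M := by
      ring
    rw [this]
    exact h4
  have hdiv : ∀ y : ℚ, padicNorm 2 (y / (-Formal.zf M) ^ 2) = padicNorm 2 y / D ^ 2 := by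
    intro y
    have h5 : (-Formal.zf M) ^ 2 = Formal.zf M * Formal.zf M := by ring
    rw [padicNorm.div, h5, padicNorm.mul, ← hD, pow_two]
  refine ⟨hz, ?_, ?_⟩
  · rw [hdiv, div_le_one (by positivity)]
    refine e1.trans ?_
    calc D ^ 3 = D ^ 2 * D := by ring
      _ ≤ D ^ 2 * 1 := mul_le_mul_of_nonneg_left hD1 (by positivity)
      _ = D ^ 2 := mul_one _
  · intro h
    rw [hdiv, div_le_one (by positivity)] at h
    have e2 : padicNorm 2 ((x - n) * Formal.zf M) ≤ D ^ 2 := by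
      have h6 : (x - n) * Formal.zf M = (n * -Formal.zf M - -Formal.zf (n • M)) -
          (x * -Formal.zf M - -Formal.zf (n • M)) := by ring
      rw [h6]
      apply Formal.N_sub_le _ h
      refine e1.trans ?_
      calc D ^ 3 = D ^ 2 * D := by ring
        _ ≤ D ^ 2 * 1 := mul_le_mul_of_nonneg_left hD1 (by positivity)
        _ = D ^ 2 := mul_one _
    rw [padicNorm.mul, ← hD, pow_two] at e2
    have e3 : padicNorm 2 (x - n) ≤ D := le_of_mul_le_mul_right e2 hD0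
    exact e3.trans hsm

lemma small_eq {x : ℚ} {n k B : ℕ} (h : padicNorm 2 (x - n) ≤ (2 : ℚ) ^ (-(k : ℤ)))
    (hH : H x ≤ B) (hB : B * (n + 1) < 2 ^ k) : x = n := by
  have hf : Fact (Nat.Prime 2) := ⟨Nat.prime_two⟩
  set z : ℤ := x.num - n * x.den with hz
  have hxd : x * x.den = x.num := Rat.mul_den_eq_num x
  have hzx : (z : ℚ) = (x - n) * ((x.den : ℤ) : ℚ) := by
    rw [hz]
    push_cast
    rw [← hxd]
    ring
  have h1 : padicNorm 2 (z : ℚ) ≤ (2 : ℚ) ^ (-(k : ℤ)) := by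
    rw [hzx, padicNorm.mul]
    have h2 : padicNorm 2 ((x.den : ℤ) : ℚ) ≤ 1 := padicNorm.of_int _
    have h3 := padicNorm.nonneg (p := 2) (x - n)
    calc padicNorm 2 (x - n) * padicNorm 2 ((x.den : ℤ) : ℚ) ≤ padicNorm 2 (x - n) * 1 :=
          mul_le_mul_of_nonneg_left h2 h3
      _ ≤ _ := by rw [mul_one]; exact h
  have h2 : ((2 ^ k : ℕ) : ℤ) ∣ z := by
    rw [padicNorm.dvd_iff_norm_le]
    exact_mod_cast h1
  have h3 : z.natAbs < 2 ^ k := by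
    refine lt_of_le_of_lt ?_ hB
    have h4 : z.natAbs ≤ x.num.natAbs + n * x.den := by
      rw [hz]
      have := Int.natAbs_sub_le x.num (n * x.den)
      rw [Int.natAbs_mul] at this
      simpa using this
    have h5 : x.num.natAbs ≤ H x := le_max_left _ _
    have h6 : x.den ≤ H x := le_max_right _ _
    calc z.natAbs ≤ x.num.natAbs + n * x.den := h4
      _ ≤ B + n * B := Nat.add_le_add (h5.trans hH) (Nat.mul_le_mul_left _ (h6.trans hH))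
      _ = B * (n + 1) := by ring
  have h4 : z = 0 := by
    by_contra h0
    have h5 := Int.natAbs_dvd_natAbs.mpr h2
    rw [Int.natAbs_natCast] at h5
    have := Nat.le_of_dvd (Int.natAbs_pos.mpr h0) h5
    omega
  have hd : (x.den : ℚ) ≠ 0 := by exact_mod_cast x.den_nz
  rw [h4] at hzx
  push_cast at hzx
  have h5 := (mul_eq_zero.mp hzx.symm).resolve_right hd
  linarith

/-! ### the auxiliary Diophantine relation -/

/-- `(n, j, m, b)` with `n ≥ 1`, `m = 2^(c (j+1)² + n + 1)`, `b = n m` -/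
def SL (c : ℕ) : Set (Fin 4 → ℕ) :=
  {a | (1 ≤ a 0 ∧ a 2 = 2 ^ (c * ((a 1 + 1) * (a 1 + 1)) + a 0 + 1)) ∧ a 3 = a 0 * a 2}

lemma SL_dioph (c : ℕ) : Dioph (SL c) := by
  have p : ∀ i : Fin 4, Dioph.DiophFn (fun v : Fin 4 → ℕ => v i) := fun i => Dioph.proj_dioph i
  have k : ∀ n : ℕ, Dioph.DiophFn (fun _ : Fin 4 → ℕ => n) := fun n => Dioph.const_dioph n
  have h1 : Dioph {a : Fin 4 → ℕ | 1 ≤ a 0} := Dioph.le_dioph (k 1) (p 0)
  have h2 : Dioph.DiophFn (fun a : Fin 4 → ℕ => c * ((a 1 + 1) * (a 1 + 1)) + a 0 + 1) :=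
    Dioph.add_dioph (Dioph.add_dioph (Dioph.mul_dioph (k c)
      (Dioph.mul_dioph (Dioph.add_dioph (p 1) (k 1)) (Dioph.add_dioph (p 1) (k 1)))) (p 0)) (k 1)
  have h3 : Dioph {a : Fin 4 → ℕ | a 2 = 2 ^ (c * ((a 1 + 1) * (a 1 + 1)) + a 0 + 1)} :=
    Dioph.eq_dioph (p 2) (Dioph.pow_dioph (k 2) h2)
  have h4 : Dioph {a : Fin 4 → ℕ | a 3 = a 0 * a 2} :=
    Dioph.eq_dioph (p 3) (Dioph.mul_dioph (p 0) (p 2))
  exact Dioph.inter (Dioph.inter h1 h3) h4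

/-- a positive integer together with its code -/
theorem dh_link (C : Tol) : DH C (fun _ v => ∃ n : ℕ, n ≠ 0 ∧ v 0 = n ∧ Cd (v 1) (v 2) n) := by
  obtain ⟨c₁, hc₁⟩ := height_bound C
  have h : DH C (fun R v => ∃ u : ℕ → ℚ,
      (∃ a : Fin 4 → ℕ, (∀ i : Fin 4, Co u i (a i)) ∧ a ∈ SL c₁) ∧
      Cd (u 8) (u 9) 0 ∧ (u 0 = v 1 ∧ u 1 = v 2) ∧
      Col (u 4) (u 5) (u 8) (- u 9) (u 10) (- u 11) ∧
      Col (u 6) (u 7) (u 8) (- u 9) (u 12) (- u 13) ∧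
      (u 14 * u 11 = u 10 ∧ u 15 * u 13 = u 12) ∧
      u 16 * u 14 ^ 2 = v 0 * u 14 - u 15 ∧
      padicNorm 2 (u 16) ≤ 1 ∧ R (v 0) (u 2)) := by
    refine DH.exs ?_
    refine ((dh_dioph (SL_dioph c₁)).ren (fun n => 2 * n + 1)).and ?_
    refine (dh_cd_const (PF.od 8) (PF.od 9) 0).and ?_
    refine ((DH.eq (PF.od 0) (PF.var 1).ev).and (DH.eq (PF.od 1) (PF.var 2).ev)).and ?_
    refine (dh_col (PF.od 4) (PF.od 5) (PF.od 8) (PF.od 9).neg (PF.od 10) (PF.od 11).neg).and ?_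
    refine (dh_col (PF.od 6) (PF.od 7) (PF.od 8) (PF.od 9).neg (PF.od 12) (PF.od 13).neg).and ?_
    refine ((DH.eq ((PF.od 14).mul (PF.od 11)) (PF.od 10)).and
      (DH.eq ((PF.od 15).mul (PF.od 13)) (PF.od 12))).and ?_
    refine (DH.eq ((PF.od 16).mul ((PF.od 14).pow 2))
      (((PF.var 0).ev.mul (PF.od 14)).sub (PF.od 15))).and ?_
    exact (dh_z2 (PF.od 16)).and (DH.rel (PF.var 0).ev (PF.od 2))
  refine h.congr fun R hR v => ?_
  have hG : -G ≠ 0 := neg_ne_zero.mpr isO_G.1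
  have hadd : ∀ (m : ℕ) (x y : ℚ), Col (ptX (U m)) (ptY (U m)) (ptX G) (- ptY G) x (-y) ↔
      m • (G + G) ≠ 0 ∧ x = ptX (m • (G + G)) ∧ y = ptY (m • (G + G)) := by
    intro m x y
    have := col_add_iff (U_ne m) hG x y
    rw [ptX_neg, ptY_neg, U_sub_G] at this
    exact this
  have hne : ∀ m : ℕ, m ≠ 0 → m • (G + G) ≠ 0 ∧ ptY (m • (G + G)) ≠ 0 := by
    intro m hm
    have hf : Fact (Nat.Prime 2) := ⟨Nat.prime_two⟩
    obtain ⟨h1, -⟩ := Formal.nat_smul (s := 2) GG_pole hm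
    exact ⟨Formal.pole_ne h1, (Formal.pole_facts h1).2.1⟩
  constructor
  · rintro ⟨n, hn, hv0, hv1, hv2⟩
    obtain ⟨j, hj⟩ := height_unbdd (C.C * H (n : ℚ))
    set k := c₁ * ((j + 1) * (j + 1)) + n + 1 with hk
    have hb : n * 2 ^ k ≠ 0 := by positivity
    obtain ⟨m1, m2⟩ := hne (2 ^ k) (by positivity)
    obtain ⟨n1, n2⟩ := hne (n * 2 ^ k) hb
    obtain ⟨z1, z2, -⟩ := link_core (n := n) (k := k) 0
    refine ⟨fun i => ([ptX (U n), ptY (U n), ptX (U j), ptY (U j), ptX (U (2 ^ k : ℕ)),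
      ptY (U (2 ^ k : ℕ)), ptX (U (n * 2 ^ k : ℕ)), ptY (U (n * 2 ^ k : ℕ)), ptX (U 0), ptY (U 0),
      ptX ((2 ^ k) • (G + G)), ptY ((2 ^ k) • (G + G)), ptX ((n * 2 ^ k) • (G + G)),
      ptY ((n * 2 ^ k) • (G + G)), zq ((2 ^ k) • (G + G)), zq ((n * 2 ^ k) • (G + G)),
      (n * zq ((2 ^ k) • (G + G)) - zq ((n * 2 ^ k) • (G + G))) / zq ((2 ^ k) • (G + G)) ^ 2] :
      List ℚ).getD i 0, ⟨![n, j, 2 ^ k, n * 2 ^ k], ?_, ?_⟩, ⟨rfl, rfl⟩, ⟨hv1.symm, hv2.symm⟩,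
      ?_, ?_, ⟨?_, ?_⟩, ?_, z2, ?_⟩
    · intro i
      fin_cases i
      · exact ⟨rfl, rfl⟩
      · exact ⟨rfl, rfl⟩
      · exact ⟨rfl, rfl⟩
      · exact ⟨rfl, rfl⟩
    · refine ⟨⟨?_, ?_⟩, ?_⟩
      · exact Nat.one_le_iff_ne_zero.mpr hn
      · rfl
      · rfl
    · have := (hadd (2 ^ k) _ _).mpr ⟨m1, rfl, rfl⟩
      rw [← U_zero] at this
      exact this
    · have := (hadd (n * 2 ^ k) _ _).mpr ⟨n1, rfl, rfl⟩
      rw [← U_zero] at this
      exact this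
    · exact div_mul_cancel₀ _ m2
    · exact div_mul_cancel₀ _ n2
    · rw [hv0]
      exact div_mul_cancel₀ _ (pow_ne_zero 2 z1)
    · rw [hv0]
      exact hR.1 _ _ hj
  · rintro ⟨u, ⟨a, ha, ⟨ha1, ha2⟩, ha3⟩, hG0, ⟨hu0, hu1⟩, hM, hN, ⟨hzM, hzN⟩, hq, hq2, hRx⟩
    have c0 : Cd (u 0) (u 1) (a 0) := ha 0
    have c1 : Cd (u 2) (u 3) (a 1) := ha 1
    have c2 : Cd (u 4) (u 5) (a 2) := ha 2
    have c3 : Cd (u 6) (u 7) (a 3) := ha 3
    set n := a 0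
    set j := a 1
    set k := c₁ * ((j + 1) * (j + 1)) + n + 1 with hk
    rw [ha2] at c2
    rw [ha3, ha2] at c3
    rw [c2.1, c2.2, hG0.1, hG0.2, U_zero, hadd] at hM
    rw [c3.1, c3.2, hG0.1, hG0.2, U_zero, hadd] at hN
    obtain ⟨m1, m2⟩ := hne (2 ^ k) (by positivity)
    obtain ⟨n1, n2⟩ := hne (n * 2 ^ k) (by positivity)
    obtain ⟨z1, -, z3⟩ := link_core (n := n) (k := k) (v 0)
    have hz14 : u 14 = zq ((2 ^ k) • (G + G)) := by
      rw [zq, eq_div_iff m2, ← hM.2.2, ← hM.2.1]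
      exact hzM
    have hz15 : u 15 = zq ((n * 2 ^ k) • (G + G)) := by
      rw [zq, eq_div_iff n2, ← hN.2.2, ← hN.2.1]
      exact hzN
    have hz16 : u 16 = (v 0 * zq ((2 ^ k) • (G + G)) - zq ((n * 2 ^ k) • (G + G))) /
        zq ((2 ^ k) • (G + G)) ^ 2 := by
      rw [eq_div_iff (pow_ne_zero 2 z1), ← hz14, ← hz15]
      exact hq
    rw [hz16] at hq2
    have h5 := z3 hq2
    have h6 := hR.2 _ _ hRx
    rw [c1.1] at h6
    have h7 := hc₁ j _ h6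
    have h8 : v 0 = n := by
      refine small_eq h5 h7 ?_
      rw [hk, pow_two (j + 1)]
      have h9 : n + 1 ≤ 2 ^ n := Nat.lt_two_pow_self
      calc 2 ^ (c₁ * ((j + 1) * (j + 1))) * (n + 1) ≤
            2 ^ (c₁ * ((j + 1) * (j + 1))) * 2 ^ n := Nat.mul_le_mul_left _ h9
        _ = 2 ^ (c₁ * ((j + 1) * (j + 1)) + n) := by rw [← pow_add]
        _ < 2 ^ (c₁ * ((j + 1) * (j + 1)) + n + 1) :=
            Nat.pow_lt_pow_right (by norm_num) (by omega)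
    refine ⟨n, by omega, h8, ?_⟩
    rw [← hu0, ← hu1]
    exact c0

end Pool.Agent.TH255.HC
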