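import Pool.Agent.TH255.HC.Link

/-!
# Definition of the integers and of all recursively enumerable sets
-/

set_option autoImplicit false

namespace Pool.Agent.TH255.HC

open MvPolynomial

variable {C : Tol}

/-- the positive integers -/
theorem dh_pos (i : ℕ) : DH C (fun _ v => ∃ n : ℕ, n ≠ 0 ∧ v i = n) := by
  have h : DH C (fun _ v => ∃ u : ℕ → ℚ, ∃ n : ℕ, n ≠ 0 ∧ v i = n ∧ Cd (u 0) (u 1) n) := by
    refine DH.exs ?_
    exact (dh_link C).ren (fun k => if k = 0 then 2 * i else 2 * (k - 1) + 1)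
  refine h.congr fun _ _ v => ?_
  constructor
  · rintro ⟨n, hn, hv⟩
    exact ⟨fun k => if k = 0 then ptX (U n) else ptY (U n), n, hn, hv, rfl, rfl⟩
  · rintro ⟨u, n, hn, hv, -⟩
    exact ⟨n, hn, hv⟩

/-- the integers -/
theorem dh_int : DH C (fun _ v => ∃ z : ℤ, v 0 = z) := by
  have h : DH C (fun _ v => ∃ u : ℕ → ℚ, (∃ n : ℕ, n ≠ 0 ∧ u 0 = n) ∧
      (∃ n : ℕ, n ≠ 0 ∧ u 1 = n) ∧ v 0 = u 0 - u 1) := by
    refine DH.exs ?_
    exact (dh_pos 1).and ((dh_pos 3).and (DH.eq (PF.var 0) ((PF.var 1).sub (PF.var 3))))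
  refine h.congr fun _ _ v => ?_
  constructor
  · rintro ⟨z, hz⟩
    refine ⟨fun k => if k = 0 then (((z.toNat + 1 : ℕ)) : ℚ) else (((-z).toNat + 1 : ℕ) : ℚ),
      ⟨_, Nat.succ_ne_zero _, rfl⟩, ⟨_, Nat.succ_ne_zero _, rfl⟩, ?_⟩
    simp only [if_true, one_ne_zero, if_false]
    rw [hz]
    have h1 : (z : ℤ) = ((z.toNat + 1 : ℕ) : ℤ) - (((-z).toNat + 1 : ℕ) : ℤ) := by
      push_cast
      omega
    exact_mod_cast h1
  · rintro ⟨u, ⟨n, -, hn⟩, ⟨m, -, hm⟩, h⟩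
    exact ⟨n - m, by rw [h, hn, hm]; push_cast; ring⟩

/-- recursively enumerable sets -/
theorem dh_re {W : ℕ → Prop} (hW : REPred W) : DH C (fun _ v => ∃ a : ℕ, v 0 = a ∧ W a) := by
  have h0 : REPred (fun n => W (n - 1)) := by
    have := Partrec.comp hW Primrec.pred.to_comp
    exact this
  have h1 := Pool.Agent.Helper844.Dio.dprm h0
  have h2 : Dioph {v : Fin 1 → ℕ | W (v 0 - 1)} := Dioph.reindex_dioph _ (fun _ : Unit => 0) h1
  have h : DH C (fun _ v => ∃ u : ℕ → ℚ, (∃ n : ℕ, n ≠ 0 ∧ u 2 = n ∧ Cd (u 0) (u 1) n) ∧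
      u 2 = v 0 + 1 ∧ ∃ a : Fin 1 → ℕ, (∀ i : Fin 1, Co u i (a i)) ∧ W (a 0 - 1)) := by
    refine DH.exs ?_
    refine DH.and ?_ (DH.and ?_ ?_)
    · exact (dh_link C).ren (fun k => if k = 0 then 5 else 2 * (k - 1) + 1)
    · exact DH.eq (PF.var 5) ((PF.var 0).add PF.one)
    · exact (dh_dioph h2).ren (fun k => 2 * k + 1)
  refine h.congr fun _ _ v => ?_
  constructor
  · rintro ⟨a, ha, hW⟩
    refine ⟨fun k => if k = 0 then ptX (U ((a + 1 : ℕ) : ℤ)) else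
      if k = 1 then ptY (U ((a + 1 : ℕ) : ℤ)) else v 0 + 1, ⟨a + 1, Nat.succ_ne_zero _, ?_, rfl, rfl⟩,
      rfl, fun _ => a + 1, ?_, ?_⟩
    · simp only [OfNat.ofNat_ne_zero, OfNat.ofNat_ne_one, if_false]
      rw [ha]
      push_cast
      ring
    · intro i
      fin_cases i
      exact ⟨rfl, rfl⟩
    · simpa using hW
  · rintro ⟨u, ⟨n, hn, hu, hc⟩, hv, a, ha, hW⟩
    have h3 : Cd (u 0) (u 1) (a 0) := ha 0
    have h4 : (n : ℤ) = a 0 := Cd.inj hc h3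
    refine ⟨a 0 - 1, ?_, hW⟩
    have h5 : a 0 ≠ 0 := by omega
    have h6 : ((a 0 - 1 : ℕ) : ℚ) = (a 0 : ℚ) - 1 := by
      rw [Nat.cast_sub (Nat.one_le_iff_ne_zero.mpr h5)]
      simp
    rw [h6, eq_sub_iff_add_eq, ← hv, hu]
    exact_mod_cast h4

end Pool.Agent.TH255.HC
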