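import Pool.Agent.TH255.HC.Exact
import Pool.Agent.H761R3.Sys

/-!
# Systems of constraints between coded numbers
-/

set_option autoImplicit false

namespace Pool.Agent.TH255.HC

variable {C : Tol}

/-- constraints between integers -/
inductive ZC : Type
  | const (i : ℕ) (n : ℤ) : ZC
  | sum (i j k l : ℕ) : ZC
  | le (i j k l : ℕ) : ZC

def ZC.Holds (ρ : ℤ → ℤ → ℤ → ℤ → Prop) (w : ℕ → ℤ) : ZC → Prop
  | .const i n => w i = n
  | .sum i j k l => w i + w j = w k + w l
  | .le i j k l => ρ (w i) (w j) (w k) (w l)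

/-- the integer coded by the variables `2 i`, `2 i + 1` -/
def Co (u : ℕ → ℚ) (i : ℕ) (n : ℤ) : Prop := Cd (u (2 * i)) (u (2 * i + 1)) n

open Classical in
/-- decoding -/
noncomputable def dec (u : ℕ → ℚ) (i : ℕ) : ℤ := if h : ∃ n, Co u i n then h.choose else 0

lemma dec_eq {u : ℕ → ℚ} {i : ℕ} {n : ℤ} (h : Co u i n) : dec u i = n := by
  have hex : ∃ n, Co u i n := ⟨n, h⟩
  unfold dec
  rw [dif_pos hex]
  exact Cd.inj hex.choose_spec h

lemma dec_spec {u : ℕ → ℚ} {i : ℕ} (h : ∃ n, Co u i n) : Co u i (dec u i) := by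
  obtain ⟨n, hn⟩ := h
  rwa [dec_eq hn]

/-- coded version of a constraint -/
def ZC.D (ρ : ℤ → ℤ → ℤ → ℤ → Prop) (u : ℕ → ℚ) : ZC → Prop
  | .const i n => Co u i n
  | .sum i j k l => ∃ a b c d, Co u i a ∧ Co u j b ∧ Co u k c ∧ Co u l d ∧ a + b = c + d
  | .le i j k l => ∃ a b c d, Co u i a ∧ Co u j b ∧ Co u k c ∧ Co u l d ∧ ρ a b c d

variable {ρ : ℤ → ℤ → ℤ → ℤ → Prop}

lemma ZC.D_dec {u : ℕ → ℚ} {c : ZC} (h : c.D ρ u) : c.Holds ρ (dec u) := by
  cases c with
  | const i n => exact dec_eq h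
  | sum i j k l =>
    obtain ⟨a, b, c, d, h1, h2, h3, h4, h5⟩ := h
    simp only [ZC.Holds, dec_eq h1, dec_eq h2, dec_eq h3, dec_eq h4]
    exact h5
  | le i j k l =>
    obtain ⟨a, b, c, d, h1, h2, h3, h4, h5⟩ := h
    simp only [ZC.Holds, dec_eq h1, dec_eq h2, dec_eq h3, dec_eq h4]
    exact h5

lemma dh_zc (c : ZC) : DH C (fun R u => c.D (LER C R) u) := by
  cases c with
  | const i n => exact dh_cd_const (PF.var _) (PF.var _) n
  | sum i j k l =>
    exact dh_sum (PF.var _) (PF.var _) (PF.var _) (PF.var _) (PF.var _) (PF.var _) (PF.var _)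
      (PF.var _)
  | le i j k l =>
    exact dh_le (PF.var _) (PF.var _) (PF.var _) (PF.var _) (PF.var _) (PF.var _) (PF.var _)
      (PF.var _)

/-- the code of a sequence of integers -/
noncomputable def enc (w : ℕ → ℤ) (n : ℕ) : ℚ :=
  if n % 2 = 0 then ptX (U (w (n / 2))) else ptY (U (w (n / 2)))

lemma enc_co (w : ℕ → ℤ) (i : ℕ) : Co (enc w) i (w i) := by
  constructor
  · unfold enc
    rw [if_pos (by omega)]
    congr 3
    omega
  · unfold enc
    rw [if_neg (by omega)]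
    congr 3
    omega

lemma ZC.D_enc {w : ℕ → ℤ} {c : ZC} (h : c.Holds ρ w) : c.D ρ (enc w) := by
  cases c with
  | const i n => have := enc_co w i; rw [show w i = n from h] at this; exact this
  | sum i j k l => exact ⟨_, _, _, _, enc_co w i, enc_co w j, enc_co w k, enc_co w l, h⟩
  | le i j k l => exact ⟨_, _, _, _, enc_co w i, enc_co w j, enc_co w k, enc_co w l, h⟩

/-- systems of constraints between integers -/
theorem dh_zsys (m : ℕ) (L : List ZC) :
    DH C (fun R v => ∃ w : ℕ → ℤ, (∀ i < m, Co v i (w i)) ∧ ∀ c ∈ L, c.Holds (LER C R) w) := by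
  have h : DH C (fun R v => ∃ u : ℕ → ℚ, (∀ i ∈ List.range m, u (2 * i) = v (2 * i) ∧
      u (2 * i + 1) = v (2 * i + 1) ∧ ∃ n, Cd (u (2 * i)) (u (2 * i + 1)) n) ∧
      ∀ c ∈ L, c.D (LER C R) u) := by
    refine DH.exs ?_
    refine DH.and (DH.list _ fun i => ?_) (DH.list _ fun c => ?_)
    · exact (DH.eq (PF.var _) (PF.var _)).and ((DH.eq (PF.var _) (PF.var _)).and
        (dh_code (PF.var _) (PF.var _)))
    · exact (dh_zc c).ren (fun n => 2 * n + 1)
  refine h.congr fun R _ v => ?_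
  constructor
  · rintro ⟨w, hw, hL⟩
    refine ⟨enc w, fun i hi => ?_, fun c hc => ZC.D_enc (hL c hc)⟩
    rw [List.mem_range] at hi
    obtain ⟨h1, h2⟩ := hw i hi
    obtain ⟨h3, h4⟩ := enc_co w i
    exact ⟨h3.trans h1.symm, h4.trans h2.symm, w i, h3, h4⟩
  · rintro ⟨u, hu, hL⟩
    refine ⟨dec u, fun i hi => ?_, fun c hc => ZC.D_dec (hL c hc)⟩
    obtain ⟨h1, h2, h3⟩ := hu i (List.mem_range.2 hi)
    have h4 : Co u i (dec u i) := dec_spec h3
    unfold Co at h4 ⊢
    rwa [h1, h2] at h4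

/-! ### approximate products -/

/-- renaming of three coded variables -/
def ren3 (i j l : ℕ) (n : ℕ) : ℕ :=
  if n / 2 = 0 then 2 * i + n % 2 else if n / 2 = 1 then 2 * j + n % 2 else 2 * l + n % 2

lemma co_ren3 (i j l : ℕ) (v : ℕ → ℚ) (w : ℕ → ℤ) :
    (∀ t < 3, Co (fun n => v (ren3 i j l n)) t (w t)) ↔
      Co v i (w 0) ∧ Co v j (w 1) ∧ Co v l (w 2) := by
  have h0 : ∀ n, Co (fun n => v (ren3 i j l n)) 0 n ↔ Co v i n := fun n => Iff.rfl
  have h1 : ∀ n, Co (fun n => v (ren3 i j l n)) 1 n ↔ Co v j n := fun n => Iff.rfl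
  have h2 : ∀ n, Co (fun n => v (ren3 i j l n)) 2 n ↔ Co v l n := fun n => Iff.rfl
  constructor
  · intro h
    exact ⟨(h0 _).1 (h 0 (by norm_num)), (h1 _).1 (h 1 (by norm_num)), (h2 _).1 (h 2 (by norm_num))⟩
  · rintro ⟨k0, k1, k2⟩ t ht
    interval_cases t
    · exact k0
    · exact k1
    · exact k2

/-- the coded number is nonnegative -/
lemma dh_nn (i : ℕ) : DH C (fun _ v => ∃ n : ℤ, Co v i n ∧ 0 ≤ n) := by
  have h := (dh_zsys (C := C) 3 [.const 4 0, .const 5 1, .sum 6 5 0 4, .le 6 4 0 4]).ren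
    (ren3 i i i)
  refine h.congr fun R hR v => ?_
  have hc := cmp_LER hR
  constructor
  · rintro ⟨n, hn, hn0⟩
    refine ⟨fun t => if t < 3 then n else if t = 4 then 0 else if t = 5 then 1 else n - 1, ?_, ?_⟩
    · rw [co_ren3]
      exact ⟨hn, hn, hn⟩
    · simp only [List.mem_cons, List.not_mem_nil, or_false, forall_eq_or_imp, forall_eq,
        ZC.Holds]
      norm_num
      exact (nn_iff C.e_nonneg C.e_lt hc n).mpr hn0
  · rintro ⟨w, hw, hL⟩
    rw [co_ren3] at hw
    simp only [List.mem_cons, List.not_mem_nil, or_false, forall_eq_or_imp, forall_eq,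
        ZC.Holds] at hL
    obtain ⟨e1, e2, e3, e4⟩ := hL
    rw [e1, e2] at e3
    rw [e1] at e4
    have e5 : w 6 = w 0 - 1 := by linarith
    rw [e5] at e4
    exact ⟨w 0, hw.1, (nn_iff C.e_nonneg C.e_lt hc _).mp e4⟩

lemma dh_pr (i j l : ℕ) : DH C (fun R v => ∃ a b c : ℤ, Co v i a ∧ Co v j b ∧ Co v l c ∧
    Pr (LER C R) a b c) := by
  have h := (dh_zsys (C := C) 3 [.const 9 0, .const 10 1, .sum 0 1 3 9, .sum 2 2 4 9,
    .sum 4 0 5 9, .sum 6 10 5 9, .sum 1 10 7 9, .sum 8 7 0 9, .le 3 6 8 5, .le 8 5 3 6]).ren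
      (ren3 i j l)
  refine h.congr fun R hR v => ?_
  constructor
  · rintro ⟨a, b, c, h1, h2, h3, h4⟩
    refine ⟨fun t => if t = 0 then a else if t = 1 then b else if t = 2 then c else
      if t = 3 then a + b else if t = 4 then 2 * c else if t = 5 then 2 * c + a else
      if t = 6 then 2 * c + a - 1 else if t = 7 then b + 1 else if t = 8 then a - b - 1 else
      if t = 9 then 0 else 1, ?_, ?_⟩
    · rw [co_ren3]
      exact ⟨h1, h2, h3⟩
    · simp only [List.mem_cons, List.not_mem_nil, or_false, forall_eq_or_imp, forall_eq,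
        ZC.Holds]
      norm_num
      exact ⟨by ring, h4.1, h4.2⟩
  · rintro ⟨w, hw, hL⟩
    rw [co_ren3] at hw
    simp only [List.mem_cons, List.not_mem_nil, or_false, forall_eq_or_imp, forall_eq,
        ZC.Holds] at hL
    obtain ⟨e1, e2, e3, e4, e5, e6, e7, e8, e9, e10⟩ := hL
    refine ⟨_, _, _, hw.1, hw.2.1, hw.2.2, ?_⟩
    have k3 : w 3 = w 0 + w 1 := by linarith
    have k4 : w 4 = 2 * w 2 := by linarith
    have k5 : w 5 = 2 * w 2 + w 0 := by linarith
    have k6 : w 6 = 2 * w 2 + w 0 - 1 := by linarith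
    have k7 : w 7 = w 1 + 1 := by linarith
    have k8 : w 8 = w 0 - w 1 - 1 := by linarith
    rw [k3, k5, k6, k8] at e9 e10
    exact ⟨e9, e10⟩

/-- constraints between integers, second kind -/
inductive ZP : Type
  | const (i : ℕ) (n : ℤ) : ZP
  | sum (i j k l : ℕ) : ZP
  | pr (i j l : ℕ) : ZP
  | nn (i : ℕ) : ZP

def ZP.Holds (ρ : ℤ → ℤ → ℤ → ℤ → Prop) (w : ℕ → ℤ) : ZP → Prop
  | .const i n => w i = n
  | .sum i j k l => w i + w j = w k + w l
  | .pr i j l => Pr ρ (w i) (w j) (w l)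
  | .nn i => 0 ≤ w i

/-- coded version of a constraint -/
def ZP.D (ρ : ℤ → ℤ → ℤ → ℤ → Prop) (u : ℕ → ℚ) : ZP → Prop
  | .const i n => Co u i n
  | .sum i j k l => ∃ a b c d, Co u i a ∧ Co u j b ∧ Co u k c ∧ Co u l d ∧ a + b = c + d
  | .pr i j l => ∃ a b c, Co u i a ∧ Co u j b ∧ Co u l c ∧ Pr ρ a b c
  | .nn i => ∃ n, Co u i n ∧ 0 ≤ n

lemma ZP.D_dec {u : ℕ → ℚ} {c : ZP} (h : c.D ρ u) : c.Holds ρ (dec u) := by
  cases c with
  | const i n => exact dec_eq h
  | sum i j k l =>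
    obtain ⟨a, b, c, d, h1, h2, h3, h4, h5⟩ := h
    simp only [ZP.Holds, dec_eq h1, dec_eq h2, dec_eq h3, dec_eq h4]
    exact h5
  | pr i j l =>
    obtain ⟨a, b, c, h1, h2, h3, h5⟩ := h
    simp only [ZP.Holds, dec_eq h1, dec_eq h2, dec_eq h3]
    exact h5
  | nn i =>
    obtain ⟨n, h1, h2⟩ := h
    simp only [ZP.Holds, dec_eq h1]
    exact h2

lemma ZP.D_enc {w : ℕ → ℤ} {c : ZP} (h : c.Holds ρ w) : c.D ρ (enc w) := by
  cases c with
  | const i n => have := enc_co w i; rw [show w i = n from h] at this; exact this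
  | sum i j k l => exact ⟨_, _, _, _, enc_co w i, enc_co w j, enc_co w k, enc_co w l, h⟩
  | pr i j l => exact ⟨_, _, _, enc_co w i, enc_co w j, enc_co w l, h⟩
  | nn i => exact ⟨_, enc_co w i, h⟩

lemma dh_zp (c : ZP) : DH C (fun R u => c.D (LER C R) u) := by
  cases c with
  | const i n => exact dh_cd_const (PF.var _) (PF.var _) n
  | sum i j k l =>
    exact dh_sum (PF.var _) (PF.var _) (PF.var _) (PF.var _) (PF.var _) (PF.var _) (PF.var _)
      (PF.var _)
  | pr i j l => exact dh_pr i j l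
  | nn i => exact dh_nn i

/-- systems of constraints of the second kind -/
theorem dh_zpsys (m : ℕ) (L : List ZP) :
    DH C (fun R v => ∃ w : ℕ → ℤ, (∀ i < m, Co v i (w i)) ∧ ∀ c ∈ L, c.Holds (LER C R) w) := by
  have h : DH C (fun R v => ∃ u : ℕ → ℚ, (∀ i ∈ List.range m, u (2 * i) = v (2 * i) ∧
      u (2 * i + 1) = v (2 * i + 1) ∧ ∃ n, Cd (u (2 * i)) (u (2 * i + 1)) n) ∧
      ∀ c ∈ L, c.D (LER C R) u) := by
    refine DH.exs ?_
    refine DH.and (DH.list _ fun i => ?_) (DH.list _ fun c => ?_)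
    · exact (DH.eq (PF.var _) (PF.var _)).and ((DH.eq (PF.var _) (PF.var _)).and
        (dh_code (PF.var _) (PF.var _)))
    · exact (dh_zp c).ren (fun n => 2 * n + 1)
  refine h.congr fun R _ v => ?_
  constructor
  · rintro ⟨w, hw, hL⟩
    refine ⟨enc w, fun i hi => ?_, fun c hc => ZP.D_enc (hL c hc)⟩
    rw [List.mem_range] at hi
    obtain ⟨h1, h2⟩ := hw i hi
    obtain ⟨h3, h4⟩ := enc_co w i
    exact ⟨h3.trans h1.symm, h4.trans h2.symm, w i, h3, h4⟩
  · rintro ⟨u, hu, hL⟩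
    refine ⟨dec u, fun i hi => ?_, fun c hc => ZP.D_dec (hL c hc)⟩
    obtain ⟨h1, h2, h3⟩ := hu i (List.mem_range.2 hi)
    have h4 : Co u i (dec u i) := dec_spec h3
    unfold Co at h4 ⊢
    rwa [h1, h2] at h4

/-! ### natural numbers -/

/-- the coded number is a natural number -/
lemma dh_nat (i : ℕ) : DH C (fun _ v => ∃ n : ℕ, Co v i n) := by
  refine (dh_nn (C := C) i).congr fun R hR v => ?_
  constructor
  · rintro ⟨n, hn⟩
    exact ⟨n, hn, Int.natCast_nonneg n⟩
  · rintro ⟨n, hn, hn0⟩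
    exact ⟨n.toNat, by rwa [Int.toNat_of_nonneg hn0]⟩

lemma dh_add (i j l : ℕ) : DH C (fun _ v => ∃ a b c : ℤ, Co v i a ∧ Co v j b ∧ Co v l c ∧
    a + b = c) := by
  have h := (dh_zsys (C := C) 3 [.const 4 0, .sum 0 1 2 4]).ren (ren3 i j l)
  refine h.congr fun _ _ v => ?_
  constructor
  · rintro ⟨a, b, c, h1, h2, h3, h4⟩
    refine ⟨fun t => if t = 0 then a else if t = 1 then b else if t = 2 then c else 0, ?_, ?_⟩
    · rw [co_ren3]
      exact ⟨h1, h2, h3⟩
    · simp only [List.mem_cons, List.not_mem_nil, or_false, forall_eq_or_imp, forall_eq,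
        ZC.Holds]
      norm_num
      exact h4
  · rintro ⟨w, hw, hL⟩
    rw [co_ren3] at hw
    simp only [List.mem_cons, List.not_mem_nil, or_false, forall_eq_or_imp, forall_eq,
        ZC.Holds] at hL
    refine ⟨_, _, _, hw.1, hw.2.1, hw.2.2, ?_⟩
    rw [hL.2, hL.1, add_zero]

/-- the system for the exact product -/
def mulSys (k : ℕ) : List ZP :=
  [.const 3 0, .const 5 100, .sum 6 0 20 3, .sum 20 0 7 3, .sum 8 1 20 3, .sum 20 1 9 3,
    .sum 10 2 20 3, .sum 20 2 11 3, .sum 12 5 20 3, .nn 6, .nn 7, .nn 8, .nn 9, .nn 10, .nn 11,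
    .nn 12, .pr (20 + k) 1 13, .pr (20 + k) 2 14, .pr 0 13 14] ++
  (List.range k).flatMap (fun i => [.pr (20 + i) (20 + i) (20 + (i + 1)), .nn (20 + (i + 1))])

/-- the solution of the system for the exact product -/
def mulSol (k : ℕ) (a b c : ℤ) (t : ℕ) : ℤ :=
  let u : ℤ := |a| + |b| + |c| + 100
  if 20 ≤ t then u ^ (2 ^ (t - 20)) else if t = 0 then a else if t = 1 then b else
  if t = 2 then c else if t = 3 then 0 else if t = 5 then 100 else if t = 6 then u - a else
  if t = 7 then u + a else if t = 8 then u - b else if t = 9 then u + b else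
  if t = 10 then u - c else if t = 11 then u + c else if t = 12 then u - 100 else
  if t = 13 then u ^ (2 ^ k) * b else if t = 14 then u ^ (2 ^ k) * c else 0

lemma dh_mul (i j l : ℕ) : DH C (fun _ v => ∃ a b c : ℤ, Co v i a ∧ Co v j b ∧ Co v l c ∧
    a * b = c) := by
  obtain ⟨k, hk⟩ : ∃ k : ℕ, 3 ≤ (2 : ℝ) ^ k * (1 - 2 * C.e) := by
    have h1 : 0 < 1 - 2 * C.e := by have := C.e_lt; linarith
    obtain ⟨k, hk⟩ := pow_unbounded_of_one_lt (3 / (1 - 2 * C.e)) (one_lt_two (α := ℝ))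
    exact ⟨k, by rw [div_lt_iff₀ h1] at hk; exact hk.le⟩
  have h := (dh_zpsys (C := C) 3 (mulSys k)).ren (ren3 i j l)
  refine h.congr fun R hR v => ?_
  have hc := cmp_LER hR
  constructor
  · rintro ⟨a, b, c, h1, h2, h3, h4⟩
    refine ⟨mulSol k a b c, ?_, ?_⟩
    · rw [co_ren3]
      exact ⟨h1, h2, h3⟩
    · have ha1 := neg_abs_le a
      have ha2 := le_abs_self a
      have hb1 := neg_abs_le b
      have hb2 := le_abs_self b
      have hc1 := neg_abs_le c
      have hc2 := le_abs_self c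
      have hu : ∀ i : ℕ, mulSol k a b c (20 + i) = (|a| + |b| + |c| + 100) ^ (2 ^ i) := by
        intro i
        simp [mulSol]
      have hu0 : mulSol k a b c 20 = |a| + |b| + |c| + 100 := by simpa using hu 0
      intro q hq
      simp only [mulSys, List.mem_append, List.mem_cons, List.not_mem_nil, or_false,
        List.mem_flatMap, List.mem_range] at hq
      rcases hq with (rfl | rfl | rfl | rfl | rfl | rfl | rfl | rfl | rfl | rfl | rfl | rfl | rfl |
        rfl | rfl | rfl | rfl | rfl | rfl) | ⟨i, hi, rfl | rfl⟩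
      · rfl
      · rfl
      · change mulSol k a b c 6 + mulSol k a b c 0 = mulSol k a b c 20 + mulSol k a b c 3
        rw [hu0]
        change (|a| + |b| + |c| + 100 - a) + a = _ + 0
        ring
      · change mulSol k a b c 20 + mulSol k a b c 0 = mulSol k a b c 7 + mulSol k a b c 3
        rw [hu0]
        change _ + a = (|a| + |b| + |c| + 100 + a) + 0
        ring
      · change mulSol k a b c 8 + mulSol k a b c 1 = mulSol k a b c 20 + mulSol k a b c 3
        rw [hu0]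
        change (|a| + |b| + |c| + 100 - b) + b = _ + 0
        ring
      · change mulSol k a b c 20 + mulSol k a b c 1 = mulSol k a b c 9 + mulSol k a b c 3
        rw [hu0]
        change _ + b = (|a| + |b| + |c| + 100 + b) + 0
        ring
      · change mulSol k a b c 10 + mulSol k a b c 2 = mulSol k a b c 20 + mulSol k a b c 3
        rw [hu0]
        change (|a| + |b| + |c| + 100 - c) + c = _ + 0
        ring
      · change mulSol k a b c 20 + mulSol k a b c 2 = mulSol k a b c 11 + mulSol k a b c 3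
        rw [hu0]
        change _ + c = (|a| + |b| + |c| + 100 + c) + 0
        ring
      · change mulSol k a b c 12 + mulSol k a b c 5 = mulSol k a b c 20 + mulSol k a b c 3
        rw [hu0]
        change (|a| + |b| + |c| + 100 - 100) + 100 = _ + 0
        ring
      · change 0 ≤ |a| + |b| + |c| + 100 - a
        linarith [abs_nonneg b, abs_nonneg c]
      · change 0 ≤ |a| + |b| + |c| + 100 + a
        linarith [abs_nonneg b, abs_nonneg c]
      · change 0 ≤ |a| + |b| + |c| + 100 - b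
        linarith [abs_nonneg a, abs_nonneg c]
      · change 0 ≤ |a| + |b| + |c| + 100 + b
        linarith [abs_nonneg a, abs_nonneg c]
      · change 0 ≤ |a| + |b| + |c| + 100 - c
        linarith [abs_nonneg a, abs_nonneg b]
      · change 0 ≤ |a| + |b| + |c| + 100 + c
        linarith [abs_nonneg a, abs_nonneg b]
      · change 0 ≤ |a| + |b| + |c| + 100 - 100
        linarith [abs_nonneg a, abs_nonneg b, abs_nonneg c]
      · apply Pr.exact hc
        rw [hu]
        rfl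
      · apply Pr.exact hc
        rw [hu]
        rfl
      · apply Pr.exact hc
        change a * ((|a| + |b| + |c| + 100) ^ (2 ^ k) * b) = (|a| + |b| + |c| + 100) ^ (2 ^ k) * c
        rw [← h4]
        ring
      · apply Pr.exact hc
        rw [hu, hu, pow_succ, pow_mul, pow_two]
      · change 0 ≤ mulSol k a b c (20 + (i + 1))
        rw [hu]
        have : 0 ≤ |a| + |b| + |c| + 100 := by positivity
        positivity
  · rintro ⟨w, hw, hL⟩
    rw [co_ren3] at hw
    refine ⟨_, _, _, hw.1, hw.2.1, hw.2.2, ?_⟩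
    have hm : ∀ q ∈ mulSys k, ZP.Holds (LER C R) w q := hL
    simp only [mulSys, List.forall_mem_append, List.mem_cons, List.not_mem_nil, or_false,
      forall_eq_or_imp, forall_eq, ZP.Holds] at hm
    obtain ⟨⟨e1, e2, e3, e4, e5, e6, e7, e8, e9, n1, n2, n3, n4, n5, n6, n7, p1, p2, p3⟩, hch⟩ := hm
    have hV : ∀ i < k, 0 ≤ w (20 + (i + 1)) ∧
        Pr (LER C R) (w (20 + i)) (w (20 + i)) (w (20 + (i + 1))) := by
      intro i hi
      have h1 := hch (.pr (20 + i) (20 + i) (20 + (i + 1))) (by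
        rw [List.mem_flatMap]
        exact ⟨i, List.mem_range.2 hi, by simp⟩)
      have h2 := hch (.nn (20 + (i + 1))) (by
        rw [List.mem_flatMap]
        exact ⟨i, List.mem_range.2 hi, by simp⟩)
      exact ⟨h2, h1⟩
    exact exact_mul C.e_nonneg C.e_lt hc hk (V := fun i => w (20 + i)) (by
      change 100 ≤ w 20
      linarith) (by
      change |w 0| ≤ w 20
      exact abs_le.mpr ⟨by linarith, by linarith⟩) (by
      change |w 1| ≤ w 20
      exact abs_le.mpr ⟨by linarith, by linarith⟩) (by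
      change |w 2| ≤ w 20
      exact abs_le.mpr ⟨by linarith, by linarith⟩) hV p1 p2 p3

lemma dh_one (i : ℕ) : DH C (fun _ v => Co v i 1) := dh_cd_const (PF.var _) (PF.var _) 1

open Pool.Agent.H761R3.Sys in
/-- coded version of a constraint between natural numbers -/
def ConD (u : ℕ → ℚ) : Con → Prop
  | .add i j l => ((∃ n : ℕ, Co u i n) ∧ (∃ n : ℕ, Co u j n) ∧ (∃ n : ℕ, Co u l n)) ∧
      ∃ a b c : ℤ, Co u i a ∧ Co u j b ∧ Co u l c ∧ a + b = c
  | .one i => Co u i 1
  | .mul i j l => ((∃ n : ℕ, Co u i n) ∧ (∃ n : ℕ, Co u j n) ∧ (∃ n : ℕ, Co u l n)) ∧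
      ∃ a b c : ℤ, Co u i a ∧ Co u j b ∧ Co u l c ∧ a * b = c

lemma dh_con (c : Pool.Agent.H761R3.Sys.Con) : DH C (fun _ u => ConD u c) := by
  cases c with
  | add i j l => exact ((dh_nat i).and ((dh_nat j).and (dh_nat l))).and (dh_add i j l)
  | one i => exact dh_one i
  | mul i j l => exact ((dh_nat i).and ((dh_nat j).and (dh_nat l))).and (dh_mul i j l)

lemma dec_nat {u : ℕ → ℚ} {i n : ℕ} (h : Co u i n) : (dec u i).toNat = n := by
  rw [dec_eq h, Int.toNat_natCast]

lemma conD_dec {u : ℕ → ℚ} {c : Pool.Agent.H761R3.Sys.Con} (h : ConD u c) :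
    c.Holds (fun i => (dec u i).toNat) := by
  cases c with
  | add i j l =>
    obtain ⟨⟨⟨a, ha⟩, ⟨b, hb⟩, ⟨c, hc⟩⟩, a', b', c', ha', hb', hc', h⟩ := h
    have h1 := Cd.inj ha ha'
    have h2 := Cd.inj hb hb'
    have h3 := Cd.inj hc hc'
    simp only [Pool.Agent.H761R3.Sys.Con.Holds, dec_nat ha, dec_nat hb, dec_nat hc]
    omega
  | one i =>
    simp only [Pool.Agent.H761R3.Sys.Con.Holds]
    exact dec_nat (n := 1) h
  | mul i j l =>
    obtain ⟨⟨⟨a, ha⟩, ⟨b, hb⟩, ⟨c, hc⟩⟩, a', b', c', ha', hb', hc', h⟩ := h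
    have h1 := Cd.inj ha ha'
    have h2 := Cd.inj hb hb'
    have h3 := Cd.inj hc hc'
    simp only [Pool.Agent.H761R3.Sys.Con.Holds, dec_nat ha, dec_nat hb, dec_nat hc]
    rw [← h1, ← h2, ← h3] at h
    exact_mod_cast h

lemma conD_enc {x : ℕ → ℕ} {c : Pool.Agent.H761R3.Sys.Con} (h : c.Holds x) :
    ConD (enc (fun i => (x i : ℤ))) c := by
  have hc := enc_co (fun i => (x i : ℤ))
  cases c with
  | add i j l =>
    exact ⟨⟨⟨_, hc i⟩, ⟨_, hc j⟩, ⟨_, hc l⟩⟩, _, _, _, hc i, hc j, hc l, by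
      simp only [Pool.Agent.H761R3.Sys.Con.Holds] at h
      exact_mod_cast h⟩
  | one i =>
    have := hc i
    simp only [Pool.Agent.H761R3.Sys.Con.Holds] at h
    simp only [h] at this
    exact this
  | mul i j l =>
    exact ⟨⟨⟨_, hc i⟩, ⟨_, hc j⟩, ⟨_, hc l⟩⟩, _, _, _, hc i, hc j, hc l, by
      simp only [Pool.Agent.H761R3.Sys.Con.Holds] at h
      exact_mod_cast h⟩

/-- systems of constraints between natural numbers -/
theorem dh_nsys (m : ℕ) (L : List Pool.Agent.H761R3.Sys.Con) :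
    DH C (fun _ v => ∃ x : ℕ → ℕ, (∀ i < m, Co v i (x i)) ∧ ∀ c ∈ L, c.Holds x) := by
  have h : DH C (fun _ v => ∃ u : ℕ → ℚ, (∀ i ∈ List.range m, u (2 * i) = v (2 * i) ∧
      u (2 * i + 1) = v (2 * i + 1)) ∧ (∀ i ∈ List.range m, ∃ n : ℕ, Co u i n) ∧
      ∀ c ∈ L, ConD u c) := by
    refine DH.exs ?_
    refine DH.and (DH.list _ fun i => ?_) ((DH.list _ fun i => ?_).and (DH.list _ fun c => ?_))
    · exact (DH.eq (PF.var _) (PF.var _)).and (DH.eq (PF.var _) (PF.var _))
    · exact (dh_nat i).ren (fun n => 2 * n + 1)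
    · exact (dh_con c).ren (fun n => 2 * n + 1)
  refine h.congr fun _ _ v => ?_
  constructor
  · rintro ⟨x, hw, hL⟩
    refine ⟨enc (fun i => (x i : ℤ)), fun i hi => ?_, fun i _ => ⟨x i, enc_co _ i⟩,
      fun c hc => conD_enc (hL c hc)⟩
    rw [List.mem_range] at hi
    obtain ⟨h1, h2⟩ := hw i hi
    obtain ⟨h3, h4⟩ := enc_co (fun i => (x i : ℤ)) i
    exact ⟨h3.trans h1.symm, h4.trans h2.symm⟩
  · rintro ⟨u, hu, hn, hL⟩
    refine ⟨fun i => (dec u i).toNat, fun i hi => ?_, fun c hc => conD_dec (hL c hc)⟩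
    obtain ⟨h1, h2⟩ := hu i (List.mem_range.2 hi)
    obtain ⟨n, h3⟩ := hn i (List.mem_range.2 hi)
    simp only [dec_nat h3]
    unfold Co at h3 ⊢
    rwa [h1, h2] at h3

open Pool.Agent.H761R3.Sys Pool.Agent.H761R3.Sys.SysAux in
/-- relations given by systems -/
theorem dh_sy {m : ℕ} {Rl : (Fin m → ℕ) → Prop} (h : Sy (Fin m) Rl) :
    DH C (fun _ v => ∃ a : Fin m → ℕ, (∀ i : Fin m, Co v i (a i)) ∧ Rl a) := by
  classical
  obtain ⟨β, _, L, hL⟩ := h
  let e := Fintype.equivFin β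
  let f : Fin m ⊕ β → ℕ := Sum.elim (fun i => (i : ℕ)) (fun b => m + (e b : ℕ))
  refine (dh_nsys m (L.map (Pool.Agent.H761R3.Sys.SysAux.C.toCon f))).congr fun _ _ v => ?_
  constructor
  · rintro ⟨a, ha, hR⟩
    obtain ⟨y, hy⟩ := (hL a).1 hR
    let x : ℕ → ℕ := fun n => if h : n < m then a ⟨n, h⟩ else
      if h' : n - m < Fintype.card β then y (e.symm ⟨n - m, h'⟩) else 0
    have hx : x ∘ f = Sum.elim a y := by
      funext s
      rcases s with i | b
      · simp [x, f]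
      · have h1 : ¬ m + (e b : ℕ) < m := by omega
        have h2 : m + (e b : ℕ) - m = e b := by omega
        simp [x, f]
    refine ⟨x, fun i hi => ?_, fun c hc => ?_⟩
    · have : x i = a ⟨i, hi⟩ := by simp [x, hi]
      rw [this]
      exact ha ⟨i, hi⟩
    · rw [List.mem_map] at hc
      obtain ⟨c, hc, rfl⟩ := hc
      rw [Pool.Agent.H761R3.Sys.SysAux.C.toCon_holds, hx]
      exact hy c hc
  · rintro ⟨x, hx, hc⟩
    refine ⟨fun i => x i, fun i => hx i i.2, (hL _).2 ⟨fun b => x (m + e b), fun c hc' => ?_⟩⟩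
    have := hc _ (List.mem_map_of_mem hc')
    rw [Pool.Agent.H761R3.Sys.SysAux.C.toCon_holds] at this
    convert this using 1
    funext s
    rcases s with i | b <;> rfl

open Pool.Agent.H761R3.Sys Pool.Agent.H761R3.Sys.SysAux Pool.Agent.Helper844.Dio in
theorem sy_of_dioph {m : ℕ} {S : Set (Fin m → ℕ)} (hS : Dioph S) : Sy (Fin m) (fun v => v ∈ S) := by
  obtain ⟨δ, _, p, hp⟩ := finite_dummies hS
  obtain ⟨f, g, hf, hg, e⟩ := poly_fn p
  refine (sy_rel_eq hf hg).ex.congr fun v => ?_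
  refine (hp v).trans (exists_congr fun t => ?_)
  rw [e]
  omega

/-- Diophantine relations between coded natural numbers -/
theorem dh_dioph {m : ℕ} {S : Set (Fin m → ℕ)} (hS : Dioph S) :
    DH C (fun _ v => ∃ a : Fin m → ℕ, (∀ i : Fin m, Co v i (a i)) ∧ a ∈ S) :=
  dh_sy (sy_of_dioph hS)

end Pool.Agent.TH255.HC
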